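import Mathlib

set_option autoImplicit false
set_option maxHeartbeats 4000000

namespace Pool.Agent.E809HL

theorem c1_up_1 (z f H k s p q a b : ℝ)
    (hz0 : 0 ≤ z-0)
    (hz1 : 0 ≤ (1/4)-z)
    (hf0 : 0 ≤ f-0)
    (hf1 : 0 ≤ (1/10)-f)
    (hH0 : 0 ≤ H)
    (hH1 : 0 ≤ f-H)
    (hp0 : 0 ≤ p)
    (hpk : 0 ≤ k-p)
    (hq0 : 0 ≤ q)
    (hqs : 0 ≤ s-q)
    (ha0 : 0 ≤ a)
    (hak : 0 ≤ (1/2+z-f)-k-a)
    (hb0 : 0 ≤ b)
    (hbs : 0 ≤ (1/2-z)-s-b)
    (hy0 : 0 ≤ 1/2+z-H-k-s)
    (hmd : 0 ≤ 1/4-z-q-b)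
    (hmy : 0 ≤ 1/4+z-(1/2+z-H-k-s))
    (hu0 : 0 ≤ 2*z-(1/2+z-H-k-s))
    (he0 : 0 ≤ (a+b)-(k+s))
    (hbud : 0 ≤ (z-2*z*f)-(H+(2*z-(1/2+z-H-k-s)))*(q+b)-(2*z-(1/2+z-H-k-s)+f-H)*(p+a)-(a+b)*(p+q)) :
    0 ≤ (k+s+(a+b))*((1/2-z)*(1*(k+H)+1*(1/2+z-H-k-s))+0*(k*(p+2*a))+0*(f*(1-f)-z*(1-2*f))+z*z)-(1/2-z)*(2*k*(a+b)+2*H*((a+b)+p+q)) := by
  linear_combination (153166327/222526908) * (mul_nonneg hf1 hq0)
    + (131884091/556317270) * (mul_nonneg hq0 hu0)
    + (1534988/18543909) * (mul_nonneg hq0 hqs)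
    + (192122339/1112634540) * (mul_nonneg hq0 he0)
    + (246490313/1112634540) * (mul_nonneg hq0 hb0)
    + (18564259/123626060) * (mul_nonneg hq0 ha0)
    + (142695997/1335161448) * (mul_nonneg hp0 hqs)
    + (125627483/1335161448) * (mul_nonneg hp0 hmy)
    + (1402903085/1335161448) * (mul_nonneg hH1 hp0)
    + (119681083/222526908) * (mul_nonneg hz0 hH1)
    + (95702293/445053816) * (mul_nonneg hH1 hbs)
    + (11497885/18543909) * (mul_nonneg (mul_nonneg hz1 hak) hbs)
    + (5929342/55631727) * (mul_nonneg hbud hqs)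
    + (59357939/111263454) * (mul_nonneg hz0 hu0)
    + (435370/55631727) * (mul_nonneg (mul_nonneg hf1 hbs) he0)
    + (14104903/74175636) * (hbud)
    + (5310193/74175636) * (mul_nonneg hb0 hu0)
    + (15419/6181303) * (mul_nonneg hy0 hmd)
    + (1897895/111263454) * (mul_nonneg (mul_nonneg hpk he0) he0)
    + (117018127/890107632) * (hH1)
    + (109345895/222526908) * (mul_nonneg hf1 hy0)
    + (122798959/445053816) * (mul_nonneg hp0 hu0)
    + (11064845/445053816) * (mul_nonneg hp0 hmd)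
    + (105833083/445053816) * (mul_nonneg hH1 hpk)
    + (1664519/37087818) * (mul_nonneg hpk hbs)
    + (61814177/222526908) * (mul_nonneg hpk hu0)
    + (28585375/222526908) * (mul_nonneg hH0 hak)
    + (6665069/49450424) * (mul_nonneg hpk hak)
    + (51963401/111263454) * (mul_nonneg hz0 he0)
    + (27381911/445053816) * (mul_nonneg hak hu0)
    + (46630523/1112634540) * (mul_nonneg hz0 hq0)
    + (42973331/222526908) * (mul_nonneg hy0 hu0)
    + (29140973/55631727) * (mul_nonneg (mul_nonneg hz1 hq0) ha0)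
    + (2999425/111263454) * (mul_nonneg (mul_nonneg hak hbs) hmy)
    + (5617162/55631727) * (mul_nonneg (mul_nonneg ha0 hy0) hmd)
    + (32198845/55631727) * (mul_nonneg (mul_nonneg hz1 hpk) hak)
    + (3779447/111263454) * (mul_nonneg hak he0)
    + (33396182/55631727) * (mul_nonneg (mul_nonneg hz0 hb0) hmd)
    + (277181/18543909) * (mul_nonneg (mul_nonneg hz1 hpk) hq0)
    + (76263064/55631727) * (mul_nonneg (mul_nonneg hz0 hz1) hq0)
    + (15866141/111263454) * (mul_nonneg (mul_nonneg hz0 hH0) hq0)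
    + (44967869/111263454) * (mul_nonneg (mul_nonneg hz1 hak) hb0)
    + (54880483/55631727) * (mul_nonneg hbud hz1)
    + (4689478/18543909) * (mul_nonneg (mul_nonneg hz1 hpk) hu0)
    + (138130/55631727) * (mul_nonneg (mul_nonneg hz1 hf1) hy0)
    + (43304995/1335161448) * (mul_nonneg hp0 hpk)
    + (16497181/55631727) * (mul_nonneg (mul_nonneg hz0 hz1) hu0)
    + (16675007/55631727) * (mul_nonneg (mul_nonneg hz0 hqs) he0)
    + (16187363/18543909) * (mul_nonneg (mul_nonneg hz1 hqs) hy0)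
    + (141967775/445053816) * (mul_nonneg hH1 he0)
    + (2687662/18543909) * (mul_nonneg (mul_nonneg hz1 hq0) hb0)
    + (25361762/55631727) * (mul_nonneg (mul_nonneg hz0 hq0) hqs)
    + (145826593/111263454) * (mul_nonneg (mul_nonneg hz0 hH1) hqs)
    + (117375431/111263454) * (mul_nonneg (mul_nonneg hz0 hH0) hp0)
    + (957989/222526908) * (mul_nonneg hH1 hb0)
    + (24689969/222526908) * (mul_nonneg hak hb0)
    + (8260853/111263454) * (mul_nonneg (mul_nonneg hH0 hq0) ha0)
    + (81984233/111263454) * (mul_nonneg (mul_nonneg hz1 hH1) ha0)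
    + (12500888/55631727) * (mul_nonneg (mul_nonneg hz0 hH1) hb0)
    + (31616101/37087818) * (mul_nonneg (mul_nonneg hz1 hp0) hpk)
    + (8526715/55631727) * (mul_nonneg (mul_nonneg hq0 ha0) hb0)
    + (3606467/37087818) * (mul_nonneg (mul_nonneg hH1 ha0) ha0)
    + (4143155/37087818) * (mul_nonneg (mul_nonneg ha0 hu0) he0)
    + (12007304/18543909) * (mul_nonneg (mul_nonneg hz1 hH0) hak)
    + (664963/55631727) * (mul_nonneg (mul_nonneg hH0 hak) hmd)
    + (169614883/1335161448) * (mul_nonneg hp0 hq0)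
    + (75875534/55631727) * (mul_nonneg (mul_nonneg hz1 hpk) hbs)
    + (5028835/37087818) * (mul_nonneg (mul_nonneg hf1 hH0) hb0)
    + (1524515/18543909) * (mul_nonneg hbud hb0)
    + (6378455/111263454) * (mul_nonneg (mul_nonneg hH0 ha0) hak)
    + (6164999/111263454) * (mul_nonneg (mul_nonneg hH0 hH1) hb0)
    + (2005820/55631727) * (mul_nonneg (mul_nonneg hH0 hpk) hu0)
    + (3243190/55631727) * (mul_nonneg (mul_nonneg hH0 hy0) hu0)
    + (9090049/111263454) * (mul_nonneg (mul_nonneg hH1 hqs) ha0)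
    + (3823067/55631727) * (mul_nonneg (mul_nonneg hH1 ha0) hmy)
    + (45764587/111263454) * (mul_nonneg (mul_nonneg hz0 hz1) he0)
    + (7459339/12362606) * (mul_nonneg (mul_nonneg hz0 hp0) hb0)
    + (248920/6181303) * (mul_nonneg (mul_nonneg hf1 hH0) hp0)
    + (10859015/111263454) * (mul_nonneg (mul_nonneg hf1 hH0) he0)
    + (664963/55631727) * (mul_nonneg (mul_nonneg hH0 hp0) hpk)
    + (543295/111263454) * (mul_nonneg (mul_nonneg hH0 hak) hmy)
    + (5366240/55631727) * (mul_nonneg (mul_nonneg hf1 hH0) hy0)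
    + (9517949/55631727) * (mul_nonneg (mul_nonneg hH0 hqs) hy0)
    + (87091/12362606) * (mul_nonneg (mul_nonneg hH0 hp0) hu0)
    + (1232932/55631727) * (mul_nonneg (mul_nonneg hp0 hqs) hy0)
    + (4509863/18543909) * (mul_nonneg (mul_nonneg hpk hbs) hmy)
    + (29385065/55631727) * (mul_nonneg (mul_nonneg hz0 hf1) hu0)
    + (7479985/111263454) * (mul_nonneg (mul_nonneg hf1 hbs) hy0)
    + (186690/6181303) * (mul_nonneg (mul_nonneg hf0 hy0) hu0)
    + (13970035/111263454) * (mul_nonneg (mul_nonneg hf0 hb0) hu0)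
    + (34293719/37087818) * (mul_nonneg (mul_nonneg hz0 hz1) hH1)
    + (1355797/55631727) * (mul_nonneg (mul_nonneg hp0 hq0) hmy)
    + (1897895/111263454) * (mul_nonneg (mul_nonneg hp0 hqs) hbs)
    + (7023611/111263454) * (mul_nonneg (mul_nonneg hp0 hqs) he0)
    + (9158011/111263454) * (mul_nonneg (mul_nonneg hz1 hp0) hq0)
    + (1022859815/1335161448) * (mul_nonneg hf1 hp0)
    + (2312230/18543909) * (mul_nonneg (mul_nonneg hH0 hpk) hmd)
    + (248920/6181303) * (mul_nonneg (mul_nonneg hf1 hH0) hpk)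
    + (194351/6181303) * (mul_nonneg (mul_nonneg hf1 hH0) hq0)
    + (342385/111263454) * (mul_nonneg (mul_nonneg hH0 hpk) hak)
    + (1151135/37087818) * (mul_nonneg (mul_nonneg hf1 hpk) hbs)
    + (1468589/55631727) * (mul_nonneg (mul_nonneg hp0 hqs) hb0)
    + (1141237/111263454) * (mul_nonneg (mul_nonneg hf1 hq0) ha0)
    + (8424076/18543909) * (mul_nonneg (mul_nonneg hz0 hz1) hp0)
    + (4067023/37087818) * (mul_nonneg (mul_nonneg hz0 hmy) he0)
    + (4261040/55631727) * (mul_nonneg (mul_nonneg hf1 hp0) hb0)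
    + (5775595/37087818) * (mul_nonneg (mul_nonneg hH1 hp0) hb0)
    + (1903673/37087818) * (mul_nonneg (mul_nonneg hp0 hbs) hmy)
    + (994153/6181303) * (mul_nonneg (mul_nonneg hpk hb0) hu0)
    + (3177169/55631727) * (mul_nonneg (mul_nonneg hb0 hy0) he0)
    + (2184122/6181303) * (mul_nonneg (mul_nonneg hz0 hb0) he0)
    + (9169501/333790362) * (mul_nonneg hp0 hp0)
    + (1897895/55631727) * (mul_nonneg (mul_nonneg hqs hak) hbs)
    + (35012/6181303) * (mul_nonneg (mul_nonneg ha0 hak) hy0)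
    + (70024/6181303) * (mul_nonneg (mul_nonneg hz0 ha0) he0)
    + (3779447/111263454) * (mul_nonneg he0 he0)
    + (1897895/111263454) * (mul_nonneg (mul_nonneg ha0 hak) hbs)
    + (7478788/55631727) * (mul_nonneg hbud ha0)
    + (4650076/18543909) * (mul_nonneg (mul_nonneg hp0 ha0) hb0)
    + (533682/6181303) * (mul_nonneg (mul_nonneg hH1 hp0) ha0)
    + (263196/6181303) * (mul_nonneg hp0 ha0)
    + (15202850/55631727) * (mul_nonneg (mul_nonneg hz1 hp0) ha0)
    + (1897895/111263454) * (mul_nonneg (mul_nonneg hpk hpk) hbs)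
    + (3693643/18543909) * (mul_nonneg (mul_nonneg hqs hu0) hu0)
    + (11089069/74175636) * (mul_nonneg hH1 hy0)
    + (442840/55631727) * (mul_nonneg (mul_nonneg hH0 hH1) hy0)
    + (777755/111263454) * (mul_nonneg (mul_nonneg hH1 hpk) hpk)
    + (2915489/18543909) * (mul_nonneg (mul_nonneg ha0 hu0) hu0)
    + (1897895/111263454) * (mul_nonneg (mul_nonneg hp0 hq0) ha0)
    + (3366484/55631727) * (mul_nonneg (mul_nonneg hp0 hqs) ha0)
    + (4058341/111263454) * (mul_nonneg hq0 hq0)
    + (8351491/55631727) * (mul_nonneg (mul_nonneg hz0 hq0) hq0)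
    + (41245541/37087818) * (mul_nonneg (mul_nonneg hz0 hf0) hq0)
    + (90411/6181303) * (mul_nonneg (mul_nonneg hf1 hq0) he0)
    + (1897895/55631727) * (mul_nonneg (mul_nonneg hq0 hq0) ha0)
    + (2675650/55631727) * (mul_nonneg (mul_nonneg hq0 hqs) ha0)
    + (4067716/55631727) * (mul_nonneg (mul_nonneg hq0 ha0) he0)
    + (9621773/111263454) * (mul_nonneg (mul_nonneg hH0 hb0) hu0)
    + (17996474/55631727) * (mul_nonneg (mul_nonneg hz0 hz0) hmd)
    + (151538929/222526908) * (mul_nonneg hH1 hq0)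
    + (497840/6181303) * (mul_nonneg (mul_nonneg hH0 hH1) he0)
    + (342385/111263454) * (mul_nonneg (mul_nonneg hH0 hH0) hak)
    + (311150/6181303) * (mul_nonneg (mul_nonneg hf1 hH0) hH1)
    + (16855471/111263454) * (mul_nonneg (mul_nonneg hp0 ha0) ha0)
    + (4138175/111263454) * (mul_nonneg (mul_nonneg hH0 he0) he0)
    + (4138175/111263454) * (mul_nonneg (mul_nonneg hf0 he0) he0)
    + (2675650/55631727) * (mul_nonneg (mul_nonneg hf0 hp0) ha0)
    + (6271727/55631727) * (mul_nonneg (mul_nonneg hH0 hpk) hq0)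
    + (1897895/55631727) * (mul_nonneg (mul_nonneg hf0 hpk) hmd)
    + (777755/111263454) * (mul_nonneg (mul_nonneg hH1 hq0) hq0)
    + (777755/111263454) * (mul_nonneg (mul_nonneg hH1 hqs) hqs)
    + (1562980/55631727) * (mul_nonneg (mul_nonneg hH0 hq0) hu0)
    + (2107681/111263454) * (mul_nonneg (mul_nonneg hH0 hp0) hp0)
    + (9263891/111263454) * (mul_nonneg (mul_nonneg hp0 ha0) hmy)
    + (777755/55631727) * (mul_nonneg (mul_nonneg hf0 hq0) hqs)
    + (777755/55631727) * (mul_nonneg (mul_nonneg hq0 hqs) hb0)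
    + (2520182/6181303) * (mul_nonneg (mul_nonneg hz1 hH1) hp0)
    + (342385/111263454) * (mul_nonneg (mul_nonneg hf0 hpk) hu0)
    + (869693/6181303) * (mul_nonneg (mul_nonneg hH1 hp0) hqs)
    + (1355797/55631727) * (mul_nonneg (mul_nonneg hq0 hb0) he0)
    + (1897895/55631727) * (mul_nonneg (mul_nonneg hpk hqs) hbs)
    + (5151587/55631727) * (mul_nonneg (mul_nonneg hq0 hqs) he0)
    + (3217748/55631727) * (mul_nonneg (mul_nonneg hq0 hb0) hb0)
    + (1084196/55631727) * (mul_nonneg (mul_nonneg hf0 hq0) hu0)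
    + (3227821/111263454) * (mul_nonneg (mul_nonneg hH0 hH0) hp0)
    + (2711594/55631727) * (mul_nonneg (mul_nonneg hH1 hq0) hb0)
    + (379008/6181303) * (mul_nonneg (mul_nonneg hq0 ha0) ha0)
    + (305797/6181303) * (mul_nonneg (mul_nonneg hb0 hmy) hu0)
    + (5008915/111263454) * (mul_nonneg (mul_nonneg hH1 hb0) hbs)
    + (2461582/18543909) * (mul_nonneg (mul_nonneg hz1 hb0) hbs)
    + (1524515/18543909) * (mul_nonneg (mul_nonneg hp0 hb0) hb0)
    + (1897895/111263454) * (mul_nonneg (mul_nonneg hpk hb0) hbs)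
    + (7750714/55631727) * (mul_nonneg (mul_nonneg hb0 hb0) hu0)
    + (31616101/37087818) * (mul_nonneg (mul_nonneg hz1 hp0) hp0)
    + (1897895/111263454) * (mul_nonneg (mul_nonneg hp0 hpk) hmd)
    + (1897895/111263454) * (mul_nonneg (mul_nonneg hp0 hp0) hqs)
    + (1897895/111263454) * (mul_nonneg (mul_nonneg ha0 hak) hb0)
    + (3693643/18543909) * (mul_nonneg (mul_nonneg hpk hq0) hmy)
    + (3693643/18543909) * (mul_nonneg (mul_nonneg hqs hqs) hy0)
    + (311150/6181303) * (mul_nonneg (mul_nonneg hH0 hH1) hH1)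
    + (777755/111263454) * (mul_nonneg (mul_nonneg hf1 hp0) hp0)
    + (1897895/111263454) * (mul_nonneg (mul_nonneg hp0 hpk) hak)
    + (1897895/111263454) * (mul_nonneg (mul_nonneg hpk hpk) hak)

theorem c1_up_2 (z f H k s p q a b : ℝ)
    (hz0 : 0 ≤ z-0)
    (hz1 : 0 ≤ (1/4)-z)
    (hf0 : 0 ≤ f-0)
    (hf1 : 0 ≤ (1/10)-f)
    (hH0 : 0 ≤ H)
    (hH1 : 0 ≤ f-H)
    (hp0 : 0 ≤ p)
    (hpk : 0 ≤ k-p)
    (hq0 : 0 ≤ q)
    (hqs : 0 ≤ s-q)
    (ha0 : 0 ≤ a)
    (hak : 0 ≤ (1/2+z-f)-k-a)
    (hb0 : 0 ≤ b)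
    (hbs : 0 ≤ (1/2-z)-s-b)
    (hy0 : 0 ≤ 1/2+z-H-k-s)
    (hmd : 0 ≤ 1/4-z-q-b)
    (hmy : 0 ≤ 1/4+z-(1/2+z-H-k-s))
    (hu0 : 0 ≤ 2*z-(1/2+z-H-k-s))
    (he0 : 0 ≤ (k+s)-(a+b))
    (hbud : 0 ≤ (z-2*z*f)-(H+(2*z-(1/2+z-H-k-s)))*(q+b)-(2*z-(1/2+z-H-k-s)+f-H)*(p+a)-(a+b)*(p+q)) :
    0 ≤ (k+s+(a+b))*((1/2-z)*(1*(k+H)+1*(1/2+z-H-k-s))+0*(k*(p+2*a))+0*(f*(1-f)-z*(1-2*f))+z*z)-(1/2-z)*(2*k*(a+b)+2*H*((a+b)+p+q)) := by
  linear_combination (1456201/22207188) * (mul_nonneg (mul_nonneg hf0 hb0) hb0)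
    + (12576499/44414376) * (mul_nonneg (mul_nonneg hz0 hb0) hb0)
    + (1358489/22207188) * (mul_nonneg (mul_nonneg hak hb0) hb0)
    + (671695/5551797) * (mul_nonneg (mul_nonneg hb0 hb0) hbs)
    + (5575555/44414376) * (mul_nonneg (mul_nonneg hb0 hb0) he0)
    + (74595739/1665539100) * (mul_nonneg (mul_nonneg hz0 hf0) hb0)
    + (1624504853/3331078200) * (mul_nonneg (mul_nonneg hz0 ha0) hb0)
    + (78870497/370119800) * (mul_nonneg (mul_nonneg hz0 hpk) hb0)
    + (5497361/44414376) * (mul_nonneg (mul_nonneg hz0 hH0) hb0)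
    + (54376859/416384775) * (mul_nonneg (mul_nonneg hz1 hak) hb0)
    + (55695247/1665539100) * (mul_nonneg (mul_nonneg hz0 hb0) hmy)
    + (952793/5551797) * (mul_nonneg (mul_nonneg hak hb0) hmd)
    + (10490399/29609584) * (mul_nonneg hb0 hy0)
    + (168377357/3331078200) * (mul_nonneg hak hb0)
    + (16299115/177657504) * (mul_nonneg hb0 he0)
    + (21843791/44414376) * (mul_nonneg (mul_nonneg hq0 ha0) hb0)
    + (50768981/555179700) * (mul_nonneg (mul_nonneg hz0 hq0) hb0)
    + (5730905/44414376) * (mul_nonneg (mul_nonneg hb0 hmd) he0)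
    + (22255415/14804792) * (mul_nonneg (mul_nonneg hf1 hq0) hb0)
    + (134231348/416384775) * (mul_nonneg (mul_nonneg hz0 hb0) hu0)
    + (3256097/22207188) * (mul_nonneg (mul_nonneg hb0 hbs) hmd)
    + (108848443/370119800) * (mul_nonneg (mul_nonneg hq0 hb0) hu0)
    + (104439269/6662156400) * (mul_nonneg (mul_nonneg hz0 hp0) hmd)
    + (59839/1850599) * (mul_nonneg hbud hpk)
    + (878501963/3331078200) * (mul_nonneg (mul_nonneg hz0 hz1) hp0)
    + (9048403/29609584) * (mul_nonneg (mul_nonneg hz1 hp0) hu0)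
    + (2479065673/19986469200) * (mul_nonneg (mul_nonneg hz1 hp0) ha0)
    + (14333267/1776575040) * (mul_nonneg hp0 hb0)
    + (381377413/1776575040) * (mul_nonneg hp0 hu0)
    + (19980965/44414376) * (mul_nonneg hf1 hp0)
    + (52316035/29609584) * (mul_nonneg (mul_nonneg hz1 hf1) hp0)
    + (37204721/166553910) * (mul_nonneg (mul_nonneg hz1 hpk) he0)
    + (8730301/532972512) * (mul_nonneg (mul_nonneg hz0 hf1) hpk)
    + (209958917/888287520) * (mul_nonneg (mul_nonneg hz1 hf0) hpk)
    + (147883921/10659450240) * (mul_nonneg hpk hak)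
    + (1223452/27758985) * (mul_nonneg hp0 hpk)
    + (1458280207/10659450240) * (mul_nonneg hpk he0)
    + (391054/83276955) * (mul_nonneg (mul_nonneg hz0 hpk) ha0)
    + (1757237/22207188) * (mul_nonneg (mul_nonneg hz1 hp0) hpk)
    + (28895261/166553910) * (mul_nonneg (mul_nonneg hz1 hpk) hak)
    + (3621984599/19986469200) * (mul_nonneg (mul_nonneg hp0 hq0) hak)
    + (60101861/44414376) * (mul_nonneg (mul_nonneg hH1 hq0) hb0)
    + (91328731/1776575040) * (mul_nonneg hH1 hb0)
    + (169589/7402396) * (mul_nonneg hp0 he0)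
    + (769319749/10659450240) * (mul_nonneg hpk hbs)
    + (125980517/666215640) * (mul_nonneg (mul_nonneg hz1 hpk) hbs)
    + (250637171/222071880) * (mul_nonneg (mul_nonneg hz0 hH0) hq0)
    + (42137/3701198) * (mul_nonneg (mul_nonneg hpk hak) hbs)
    + (77675/11103594) * (mul_nonneg (mul_nonneg hqs hu0) hu0)
    + (556005211/8882875200) * (mul_nonneg hq0 hy0)
    + (259178501/1776575040) * (mul_nonneg hy0 hu0)
    + (990647/2906700) * (mul_nonneg (mul_nonneg hq0 hbs) hu0)
    + (3058080607/8882875200) * (mul_nonneg hz0 hu0)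
    + (677305/14804792) * (mul_nonneg hqs hy0)
    + (65898333/148047920) * (mul_nonneg (mul_nonneg hz1 hqs) hy0)
    + (11891551/1110359400) * (mul_nonneg (mul_nonneg hz0 hmd) hu0)
    + (59742717/74023960) * (mul_nonneg (mul_nonneg hz0 hz1) hH1)
    + (81347831/1776575040) * (mul_nonneg hH1 hbs)
    + (341113/74023960) * (mul_nonneg (mul_nonneg hz0 hz0) hf1)
    + (997942201/9993234600) * (mul_nonneg (mul_nonneg hp0 ha0) hb0)
    + (3206273/29609584) * (mul_nonneg (mul_nonneg hz1 hp0) he0)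
    + (3271235/5551797) * (mul_nonneg hbud hz1)
    + (11115815/22207188) * (mul_nonneg (mul_nonneg hb0 hbs) he0)
    + (2826107/22207188) * (mul_nonneg (mul_nonneg hak hb0) hbs)
    + (935285/3701198) * (mul_nonneg (mul_nonneg hf0 hH0) hb0)
    + (4709473/22207188) * (mul_nonneg (mul_nonneg hak hbs) hmd)
    + (218224/5551797) * (mul_nonneg hbs he0)
    + (14220791/44414376) * (mul_nonneg ha0 hy0)
    + (2282851/22207188) * (hbud)
    + (6669865/5551797) * (mul_nonneg (mul_nonneg hf1 hq0) ha0)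
    + (1861816/5551797) * (mul_nonneg (mul_nonneg hz1 ha0) hy0)
    + (365727301/19986469200) * (mul_nonneg (mul_nonneg hp0 hq0) hmd)
    + (3907479301/19986469200) * (mul_nonneg (mul_nonneg hz1 hp0) hq0)
    + (1852125/3701198) * (mul_nonneg (mul_nonneg hz0 ha0) hu0)
    + (1016092/5551797) * (mul_nonneg (mul_nonneg hf0 hb0) hu0)
    + (702059/11103594) * (mul_nonneg (mul_nonneg ha0 hy0) hmd)
    + (1274215/22207188) * (mul_nonneg (mul_nonneg hz0 hf0) hq0)
    + (8112935/5551797) * (mul_nonneg (mul_nonneg hf1 hq0) hbs)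
    + (11762807/22207188) * (mul_nonneg (mul_nonneg hbs hmd) he0)
    + (569048603/1110359400) * (mul_nonneg (mul_nonneg hz0 hz0) hmd)
    + (396609287/1110359400) * (mul_nonneg (mul_nonneg hz0 hq0) hbs)
    + (16360113/74023960) * (mul_nonneg (mul_nonneg hz0 hpk) hqs)
    + (9167807/148047920) * (mul_nonneg (mul_nonneg hz0 hqs) hu0)
    + (629357/5551797) * (mul_nonneg (mul_nonneg hf0 hb0) he0)
    + (316255/22207188) * (mul_nonneg (mul_nonneg hz0 hH1) hqs)
    + (1629915901/9993234600) * (mul_nonneg (mul_nonneg hp0 ha0) hmd)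
    + (49232033/177657504) * (mul_nonneg hH1 hy0)
    + (1443070/5551797) * (mul_nonneg (mul_nonneg hq0 hqs) ha0)
    + (4084955/11103594) * (mul_nonneg (mul_nonneg hq0 ha0) hu0)
    + (2497211/104641200) * (mul_nonneg (mul_nonneg hp0 hq0) hqs)
    + (141824/1850599) * (mul_nonneg (mul_nonneg hpk hb0) he0)
    + (7216188599/19986469200) * (mul_nonneg (mul_nonneg hf0 hp0) hq0)
    + (640661/11103594) * (mul_nonneg (mul_nonneg hp0 hpk) hb0)
    + (259153/11103594) * (mul_nonneg (mul_nonneg hpk hak) hb0)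
    + (3433077/14804792) * (mul_nonneg (mul_nonneg hq0 hb0) hb0)
    + (631639/11103594) * (mul_nonneg (mul_nonneg hz0 hpk) hpk)
    + (1835835/3701198) * (mul_nonneg (mul_nonneg hH0 hak) hmd)
    + (189817/3701198) * (mul_nonneg (mul_nonneg hp0 hb0) hmd)
    + (1417330/5551797) * (mul_nonneg hbud hf0)
    + (925681/3701198) * (mul_nonneg hH1 ha0)
    + (81985/3701198) * (mul_nonneg (mul_nonneg hf0 hbs) he0)
    + (43183313/138794925) * (mul_nonneg (mul_nonneg hz1 hz1) hy0)
    + (113755/1850599) * (mul_nonneg (mul_nonneg hH1 ha0) hbs)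
    + (11170/5551797) * (mul_nonneg (mul_nonneg hf0 hp0) hb0)
    + (2602037/11103594) * (mul_nonneg (mul_nonneg hf1 hp0) hbs)
    + (420574103/592191680) * (mul_nonneg hH1 hp0)
    + (221654/5551797) * (mul_nonneg (mul_nonneg hf1 hH0) hp0)
    + (119678/1850599) * (mul_nonneg (mul_nonneg hf0 hp0) hu0)
    + (2398085/11103594) * (mul_nonneg (mul_nonneg hf1 hp0) hak)
    + (42137/11103594) * (mul_nonneg (mul_nonneg hf1 hH0) hpk)
    + (3271235/11103594) * (mul_nonneg (mul_nonneg hf1 ha0) hy0)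
    + (257801/3701198) * (mul_nonneg (mul_nonneg hp0 hqs) hb0)
    + (10870703/22207188) * (mul_nonneg (mul_nonneg hf0 hpk) hq0)
    + (161815/11103594) * (mul_nonneg (mul_nonneg hf0 hpk) hqs)
    + (281627/11103594) * (mul_nonneg (mul_nonneg hpk hbs) he0)
    + (3761799599/19986469200) * (mul_nonneg (mul_nonneg hp0 hq0) he0)
    + (5117377/22207188) * (mul_nonneg (mul_nonneg hpk hq0) hak)
    + (1695289/11103594) * (mul_nonneg (mul_nonneg hH1 ha0) hb0)
    + (1504803/3701198) * (mul_nonneg (mul_nonneg hH0 hak) hb0)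
    + (572543/3701198) * (mul_nonneg (mul_nonneg hz0 hf1) hy0)
    + (7193679/7402396) * (mul_nonneg (mul_nonneg hH1 hq0) hbs)
    + (59839/5551797) * (mul_nonneg (mul_nonneg hz0 hH0) hu0)
    + (1863837/3701198) * (mul_nonneg (mul_nonneg hH0 hmd) he0)
    + (93831/1850599) * (mul_nonneg (mul_nonneg hp0 hqs) hbs)
    + (161815/3701198) * (mul_nonneg (mul_nonneg hqs hak) hbs)
    + (563053/5551797) * (mul_nonneg (mul_nonneg hqs ha0) hy0)
    + (67/5551797) * (mul_nonneg (mul_nonneg hp0 hbs) he0)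
    + (25847/3701198) * (mul_nonneg (mul_nonneg hpk hpk) hak)
    + (414637/74023960) * (mul_nonneg hp0 hp0)
    + (3738583/22207188) * (mul_nonneg (mul_nonneg hz1 hp0) hp0)
    + (5990795/22207188) * (mul_nonneg (mul_nonneg hpk hq0) he0)
    + (93831/3701198) * (mul_nonneg (mul_nonneg hpk hqs) hbs)
    + (145525/3701198) * (mul_nonneg (mul_nonneg hf0 hH1) hp0)
    + (8087195/5551797) * (mul_nonneg (mul_nonneg hH1 hq0) ha0)
    + (161815/11103594) * (mul_nonneg (mul_nonneg hf0 hH0) he0)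
    + (39915/1850599) * (mul_nonneg (mul_nonneg hf0 hqs) hy0)
    + (479478701/1776575040) * (mul_nonneg hf1 hy0)
    + (77713943/592191680) * (mul_nonneg hH0 hH1)
    + (341198/5551797) * (mul_nonneg (mul_nonneg hH0 hb0) hb0)
    + (421347301/9993234600) * (mul_nonneg (mul_nonneg hp0 hq0) hq0)
    + (274760/5551797) * (mul_nonneg (mul_nonneg hH0 hp0) ha0)
    + (299195/5551797) * (mul_nonneg (mul_nonneg hH1 hp0) hq0)
    + (418873/5551797) * (mul_nonneg hbud hH0)
    + (59839/5551797) * (mul_nonneg (mul_nonneg hH1 hpk) hqs)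
    + (6429257/11103594) * (mul_nonneg (mul_nonneg hH0 hb0) he0)
    + (640661/11103594) * (mul_nonneg (mul_nonneg hp0 hp0) hb0)
    + (93831/3701198) * (mul_nonneg (mul_nonneg hp0 hp0) hak)
    + (59839/1850599) * (mul_nonneg (mul_nonneg hp0 hp0) hbs)
    + (93831/1850599) * (mul_nonneg (mul_nonneg ha0 hu0) hu0)
    + (8145/1850599) * (mul_nonneg (mul_nonneg hpk ha0) hy0)
    + (53916/1850599) * (mul_nonneg (mul_nonneg hqs hb0) hbs)
    + (205760137/88828752) * (mul_nonneg (mul_nonneg hz1 hH1) hp0)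
    + (52428299/277589850) * (mul_nonneg (mul_nonneg hq0 hqs) hy0)
    + (2834660/5551797) * (mul_nonneg (mul_nonneg hz0 hf0) hH1)
    + (418873/5551797) * (mul_nonneg (mul_nonneg hH0 hH1) hp0)
    + (1443070/5551797) * (mul_nonneg (mul_nonneg hq0 hq0) ha0)
    + (837746/5551797) * (mul_nonneg (mul_nonneg hH0 hq0) hu0)
    + (77675/11103594) * (mul_nonneg (mul_nonneg hH0 hH1) hqs)
    + (59839/5551797) * (mul_nonneg (mul_nonneg hz0 hH0) hH1)
    + (59839/5551797) * (mul_nonneg (mul_nonneg hH0 hpk) hak)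
    + (418873/5551797) * (mul_nonneg (mul_nonneg hH0 hp0) hu0)
    + (59839/5551797) * (mul_nonneg (mul_nonneg hH0 hpk) he0)
    + (77675/5551797) * (mul_nonneg (mul_nonneg hH0 hbs) he0)
    + (93831/1850599) * (mul_nonneg (mul_nonneg hH0 hH1) ha0)
    + (52428299/277589850) * (mul_nonneg (mul_nonneg hq0 hq0) hy0)
    + (837746/5551797) * (mul_nonneg (mul_nonneg hH0 hH0) hb0)
    + (25847/3701198) * (mul_nonneg (mul_nonneg hf0 hpk) he0)
    + (93831/3701198) * (mul_nonneg (mul_nonneg hp0 hp0) he0)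
    + (59839/1850599) * (mul_nonneg (mul_nonneg hp0 hpk) he0)
    + (25847/3701198) * (mul_nonneg (mul_nonneg hpk hpk) he0)
    + (1417330/5551797) * (mul_nonneg (mul_nonneg hf0 hH1) ha0)
    + (77675/11103594) * (mul_nonneg (mul_nonneg hqs hbs) he0)

theorem c1_um_1 (z f H k s p q a b : ℝ)
    (hz0 : 0 ≤ z-0)
    (hz1 : 0 ≤ (1/4)-z)
    (hf0 : 0 ≤ f-0)
    (hf1 : 0 ≤ (1/10)-f)
    (hH0 : 0 ≤ H)
    (hH1 : 0 ≤ f-H)
    (hp0 : 0 ≤ p)
    (hpk : 0 ≤ k-p)
    (hq0 : 0 ≤ q)
    (hqs : 0 ≤ s-q)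
    (ha0 : 0 ≤ a)
    (hak : 0 ≤ (1/2+z-f)-k-a)
    (hb0 : 0 ≤ b)
    (hbs : 0 ≤ (1/2-z)-s-b)
    (hy0 : 0 ≤ 1/2+z-H-k-s)
    (hmd : 0 ≤ 1/4-z-q-b)
    (hmy : 0 ≤ 1/4+z-(1/2+z-H-k-s))
    (hu1 : 0 ≤ -(2*z-(1/2+z-H-k-s)))
    (he0 : 0 ≤ (a+b)-(k+s))
    (hbud000 : 0 ≤ (z-2*z*f)-H*(q+b))
    (hbud001 : 0 ≤ (z-2*z*f)-H*(q+b)-q*((2*z-(1/2+z-H-k-s))+(a+b)))
    (hbud010 : 0 ≤ (z-2*z*f)-H*(q+b)-a*(2*z-(1/2+z-H-k-s)+f-H))
    (hbud100 : 0 ≤ (z-2*z*f)-H*(q+b)-p*((2*z-(1/2+z-H-k-s)+f-H)+(a+b)))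
    (hbud101 : 0 ≤ (z-2*z*f)-H*(q+b)-p*((2*z-(1/2+z-H-k-s)+f-H)+(a+b))-q*((2*z-(1/2+z-H-k-s))+(a+b)))
    (hbud110 : 0 ≤ (z-2*z*f)-H*(q+b)-p*((2*z-(1/2+z-H-k-s)+f-H)+(a+b))-a*(2*z-(1/2+z-H-k-s)+f-H))
    (hbud111 : 0 ≤ (z-2*z*f)-H*(q+b)-p*((2*z-(1/2+z-H-k-s)+f-H)+(a+b))-a*(2*z-(1/2+z-H-k-s)+f-H)-q*((2*z-(1/2+z-H-k-s))+(a+b))) :
    0 ≤ (k+s+(a+b))*((1/2-z)*(1*(k+H)+1*(1/2+z-H-k-s))+0*(k*(p+2*a))+0*(f*(1-f)-z*(1-2*f))+z*z)-(1/2-z)*(2*k*(a+b)+2*H*((a+b)+p+q)) := by
  linear_combination (16852424889325/160484132345878) * (mul_nonneg hak he0)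
    + (719576297407811/4730058637562720) * (mul_nonneg hq0 hu1)
    + (9501845571966491/89871114113691680) * (mul_nonneg hq0 hy0)
    + (45958147393086549/44935557056845840) * (mul_nonneg hH1 hq0)
    + (34202421382389/1021262660382860) * (mul_nonneg hbud111 hz1)
    + (14327700070475439/11233889264211460) * (mul_nonneg (mul_nonneg hz0 hH0) hq0)
    + (684074167599043/802420661729390) * (mul_nonneg (mul_nonneg hz0 hq0) hmy)
    + (7678429258862/80242066172939) * (mul_nonneg (mul_nonneg hz0 hp0) hb0)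
    + (1665691780667297/5616944632105730) * (mul_nonneg (mul_nonneg hz0 hp0) hqs)
    + (2381124932949/80242066172939) * (mul_nonneg (mul_nonneg hqs hak) he0)
    + (5712620220861/561694463210573) * (mul_nonneg (mul_nonneg hz1 hp0) hpk)
    + (219610860149552/561694463210573) * (mul_nonneg (mul_nonneg hak hbs) hmy)
    + (690001028311424/561694463210573) * (mul_nonneg hH1 hp0)
    + (3938507406746543/4493555705684584) * (mul_nonneg hf1 hp0)
    + (71755161595219/1123388926421146) * (mul_nonneg (mul_nonneg hz1 hak) he0)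
    + (2708382970889709/22467778528422920) * (mul_nonneg hp0 hak)
    + (91535532719791/5616944632105730) * (mul_nonneg hp0 hmd)
    + (101461375266431/2808472316052865) * (mul_nonneg (mul_nonneg hz1 hp0) hmd)
    + (11439675502632/29562866484767) * (mul_nonneg (mul_nonneg hpk hbs) hmy)
    + (8207610259736187/22467778528422920) * (mul_nonneg hz0 hH1)
    + (1838136345877511/4493555705684584) * (mul_nonneg hf1 hu1)
    + (1465737058148582/8425416948158595) * (mul_nonneg (mul_nonneg hz1 hp0) hbs)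
    + (1589527680432921/22467778528422920) * (hbud101)
    + (143115043252105/1123388926421146) * (mul_nonneg (mul_nonneg hz0 hz1) hH1)
    + (323857967829808/561694463210573) * (mul_nonneg (mul_nonneg hz1 hH1) hp0)
    + (103452566525263/561694463210573) * (mul_nonneg (mul_nonneg hak hb0) hmy)
    + (16480324554726/561694463210573) * (mul_nonneg hbud101 hz1)
    + (26613996373485/1123388926421146) * (mul_nonneg hH1 ha0)
    + (4106628652967/29562866484767) * (mul_nonneg (mul_nonneg hp0 hak) hbs)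
    + (773438450257831/11233889264211460) * (mul_nonneg hbud110 hz1)
    + (79390066224649/1123388926421146) * (mul_nonneg (mul_nonneg hz1 hH0) hak)
    + (847846741966275/1123388926421146) * (mul_nonneg (mul_nonneg hz0 hH1) hqs)
    + (98219169700457/1685083389631719) * (mul_nonneg (mul_nonneg hb0 hbs) hmy)
    + (4016961028327/160484132345878) * (mul_nonneg hmd hu1)
    + (717729598123199/4493555705684584) * (mul_nonneg hH1 hbs)
    + (1055254950963531/2246777852842292) * (mul_nonneg hH1 he0)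
    + (22660471793471/80242066172939) * (mul_nonneg (mul_nonneg hz1 hH1) hb0)
    + (117740889939150/561694463210573) * (mul_nonneg (mul_nonneg hz0 hf1) hpk)
    + (181655230222212/561694463210573) * (mul_nonneg hbud000 hmy)
    + (71804129327765/102126266038286) * (mul_nonneg (mul_nonneg hz0 hf1) hbs)
    + (336407314331545/3370166779263438) * (mul_nonneg (mul_nonneg hf1 hb0) hbs)
    + (198246627800231/4493555705684584) * (mul_nonneg hu1 he0)
    + (235118711765172/561694463210573) * (mul_nonneg (mul_nonneg hz1 hpk) hbs)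
    + (87370647210417/561694463210573) * (mul_nonneg (mul_nonneg hz1 hqs) hu1)
    + (17198974106630/561694463210573) * (mul_nonneg (mul_nonneg hf1 hb0) he0)
    + (127053038916836/561694463210573) * (mul_nonneg hbud000 hqs)
    + (28847068611939/2246777852842292) * (mul_nonneg hpk hq0)
    + (135509019640154/561694463210573) * (mul_nonneg (mul_nonneg hz0 hp0) hq0)
    + (11569970670035/1123388926421146) * (mul_nonneg (mul_nonneg hz0 hf0) hq0)
    + (9994640411655/102126266038286) * (mul_nonneg (mul_nonneg hf0 hak) hmy)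
    + (3824647036415959/22467778528422920) * (mul_nonneg hpk hbs)
    + (115707733775163/1123388926421146) * (mul_nonneg (mul_nonneg hz0 hp0) he0)
    + (40688971711950/561694463210573) * (mul_nonneg (mul_nonneg hf1 hpk) hy0)
    + (129347204349155/2246777852842292) * (mul_nonneg ha0 hu1)
    + (9522952678671/51063133019143) * (mul_nonneg (mul_nonneg hz0 hpk) ha0)
    + (351851073088687/561694463210573) * (mul_nonneg (mul_nonneg hz0 ha0) hmy)
    + (392354625323907/1123388926421146) * (mul_nonneg (mul_nonneg hz1 ha0) hu1)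
    + (10212862210451/51063133019143) * (mul_nonneg hbud001 hb0)
    + (1532977945463439/11233889264211460) * (mul_nonneg (mul_nonneg hz1 hq0) he0)
    + (19325818267107/51063133019143) * (mul_nonneg (mul_nonneg hz1 hak) hb0)
    + (196499773727359/3370166779263438) * (mul_nonneg (mul_nonneg hp0 hbs) hmd)
    + (31425644378048/561694463210573) * (mul_nonneg (mul_nonneg hz0 hf1) hH0)
    + (177571092120981/11233889264211460) * (mul_nonneg hq0 hak)
    + (3822813945886253/22467778528422920) * (mul_nonneg hq0 he0)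
    + (40162774302641/481452397037634) * (mul_nonneg (mul_nonneg hq0 hb0) hbs)
    + (143920054312655/1123388926421146) * (mul_nonneg hbud000 hb0)
    + (18650505283364/240726198518817) * (mul_nonneg (mul_nonneg hp0 hq0) hbs)
    + (994334686067731/2246777852842292) * (mul_nonneg hH1 hpk)
    + (41913050182660/80242066172939) * (mul_nonneg (mul_nonneg hz0 hq0) hqs)
    + (93139997580547/561694463210573) * (mul_nonneg (mul_nonneg hz0 hz0) hb0)
    + (531121447965989/1123388926421146) * (mul_nonneg hqs hu1)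
    + (23110224609330/51063133019143) * (mul_nonneg (mul_nonneg hz0 hb0) hmy)
    + (2843942007849/59125732969534) * (mul_nonneg (mul_nonneg hb0 hmd) he0)
    + (563356073193185/3370166779263438) * (mul_nonneg (mul_nonneg hqs hb0) hbs)
    + (63086450336725/153189399057429) * (mul_nonneg (mul_nonneg hH1 hb0) hbs)
    + (3065501761994/80242066172939) * (mul_nonneg (mul_nonneg hq0 hb0) hy0)
    + (31630627229213/561694463210573) * (mul_nonneg (mul_nonneg hH0 hq0) hq0)
    + (302029827859769/561694463210573) * (mul_nonneg (mul_nonneg hH0 hq0) hqs)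
    + (321088950032813/1123388926421146) * (mul_nonneg (mul_nonneg hf1 hp0) hq0)
    + (21535766746579/1123388926421146) * (mul_nonneg (mul_nonneg hp0 hq0) hak)
    + (7906595023245/160484132345878) * (mul_nonneg (mul_nonneg hf1 hq0) ha0)
    + (8854008193267/80242066172939) * (mul_nonneg (mul_nonneg hH1 hb0) hb0)
    + (45427451036488/561694463210573) * (mul_nonneg (mul_nonneg hz0 ha0) hmd)
    + (214352804785685/1123388926421146) * (mul_nonneg (mul_nonneg hf1 hb0) hu1)
    + (411967318903625/561694463210573) * (mul_nonneg (mul_nonneg hz1 hf0) hak)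
    + (48616696747051/561694463210573) * (mul_nonneg (mul_nonneg hqs hak) hb0)
    + (50873722346595/1123388926421146) * (mul_nonneg (mul_nonneg hb0 he0) he0)
    + (28915937137179/160484132345878) * (mul_nonneg hbud100 hb0)
    + (80459689296493/561694463210573) * (mul_nonneg (mul_nonneg hH0 hmd) hu1)
    + (11150910510272/51063133019143) * (mul_nonneg (mul_nonneg hf0 hpk) hmd)
    + (743898611475/4223266640681) * (mul_nonneg (mul_nonneg hH0 hq0) hmy)
    + (244823496016723/1123388926421146) * (mul_nonneg (mul_nonneg hz0 hH0) he0)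
    + (107288682339331/561694463210573) * (mul_nonneg (mul_nonneg hz0 hz0) hH0)
    + (9549608251615/1123388926421146) * (mul_nonneg hH0 hak)
    + (7801606487526301/8987111411369168) * (mul_nonneg hf1 hq0)
    + (20383463094765/59125732969534) * (mul_nonneg (mul_nonneg hH1 ha0) hmd)
    + (728953718320/4223266640681) * (mul_nonneg (mul_nonneg hp0 hpk) hbs)
    + (321088950032813/1123388926421146) * (mul_nonneg (mul_nonneg hf1 hp0) hb0)
    + (8842877762071/33786133125448) * (mul_nonneg hpk hak)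
    + (141584915743179/561694463210573) * (mul_nonneg (mul_nonneg hf1 hp0) hbs)
    + (94693818937016/561694463210573) * (mul_nonneg hbud010 hqs)
    + (141584915743179/561694463210573) * (mul_nonneg (mul_nonneg hp0 hbs) hmy)
    + (155363829484771/1685083389631719) * (mul_nonneg (mul_nonneg hpk hb0) hbs)
    + (10038393555097/58357866307592) * (mul_nonneg hf0 hH1)
    + (2670327420879/51063133019143) * (mul_nonneg hbud110 hq0)
    + (379361503937301/1123388926421146) * (mul_nonneg hbud000 ha0)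
    + (103452566525263/561694463210573) * (mul_nonneg hbud001 ha0)
    + (181484473284951/1123388926421146) * (mul_nonneg (mul_nonneg hq0 hb0) he0)
    + (76784983635119/4493555705684584) * (mul_nonneg hf1 hy0)
    + (65796549071319/51063133019143) * (mul_nonneg (mul_nonneg hz0 hH0) hp0)
    + (4106628652967/29562866484767) * (mul_nonneg hbud100 hqs)
    + (520089698227768/561694463210573) * (mul_nonneg (mul_nonneg hz0 hqs) hmy)
    + (996047375273/29562866484767) * (mul_nonneg (mul_nonneg hpk hqs) hbs)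
    + (88423036125862/561694463210573) * (mul_nonneg (mul_nonneg hz1 hpk) hak)
    + (996047375273/29562866484767) * (mul_nonneg (mul_nonneg hpk hpk) hbs)
    + (141584915743179/561694463210573) * (mul_nonneg (mul_nonneg hqs ha0) hu1)
    + (446669392034263/1123388926421146) * (mul_nonneg (mul_nonneg hf1 hH0) hb0)
    + (2381124932949/80242066172939) * (mul_nonneg (mul_nonneg hp0 hqs) he0)
    + (2257025599544/561694463210573) * (mul_nonneg (mul_nonneg hf0 hq0) hak)
    + (94689074355231/1021262660382860) * (mul_nonneg (mul_nonneg hz0 hz0) hq0)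
    + (141584915743179/561694463210573) * (mul_nonneg (mul_nonneg hf1 hpk) hbs)
    + (21272583924254/80242066172939) * (mul_nonneg (mul_nonneg hb0 hmd) hu1)
    + (20956525091330/80242066172939) * (mul_nonneg (mul_nonneg hz0 hqs) hqs)
    + (59325028428893/561694463210573) * (mul_nonneg (mul_nonneg hz0 hz0) hak)
    + (192725264283051/1123388926421146) * (mul_nonneg (mul_nonneg hz0 hbs) he0)
    + (75768918806829/1123388926421146) * (mul_nonneg (mul_nonneg hH1 hp0) hb0)
    + (75768918806829/1123388926421146) * (mul_nonneg hbud001 hp0)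
    + (46359671147507/1123388926421146) * (mul_nonneg (mul_nonneg hpk hak) hb0)
    + (9994640411655/102126266038286) * (mul_nonneg (mul_nonneg hf1 hp0) hu1)
    + (28563101104305/1123388926421146) * (mul_nonneg (mul_nonneg hf0 hpk) hmy)
    + (30728115564352/80242066172939) * (mul_nonneg (mul_nonneg hf1 hH0) hq0)
    + (4106628652967/29562866484767) * (mul_nonneg (mul_nonneg hH0 hqs) hak)
    + (1580587901268/561694463210573) * (mul_nonneg (mul_nonneg hb0 hbs) hmd)
    + (47712546544059/1123388926421146) * (mul_nonneg (mul_nonneg hak hb0) hb0)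
    + (86784691994620/561694463210573) * (mul_nonneg (mul_nonneg hq0 ha0) he0)
    + (101195540925719/561694463210573) * (mul_nonneg (mul_nonneg hb0 hu1) hu1)
    + (20956525091330/80242066172939) * (mul_nonneg (mul_nonneg hz0 hq0) hq0)
    + (713993593279045/1123388926421146) * (mul_nonneg (mul_nonneg hz0 hf0) hf1)
    + (12435722877905/29562866484767) * (mul_nonneg (mul_nonneg hf1 hbs) he0)
    + (141584915743179/561694463210573) * (mul_nonneg (mul_nonneg hf0 hqs) hak)
    + (5712620220861/561694463210573) * (mul_nonneg (mul_nonneg hz1 hp0) hp0)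
    + (4106628652967/29562866484767) * (mul_nonneg (mul_nonneg hp0 hp0) hbs)
    + (81952445808337/561694463210573) * (mul_nonneg (mul_nonneg hf0 hb0) hmd)
    + (36085974711599/320968264691756) * (mul_nonneg he0 he0)
    + (105090910656505/1123388926421146) * (mul_nonneg (mul_nonneg hz1 he0) he0)
    + (2381124932949/80242066172939) * (mul_nonneg hbud100 ha0)
    + (2257025599544/561694463210573) * (mul_nonneg (mul_nonneg hH1 hH1) hq0)
    + (141584915743179/561694463210573) * (mul_nonneg (mul_nonneg hf0 hH1) hqs)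
    + (9994640411655/102126266038286) * (mul_nonneg (mul_nonneg hf0 hf1) hy0)
    + (996047375273/29562866484767) * (mul_nonneg (mul_nonneg hpk hq0) hbs)
    + (2381124932949/80242066172939) * (mul_nonneg (mul_nonneg hpk hmd) he0)
    + (2381124932949/80242066172939) * (mul_nonneg (mul_nonneg hf1 hq0) hbs)
    + (59325028428893/561694463210573) * (mul_nonneg (mul_nonneg hz0 hz0) hz1)
    + (2381124932949/80242066172939) * (mul_nonneg (mul_nonneg ha0 hak) hu1)
    + (2381124932949/80242066172939) * (mul_nonneg (mul_nonneg hpk ha0) hak)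
    + (80459689296493/561694463210573) * (mul_nonneg (mul_nonneg hz0 hH0) hH1)
    + (80459689296493/2246777852842292) * (mul_nonneg hH1 hH1)
    + (9994640411655/102126266038286) * (mul_nonneg (mul_nonneg hf1 ha0) hu1)
    + (2381124932949/80242066172939) * (mul_nonneg (mul_nonneg hH0 ha0) hak)
    + (75768918806829/561694463210573) * (mul_nonneg (mul_nonneg hH0 hpk) hqs)
    + (50873722346595/1123388926421146) * (mul_nonneg (mul_nonneg ha0 hak) hb0)

theorem c1_um_2 (z f H k s p q a b : ℝ)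
    (hz0 : 0 ≤ z-0)
    (hz1 : 0 ≤ (1/4)-z)
    (hf0 : 0 ≤ f-0)
    (hf1 : 0 ≤ (1/10)-f)
    (hH0 : 0 ≤ H)
    (hH1 : 0 ≤ f-H)
    (hp0 : 0 ≤ p)
    (hpk : 0 ≤ k-p)
    (hq0 : 0 ≤ q)
    (hqs : 0 ≤ s-q)
    (ha0 : 0 ≤ a)
    (hak : 0 ≤ (1/2+z-f)-k-a)
    (hb0 : 0 ≤ b)
    (hbs : 0 ≤ (1/2-z)-s-b)
    (hy0 : 0 ≤ 1/2+z-H-k-s)
    (hmd : 0 ≤ 1/4-z-q-b)
    (hmy : 0 ≤ 1/4+z-(1/2+z-H-k-s))
    (hu1 : 0 ≤ -(2*z-(1/2+z-H-k-s)))
    (he0 : 0 ≤ (k+s)-(a+b))
    (hbud000 : 0 ≤ (z-2*z*f)-H*(q+b))
    (hbud001 : 0 ≤ (z-2*z*f)-H*(q+b)-q*((2*z-(1/2+z-H-k-s))+(a+b)))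
    (hbud010 : 0 ≤ (z-2*z*f)-H*(q+b)-a*(2*z-(1/2+z-H-k-s)+f-H))
    (hbud100 : 0 ≤ (z-2*z*f)-H*(q+b)-p*((2*z-(1/2+z-H-k-s)+f-H)+(a+b)))
    (hbud101 : 0 ≤ (z-2*z*f)-H*(q+b)-p*((2*z-(1/2+z-H-k-s)+f-H)+(a+b))-q*((2*z-(1/2+z-H-k-s))+(a+b))) :
    0 ≤ (k+s+(a+b))*((1/2-z)*(1*(k+H)+1*(1/2+z-H-k-s))+0*(k*(p+2*a))+0*(f*(1-f)-z*(1-2*f))+z*z)-(1/2-z)*(2*k*(a+b)+2*H*((a+b)+p+q)) := by
  linear_combination (11993151820028/9163512183727) * (mul_nonneg (mul_nonneg hz0 hH0) hp0)
    + (6170597309/3332186248628) * (mul_nonneg (mul_nonneg hz1 hH0) hpk)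
    + (4721350050962/9163512183727) * (mul_nonneg (mul_nonneg hf1 hq0) hb0)
    + (955139234516/9163512183727) * (mul_nonneg (mul_nonneg hbs hmd) he0)
    + (496498990951/9163512183727) * (mul_nonneg (mul_nonneg hpk hmd) he0)
    + (458862129786/9163512183727) * (mul_nonneg (mul_nonneg hH0 hqs) hu1)
    + (210274066138/295597167217) * (mul_nonneg (mul_nonneg hH0 hb0) he0)
    + (968677482302/9163512183727) * (mul_nonneg hbud001 hmy)
    + (1233133587750/9163512183727) * (mul_nonneg hf1 hy0)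
    + (5293376215665/18327024367454) * (mul_nonneg (mul_nonneg ha0 hu1) hu1)
    + (3348709745116/9163512183727) * (mul_nonneg (mul_nonneg hH0 hak) hmd)
    + (2218996570225/18327024367454) * (mul_nonneg (mul_nonneg hf1 hp0) hbs)
    + (31186853004/43844555903) * (mul_nonneg (mul_nonneg hf1 hq0) hu1)
    + (8650960518179/36654048734908) * (mul_nonneg (mul_nonneg hH0 hH0) hb0)
    + (4307078871539/9163512183727) * (mul_nonneg hbud000 hmy)
    + (866856246235/9163512183727) * (mul_nonneg (mul_nonneg hz1 hpk) he0)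
    + (12474972080529/18327024367454) * (mul_nonneg (mul_nonneg hz0 hH0) hq0)
    + (3154870212491/18327024367454) * (mul_nonneg (mul_nonneg hH0 hmd) hu1)
    + (2634068836397/18327024367454) * (mul_nonneg hbud101 hz1)
    + (7099095121017/73308097469816) * (hbud101)
    + (8300505116055/9163512183727) * (mul_nonneg hf1 hp0)
    + (31057001083/18327024367454) * (mul_nonneg (mul_nonneg hz1 hp0) hak)
    + (4793844335871/36654048734908) * (mul_nonneg hmy hu1)
    + (2622786493905/36654048734908) * (mul_nonneg (mul_nonneg hp0 hak) he0)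
    + (3616228248249/45817560918635) * (mul_nonneg hq0 hb0)
    + (1778965483707/18327024367454) * (mul_nonneg hbud000 hqs)
    + (1990193743798/9163512183727) * (mul_nonneg (mul_nonneg hqs ha0) hy0)
    + (8163688265857/18327024367454) * (mul_nonneg (mul_nonneg hz0 hp0) hmy)
    + (7258191127335/9163512183727) * (mul_nonneg (mul_nonneg hf1 hq0) hbs)
    + (1773822114137/18327024367454) * (mul_nonneg hbud100 hb0)
    + (598214980219/91635121837270) * (mul_nonneg hq0 hu1)
    + (9311627874140/9163512183727) * (mul_nonneg (mul_nonneg hf1 hH0) hq0)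
    + (5837036693926/9163512183727) * (mul_nonneg (mul_nonneg hz0 ha0) hmy)
    + (5308687291735/36654048734908) * (mul_nonneg (mul_nonneg hq0 ha0) hu1)
    + (7144836771398/9163512183727) * (mul_nonneg (mul_nonneg hH0 hqs) hb0)
    + (4046546892687/18327024367454) * (mul_nonneg (mul_nonneg hz0 hH0) hb0)
    + (73959531200/295597167217) * (mul_nonneg (mul_nonneg hz0 hpk) ha0)
    + (3566508389193/18327024367454) * (mul_nonneg (mul_nonneg hH0 hb0) hmd)
    + (1780142529323/18327024367454) * (mul_nonneg (mul_nonneg hz0 hz0) hH0)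
    + (6250671981621/9163512183727) * (mul_nonneg (mul_nonneg hz1 hp0) he0)
    + (1451638225467/9163512183727) * (mul_nonneg (mul_nonneg hz0 hqs) he0)
    + (14659915050375/18327024367454) * (mul_nonneg (mul_nonneg hf1 hq0) ha0)
    + (443799314045/9163512183727) * (mul_nonneg (mul_nonneg hz0 hp0) hqs)
    + (491539263415/964580229866) * (mul_nonneg hbud000 ha0)
    + (77867420637/1666093124314) * (mul_nonneg (mul_nonneg hp0 hak) hmd)
    + (780824132235/36654048734908) * (mul_nonneg (mul_nonneg hb0 hbs) hmd)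
    + (3540510753477/18327024367454) * (mul_nonneg (mul_nonneg hp0 hb0) he0)
    + (72520566152/833046562157) * (mul_nonneg (mul_nonneg hz0 hz0) hak)
    + (13728886633/1666093124314) * (mul_nonneg (mul_nonneg hz0 hz1) hp0)
    + (1451638225467/9163512183727) * (mul_nonneg (mul_nonneg hq0 hqs) ha0)
    + (3389351174191/36654048734908) * (mul_nonneg (mul_nonneg hq0 ha0) hy0)
    + (14208073306615/18327024367454) * (mul_nonneg (mul_nonneg hz0 hf0) ha0)
    + (6799304946435/18327024367454) * (mul_nonneg (mul_nonneg hz0 hH0) hH1)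
    + (5393379486558/9163512183727) * (mul_nonneg (mul_nonneg hz0 hqs) hmy)
    + (4416721598350/9163512183727) * (mul_nonneg (mul_nonneg hf1 hp0) ha0)
    + (5393379486558/9163512183727) * (mul_nonneg (mul_nonneg hz0 hq0) hmy)
    + (6272801226302/9163512183727) * (mul_nonneg (mul_nonneg hz0 hpk) hb0)
    + (116323615852221/733080974698160) * (mul_nonneg hH0 hpk)
    + (7550184301955/18327024367454) * (mul_nonneg (mul_nonneg hH0 hH1) hq0)
    + (6765492412417/6664372497256) * (mul_nonneg hH1 hp0)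
    + (1053736842025/18327024367454) * (mul_nonneg (mul_nonneg hq0 hb0) hb0)
    + (2046734823927/18327024367454) * (mul_nonneg (mul_nonneg hq0 hqs) hb0)
    + (1362382482909/9163512183727) * (mul_nonneg (mul_nonneg hq0 hb0) hu1)
    + (718287972290/833046562157) * (mul_nonneg (mul_nonneg hz0 hb0) hmy)
    + (10385134682669/36654048734908) * (mul_nonneg hb0 hy0)
    + (1175214562271/146616194939632) * (mul_nonneg hb0 hbs)
    + (5152189476009/36654048734908) * (mul_nonneg hb0 hu1)
    + (879421739744/9163512183727) * (mul_nonneg (mul_nonneg hz0 ha0) hb0)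
    + (917280487130/9163512183727) * (mul_nonneg (mul_nonneg hz0 hb0) hb0)
    + (879421739744/9163512183727) * (mul_nonneg (mul_nonneg hqs hb0) hy0)
    + (238784808629/9163512183727) * (mul_nonneg hak hb0)
    + (3191167795373/36654048734908) * (mul_nonneg (mul_nonneg hb0 hbs) he0)
    + (1773822114137/18327024367454) * (mul_nonneg (mul_nonneg hpk hb0) hbs)
    + (955139234516/9163512183727) * (mul_nonneg (mul_nonneg hb0 hu1) hu1)
    + (932259121779/36654048734908) * (mul_nonneg (mul_nonneg hqs hb0) hbs)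
    + (397786541463/3332186248628) * (mul_nonneg (mul_nonneg hH0 hpk) hak)
    + (162513208299/1666093124314) * (mul_nonneg (mul_nonneg ha0 hak) hu1)
    + (3050285523754/9163512183727) * (mul_nonneg ha0 hu1)
    + (1451638225467/18327024367454) * (mul_nonneg (mul_nonneg hq0 hq0) hy0)
    + (2696689743279/18327024367454) * (mul_nonneg hbud000 hq0)
    + (1451638225467/18327024367454) * (mul_nonneg (mul_nonneg hq0 hq0) hu1)
    + (4002132473938/9163512183727) * (mul_nonneg hpk he0)
    + (780824132235/36654048734908) * (mul_nonneg (mul_nonneg hak hb0) hbs)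
    + (7976149627531/18327024367454) * (mul_nonneg (mul_nonneg hz0 hH1) ha0)
    + (8729799172157/9163512183727) * (mul_nonneg (mul_nonneg hH0 hmd) he0)
    + (905848660978/9163512183727) * (mul_nonneg (mul_nonneg hz1 hz1) hu1)
    + (12578040797067/36654048734908) * (mul_nonneg hpk hu1)
    + (9574909672465/73308097469816) * (mul_nonneg hf1 hu1)
    + (395264468497/18327024367454) * (mul_nonneg (mul_nonneg hqs ha0) hu1)
    + (1451638225467/18327024367454) * (mul_nonneg (mul_nonneg hq0 hqs) hy0)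
    + (1451638225467/18327024367454) * (mul_nonneg (mul_nonneg hq0 hqs) hu1)
    + (9557551939/1182388668868) * (mul_nonneg (mul_nonneg hq0 hu1) hu1)
    + (209761040472/9163512183727) * (mul_nonneg hH1 hu1)
    + (55249670126/833046562157) * (mul_nonneg hH0 hH1)
    + (17761890050689/73308097469816) * (mul_nonneg hH1 hy0)
    + (44210819545/3332186248628) * (mul_nonneg (mul_nonneg hH1 hH1) hb0)
    + (1143545470645/1666093124314) * (mul_nonneg (mul_nonneg hz0 hf1) hH0)
    + (143191869407/591194334434) * (mul_nonneg (mul_nonneg hz1 hH1) hp0)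
    + (10339414812393/18327024367454) * (mul_nonneg (mul_nonneg hH1 hq0) hu1)
    + (4721350050962/9163512183727) * (mul_nonneg (mul_nonneg hH1 hq0) hb0)
    + (7258191127335/9163512183727) * (mul_nonneg (mul_nonneg hH1 hq0) hbs)
    + (2696689743279/18327024367454) * (mul_nonneg (mul_nonneg hH1 hq0) hy0)
    + (458640243565/9163512183727) * (mul_nonneg (mul_nonneg hf1 hp0) hu1)
    + (2218996570225/18327024367454) * (mul_nonneg (mul_nonneg hH1 hp0) hbs)
    + (788225519645/36654048734908) * (mul_nonneg (mul_nonneg hf0 hp0) he0)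
    + (37858747386/9163512183727) * (mul_nonneg (mul_nonneg hb0 hb0) he0)
    + (2696689743279/9163512183727) * (mul_nonneg (mul_nonneg hz0 hH1) hqs)
    + (10551512707682/9163512183727) * (mul_nonneg (mul_nonneg hz0 hf0) hmy)
    + (72520566152/833046562157) * (mul_nonneg (mul_nonneg hz0 hz0) hpk)
    + (49290573538/9163512183727) * (mul_nonneg (mul_nonneg hz0 hz1) hmy)
    + (108122433306/9163512183727) * (mul_nonneg (mul_nonneg hz0 hz0) hz0)
    + (1836342608725/9163512183727) * (mul_nonneg (mul_nonneg hz0 hz1) hH1)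
    + (8813645096543/36654048734908) * (mul_nonneg (mul_nonneg hH0 hpk) hb0)
    + (13742190790803/18327024367454) * (mul_nonneg (mul_nonneg hH1 hq0) ha0)
    + (397786541463/1666093124314) * (mul_nonneg (mul_nonneg hH0 hqs) hak)
    + (458862129786/9163512183727) * (mul_nonneg hbud010 hqs)
    + (869921031717/18327024367454) * (mul_nonneg (mul_nonneg hf0 ha0) hy0)
    + (1363355237186/9163512183727) * (mul_nonneg (mul_nonneg hz0 hmy) hmy)
    + (12578040797067/36654048734908) * (mul_nonneg hqs hu1)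
    + (3540510753477/9163512183727) * (mul_nonneg (mul_nonneg hpk ha0) hy0)
    + (3540510753477/18327024367454) * (mul_nonneg hbud100 ha0)
    + (2622786493905/36654048734908) * (mul_nonneg (mul_nonneg hp0 hbs) he0)
    + (143814032679/1182388668868) * (mul_nonneg (mul_nonneg hp0 he0) he0)
    + (11456673463047/18327024367454) * (mul_nonneg (mul_nonneg hH1 hp0) ha0)
    + (397786541463/3332186248628) * (mul_nonneg (mul_nonneg hH0 hpk) hqs)
    + (2011005947/1182388668868) * (mul_nonneg (mul_nonneg hH0 hpk) hq0)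
    + (458862129786/9163512183727) * (mul_nonneg (mul_nonneg hp0 hu1) he0)
    + (2540203436949/36654048734908) * (mul_nonneg (mul_nonneg hH0 hpk) he0)
    + (5564421782903/36654048734908) * (mul_nonneg (mul_nonneg hq0 hy0) hu1)
    + (5293376215665/18327024367454) * (mul_nonneg (mul_nonneg hf0 hH0) he0)
    + (1813014666033/73308097469816) * (mul_nonneg hH1 hb0)
    + (37858747386/9163512183727) * (mul_nonneg (mul_nonneg ha0 hb0) hy0)
    + (458640243565/9163512183727) * (mul_nonneg (mul_nonneg hpk hak) hb0)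
    + (1078327692934/9163512183727) * (mul_nonneg (mul_nonneg hH0 hp0) hqs)
    + (6210656702795/18327024367454) * (mul_nonneg (mul_nonneg hf1 hH0) hp0)
    + (6211100475237/36654048734908) * (mul_nonneg (mul_nonneg hf1 hH0) hpk)
    + (955139234516/9163512183727) * (mul_nonneg (mul_nonneg hq0 ha0) hb0)
    + (458862129786/9163512183727) * (mul_nonneg (mul_nonneg hf0 ha0) hak)
    + (162513208299/1666093124314) * (mul_nonneg (mul_nonneg ha0 ha0) hu1)
    + (458862129786/9163512183727) * (mul_nonneg (mul_nonneg hH1 ha0) ha0)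
    + (443799314045/9163512183727) * (mul_nonneg (mul_nonneg hz0 hp0) hq0)
    + (5293376215665/18327024367454) * (mul_nonneg (mul_nonneg hH0 hH1) ha0)
    + (2046734823927/18327024367454) * (mul_nonneg (mul_nonneg hq0 hq0) hb0)
    + (458862129786/9163512183727) * (mul_nonneg (mul_nonneg hf0 hH1) ha0)
    + (77867420637/1666093124314) * (mul_nonneg (mul_nonneg hp0 hq0) hak)
    + (496498990951/9163512183727) * (mul_nonneg (mul_nonneg hp0 hmd) he0)
    + (1773822114137/9163512183727) * (mul_nonneg (mul_nonneg hz0 hf0) hb0)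
    + (780824132235/36654048734908) * (mul_nonneg (mul_nonneg hf0 hb0) hbs)
    + (458862129786/9163512183727) * (mul_nonneg (mul_nonneg hH0 he0) he0)
    + (44210819545/3332186248628) * (mul_nonneg (mul_nonneg hf0 hf1) hb0)
    + (458862129786/9163512183727) * (mul_nonneg (mul_nonneg hH0 hH1) hbs)
    + (1451638225467/9163512183727) * (mul_nonneg (mul_nonneg hq0 hq0) ha0)
    + (458640243565/9163512183727) * (mul_nonneg (mul_nonneg hf0 hpk) hb0)

end Pool.Agent.E809HL
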