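import Mathlib

set_option autoImplicit false
set_option maxHeartbeats 4000000

namespace Pool.Agent.E809HL

theorem c3_up_a (z f H k s p q a b : ℝ)
    (hz0 : 0 ≤ z-0)
    (hz1 : 0 ≤ (1/10)-z)
    (hf0 : 0 ≤ f-(3/20))
    (hf1 : 0 ≤ (1/5)-f)
    (hH0 : 0 ≤ H)
    (hH1 : 0 ≤ f-H)
    (hp0 : 0 ≤ p)
    (hpk : 0 ≤ k-p)
    (hq0 : 0 ≤ q)
    (hqs : 0 ≤ s-q)
    (ha0 : 0 ≤ a)
    (hak : 0 ≤ (1/2+z-f)-k-a)
    (hb0 : 0 ≤ b)
    (hbs : 0 ≤ (1/2-z)-s-b)
    (hy0 : 0 ≤ 1/2+z-H-k-s)
    (hmd : 0 ≤ 1/4-z-q-b)
    (hmy : 0 ≤ 1/4+z-(1/2+z-H-k-s))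
    (hu0 : 0 ≤ 2*z-(1/2+z-H-k-s))
    (hbud : 0 ≤ (z-2*z*f)-(H+(2*z-(1/2+z-H-k-s)))*(q+b)-(2*z-(1/2+z-H-k-s)+f-H)*(p+a)-(a+b)*(p+q)) :
    0 ≤ (k+s+(a+b))*((1/2-z)*((1/2)*(k+H)+(3/2)*(1/2+z-H-k-s))+(1/2)*(k*(p+2*a))+(1/2)*(f*(1-f)-z*(1-2*f))+z*z)-(1/2-z)*(2*k*(a+b)+2*H*((a+b)+p+q)) := by
  linear_combination (1121092193295869104819/13073765030901261417528) * (mul_nonneg (mul_nonneg hz1 hp0) hp0)
    + (592865039153769320978/1167300449187612626565) * (mul_nonneg (mul_nonneg hf1 hp0) hp0)
    + (60813343777799179149881/1307376503090126141752800) * (mul_nonneg hp0 hpk)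
    + (4584571696972829098963/16342206288626576771910) * (mul_nonneg (mul_nonneg hf0 hp0) hpk)
    + (845929388664591604283/10894804192417717847940) * (mul_nonneg (mul_nonneg hz0 hp0) hq0)
    + (992008540738026782777/46692017967504505062600) * (mul_nonneg ha0 hb0)
    + (2030833538952672412918/8171103144313288385955) * (mul_nonneg (mul_nonneg hz1 hqs) hak)
    + (837880372390056532043/2905281117978058092784) * (mul_nonneg hf1 hp0)
    + (80647354570328650345/6536882515450630708764) * (mul_nonneg (mul_nonneg hqs hak) hak)
    + (156281674846312049473279/1307376503090126141752800) * (mul_nonneg hf0 hpk)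
    + (6078254541302165658011/8171103144313288385955) * (mul_nonneg (mul_nonneg hpk hpk) hmd)
    + (4159052465056137319519/1867680718700180202504) * (mul_nonneg (mul_nonneg hz1 hf1) hp0)
    + (1221882223268445038365/13073765030901261417528) * (mul_nonneg (mul_nonneg hpk hak) hak)
    + (82587900291596030293559/65368825154506307087640) * (mul_nonneg (mul_nonneg hz1 hf0) hpk)
    + (18583635932813770793761/65368825154506307087640) * (mul_nonneg (mul_nonneg hpk hak) hbs)
    + (305763831871147730442571/1307376503090126141752800) * (mul_nonneg hpk hq0)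
    + (11919196788301267890571/32684412577253153543820) * (mul_nonneg (mul_nonneg hz1 hpk) hq0)
    + (404520477037526151783/518800199638938945140) * (mul_nonneg (mul_nonneg hz1 hak) hmd)
    + (31486387329005205134339/32684412577253153543820) * (mul_nonneg (mul_nonneg hf1 hpk) hq0)
    + (90082012611626579882/1167300449187612626565) * (mul_nonneg (mul_nonneg hak hmd) hmd)
    + (5853729291835338299749/16342206288626576771910) * (mul_nonneg (mul_nonneg hz1 hb0) hmd)
    + (145085619780191078549/778200299458408417710) * (mul_nonneg (mul_nonneg hpk hbs) hbs)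
    + (6042633483980591045501/13073765030901261417528) * (mul_nonneg (mul_nonneg hpk hak) hmd)
    + (1134127037311600192093/4357921676967087139176) * (mul_nonneg (mul_nonneg hz0 hpk) hb0)
    + (28403440106942064378619/16342206288626576771910) * (mul_nonneg (mul_nonneg hz1 hpk) hmd)
    + (2485595340547278764723/32684412577253153543820) * (mul_nonneg (mul_nonneg hf0 hpk) hmd)
    + (824941416347345322274/907900349368143153995) * (mul_nonneg (mul_nonneg hz1 hak) hb0)
    + (28013129240690143086469/21789608384835435695880) * (mul_nonneg hbud hz1)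
    + (10240721148265027575101/32684412577253153543820) * (mul_nonneg (mul_nonneg hz1 hp0) hu0)
    + (458703701047349476921/7263202794945145231960) * (mul_nonneg (mul_nonneg hz0 ha0) hb0)
    + (8741935545824960640929/32684412577253153543820) * (mul_nonneg (mul_nonneg hz1 hp0) hmd)
    + (3660936872915650975511/32684412577253153543820) * (mul_nonneg (mul_nonneg hH1 ha0) hbs)
    + (12154600418479932248/8171103144313288385955) * (mul_nonneg (mul_nonneg hpk hy0) hu0)
    + (22382714291536863045853/32684412577253153543820) * (mul_nonneg (mul_nonneg hz1 hmd) hmd)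
    + (3705899599258975792573/13618505240522147309925) * (mul_nonneg hf0 hu0)
    + (19134255733284691133161/6536882515450630708764) * (mul_nonneg (mul_nonneg hz1 hH1) hp0)
    + (95005843830677286529/3268441257725315354382) * (mul_nonneg (mul_nonneg hz0 hH1) hpk)
    + (31021661509919613816887/65368825154506307087640) * (mul_nonneg (mul_nonneg hz0 hz0) hpk)
    + (53193583121078473436617/65368825154506307087640) * (mul_nonneg (mul_nonneg hz1 hz1) hmd)
    + (99005127966995376653/726320279494514523196) * (mul_nonneg (mul_nonneg hf1 hq0) hmd)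
    + (4713245566193756164859/32684412577253153543820) * (mul_nonneg (mul_nonneg hq0 ha0) hb0)
    + (7974267879463246929311/10894804192417717847940) * (mul_nonneg (mul_nonneg hf1 hp0) hq0)
    + (3292336259878876356941/6536882515450630708764) * (mul_nonneg (mul_nonneg hz1 hH0) hak)
    + (197509036872118923981569/130737650309012614175280) * (mul_nonneg (mul_nonneg hz1 hH1) ha0)
    + (13296664366546895439219/36316013974725726159800) * (hbud)
    + (752152790676226661861/7263202794945145231960) * (mul_nonneg (mul_nonneg hf1 hpk) ha0)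
    + (5050371675434910032881/32684412577253153543820) * (mul_nonneg (mul_nonneg hpk ha0) hb0)
    + (11027792401302971429/2723701048104429461985) * (mul_nonneg (mul_nonneg hf0 hq0) hak)
    + (1924554305759696738927/2723701048104429461985) * (mul_nonneg (mul_nonneg hz0 hf0) hb0)
    + (4275590936769365276311/10894804192417717847940) * (mul_nonneg (mul_nonneg hz0 hz0) hz1)
    + (87692391106508765779/2723701048104429461985) * (mul_nonneg (mul_nonneg hf0 hp0) hu0)
    + (13718799757415260189679/27237010481044294619850) * (mul_nonneg hq0 hb0)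
    + (755844167851918482317333/653688251545063070876400) * (mul_nonneg hH1 hp0)
    + (325908637722014009247707/1307376503090126141752800) * (mul_nonneg hp0 hu0)
    + (480629692382506132051/1815800698736286307990) * (mul_nonneg (mul_nonneg hp0 hp0) hu0)
    + (4001270044846355725972/8171103144313288385955) * (mul_nonneg (mul_nonneg hp0 hpk) hmd)
    + (15397109305690154697303/14526405589890290463920) * (mul_nonneg (mul_nonneg hz1 hf1) ha0)
    + (21429183750908646014521/65368825154506307087640) * (mul_nonneg (mul_nonneg hz0 hz1) hf0)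
    + (87840173528004202200409/65368825154506307087640) * (mul_nonneg (mul_nonneg hz1 hz1) hak)
    + (16644429306872600845753/10894804192417717847940) * (mul_nonneg (mul_nonneg hz0 hf0) hq0)
    + (17725852046310344396863/21789608384835435695880) * (mul_nonneg (mul_nonneg hf0 hpk) hak)
    + (27294779610054285316321/326844125772531535438200) * (mul_nonneg hpk hak)
    + (4490472185050952683271/16342206288626576771910) * (mul_nonneg (mul_nonneg hz1 hq0) hb0)
    + (14419330751030768661443/130737650309012614175280) * (mul_nonneg hq0 ha0)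
    + (39855699823085760457381/32684412577253153543820) * (mul_nonneg (mul_nonneg hf1 hp0) ha0)
    + (15886293719630417964833/32684412577253153543820) * (mul_nonneg (mul_nonneg hH1 hpk) ha0)
    + (230684819584845187523/16342206288626576771910) * (mul_nonneg (mul_nonneg hak hak) hb0)
    + (359515674136297160623/3631601397472572615980) * (mul_nonneg (mul_nonneg hp0 hp0) hmy)
    + (897722709121671043441/8171103144313288385955) * (mul_nonneg (mul_nonneg hp0 hpk) hmy)
    + (7129387198029445399901/65368825154506307087640) * (mul_nonneg (mul_nonneg hpk hpk) hq0)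
    + (108629825431574472137723/435792167696708713917600) * (mul_nonneg hy0 hu0)
    + (12822841491248873318009/65368825154506307087640) * (mul_nonneg (mul_nonneg hz1 hp0) hqs)
    + (2752483739639364820883/10894804192417717847940) * (mul_nonneg (mul_nonneg hz1 hpk) hbs)
    + (3267899609601754064659/13073765030901261417528) * (mul_nonneg (mul_nonneg hz0 hpk) hu0)
    + (1352424671824523017201/3112801197833633670840) * (mul_nonneg (mul_nonneg hp0 hp0) hpk)
    + (17590476744943331451731/65368825154506307087640) * (mul_nonneg (mul_nonneg hp0 hpk) hqs)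
    + (12532121596687750648289/72632027949451452319600) * (mul_nonneg hH1 hbs)
    + (2588865196472563090241/16342206288626576771910) * (mul_nonneg (mul_nonneg hz0 hz1) hy0)
    + (45976400615759261790019/163422062886265767719100) * (mul_nonneg hf0 hqs)
    + (6157853551853588852021/10894804192417717847940) * (mul_nonneg (mul_nonneg hz1 hq0) ha0)
    + (9534345183325069478519/54474020962088589239700) * (mul_nonneg ha0 hy0)
    + (1193005190211159216289/32684412577253153543820) * (mul_nonneg (mul_nonneg hz0 hH1) hq0)
    + (26022390446863754254817/81711031443132883859550) * (mul_nonneg hH1 hq0)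
    + (279133194141475614902827/261475300618025228350560) * (mul_nonneg hH1 ha0)
    + (549240457240274569517/3631601397472572615980) * (mul_nonneg (mul_nonneg hz1 hak) hak)
    + (11417772807075232498001/16342206288626576771910) * (mul_nonneg (mul_nonneg hf0 hak) hb0)
    + (31606546021368332204263/435792167696708713917600) * (mul_nonneg hf1 hy0)
    + (1839056190645804035869/40855515721566441929775) * (mul_nonneg hf0 hH1)
    + (28940244298143065077/1945500748646021044275) * (mul_nonneg ha0 ha0)
    + (1156449973560249875107/16342206288626576771910) * (mul_nonneg (mul_nonneg ha0 hb0) hmy)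
    + (1122170946958530152503/32684412577253153543820) * (mul_nonneg (mul_nonneg hz0 hf0) hqs)
    + (12150070007097572303/726320279494514523196) * (mul_nonneg (mul_nonneg hpk hpk) hbs)
    + (195775942489103245779557/1307376503090126141752800) * (mul_nonneg hz1 hy0)
    + (60063697583178656901/518800199638938945140) * (mul_nonneg (mul_nonneg hz0 hz1) hH1)
    + (3886978100756858949509/8171103144313288385955) * (mul_nonneg (mul_nonneg hH1 hp0) hp0)
    + (20515829731799056032391/65368825154506307087640) * (mul_nonneg (mul_nonneg hH1 hp0) hpk)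
    + (202599699283157434883/1634220628862657677191) * (mul_nonneg (mul_nonneg hp0 hp0) hqs)
    + (7862805009708748055767/46692017967504505062600) * (mul_nonneg hH1 hpk)
    + (813733500281191554301/3631601397472572615980) * (mul_nonneg (mul_nonneg hz0 hf0) ha0)
    + (2879629296057977664763/8171103144313288385955) * (mul_nonneg (mul_nonneg hz0 hf0) hf1)
    + (1792348668137076313049/6536882515450630708764) * (mul_nonneg (mul_nonneg hz0 hf0) hH1)
    + (7026145513314255915073/32684412577253153543820) * (mul_nonneg (mul_nonneg hp0 hb0) hu0)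
    + (114213441365678787503407/130737650309012614175280) * (mul_nonneg (mul_nonneg hz0 hH0) ha0)
    + (660517602354389147227/10894804192417717847940) * (mul_nonneg (mul_nonneg hq0 hak) hb0)
    + (21278346582665080269583/65368825154506307087640) * (mul_nonneg (mul_nonneg hq0 ha0) hak)
    + (18786828300200216418409/65368825154506307087640) * (mul_nonneg (mul_nonneg hz0 ha0) ha0)
    + (14724386675896636521757/16342206288626576771910) * (mul_nonneg (mul_nonneg hp0 ha0) hb0)
    + (12154600418479932248/8171103144313288385955) * (mul_nonneg (mul_nonneg hf0 hq0) hb0)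
    + (8854691136142630481791/32684412577253153543820) * (mul_nonneg (mul_nonneg hp0 hp0) hb0)
    + (99005127966995376653/726320279494514523196) * (mul_nonneg (mul_nonneg hp0 hq0) hu0)
    + (1589746870579313620681/32684412577253153543820) * (mul_nonneg (mul_nonneg hpk hq0) hbs)
    + (2029041907857610731224/8171103144313288385955) * (mul_nonneg (mul_nonneg hH1 hp0) hq0)
    + (3235304834003252181859/10894804192417717847940) * (mul_nonneg (mul_nonneg hH1 hpk) hq0)
    + (10334925431253515456491/65368825154506307087640) * (mul_nonneg (mul_nonneg hf1 hq0) ha0)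
    + (2717653118246880736553/10894804192417717847940) * (mul_nonneg (mul_nonneg hz0 hb0) hb0)
    + (18242144767242819156443/326844125772531535438200) * (mul_nonneg hb0 hmd)
    + (6496818863761799820817/21789608384835435695880) * (mul_nonneg (mul_nonneg hp0 hpk) hpk)
    + (4713245566193756164859/32684412577253153543820) * (mul_nonneg (mul_nonneg hf1 hH0) hp0)
    + (13399654691025127357313/65368825154506307087640) * (mul_nonneg (mul_nonneg hH0 hpk) hak)
    + (1/2) * (mul_nonneg (mul_nonneg hf0 hf1) hp0)
    + (8274321328993429263119/65368825154506307087640) * (mul_nonneg (mul_nonneg hf0 hf0) hpk)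
    + (1221882223268445038365/13073765030901261417528) * (mul_nonneg (mul_nonneg hf0 hH1) hpk)
    + (9803151305357596003561/32684412577253153543820) * (mul_nonneg (mul_nonneg hH0 hpk) hu0)
    + (1006479416207630678951/933840359350090101252) * (mul_nonneg (mul_nonneg hz1 hz1) hqs)
    + (3660936872915650975511/32684412577253153543820) * (mul_nonneg (mul_nonneg hH0 hp0) hu0)
    + (3187793903154986704037/3268441257725315354382) * (mul_nonneg (mul_nonneg hH1 hp0) ha0)
    + (7977760791535893417011/65368825154506307087640) * (mul_nonneg (mul_nonneg ha0 hak) hak)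
    + (917292257428498950216/907900349368143153995) * (mul_nonneg (mul_nonneg hz1 hpk) hak)
    + (206623736841924974797/21789608384835435695880) * (mul_nonneg (mul_nonneg hz0 ha0) hbs)
    + (20016887338976762638519/435792167696708713917600) * (mul_nonneg hq0 hy0)
    + (11353396579304595403901/16342206288626576771910) * (mul_nonneg (mul_nonneg hz1 hq0) hy0)
    + (3466163514345756112699/14526405589890290463920) * (mul_nonneg hH1 hb0)
    + (1480072390733630734645/4357921676967087139176) * (mul_nonneg (mul_nonneg hq0 ha0) ha0)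
    + (58132866318047123321/32684412577253153543820) * (mul_nonneg (mul_nonneg ha0 ha0) hmd)
    + (5161046548221794683043/32684412577253153543820) * (mul_nonneg (mul_nonneg hp0 hqs) hb0)
    + (1194767364007230145145/6536882515450630708764) * (mul_nonneg (mul_nonneg hH1 ha0) hb0)
    + (90082012611626579882/1167300449187612626565) * (mul_nonneg (mul_nonneg hp0 hb0) hb0)
    + (255092834117320075883/2334600898375225253130) * (mul_nonneg (mul_nonneg hpk hb0) hmd)
    + (12820413311657047119701/16342206288626576771910) * (mul_nonneg (mul_nonneg hpk ha0) ha0)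
    + (2924399875235981459301/7263202794945145231960) * (mul_nonneg (mul_nonneg hp0 hpk) ha0)
    + (20516903695082305609/111171471351201202530) * (mul_nonneg (mul_nonneg hf0 hf0) hb0)
    + (3187793903154986704037/3268441257725315354382) * (mul_nonneg (mul_nonneg hp0 ha0) hu0)
    + (2151059149061236346999/3112801197833633670840) * (mul_nonneg (mul_nonneg hpk ha0) hu0)
    + (40958733906246582806939/65368825154506307087640) * (mul_nonneg (mul_nonneg hf0 hpk) hpk)
    + (4937146057207775423951/16342206288626576771910) * (mul_nonneg (mul_nonneg hqs ha0) hb0)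
    + (3931122728065780682521/65368825154506307087640) * (mul_nonneg hf0 hf1)
    + (99005127966995376653/1452640558989029046392) * (mul_nonneg (mul_nonneg hz0 hq0) hq0)
    + (40310197824558934142321/65368825154506307087640) * (mul_nonneg (mul_nonneg hz1 hq0) hqs)
    + (2029041907857610731224/8171103144313288385955) * (mul_nonneg (mul_nonneg hq0 hq0) ha0)
    + (99005127966995376653/726320279494514523196) * (mul_nonneg (mul_nonneg hq0 hqs) hak)
    + (1932934405389247712689/32684412577253153543820) * (mul_nonneg (mul_nonneg hq0 hq0) hak)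
    + (41666321992827778997/181580069873628630799) * (mul_nonneg (mul_nonneg hz1 hH1) hy0)
    + (14886660822496828330837/32684412577253153543820) * (mul_nonneg (mul_nonneg hf1 hp0) hbs)
    + (13294303098736096246609/65368825154506307087640) * (mul_nonneg (mul_nonneg hf0 hpk) hqs)
    + (1633325532390882041308/2723701048104429461985) * (mul_nonneg (mul_nonneg hf1 ha0) hbs)
    + (99005127966995376653/726320279494514523196) * (mul_nonneg (mul_nonneg hp0 hp0) hp0)
    + (3022488814547052785033/16342206288626576771910) * (mul_nonneg (mul_nonneg hpk hqs) hy0)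
    + (122697434959069096609/1334057656214414430360) * (mul_nonneg (mul_nonneg hpk hpk) hy0)
    + (3660936872915650975511/32684412577253153543820) * (mul_nonneg (mul_nonneg hH0 hH1) hp0)
    + (9754532903683676274569/32684412577253153543820) * (mul_nonneg (mul_nonneg hH0 hH1) hpk)
    + (57391064362970413670629/65368825154506307087640) * (mul_nonneg (mul_nonneg hp0 ha0) ha0)
    + (12503205202833227527961/32684412577253153543820) * (mul_nonneg (mul_nonneg hz1 hH0) hqs)
    + (98629908153295805178443/435792167696708713917600) * (mul_nonneg hH1 hy0)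
    + (2029041907857610731224/8171103144313288385955) * (mul_nonneg (mul_nonneg hq0 hqs) ha0)
    + (14586540049056565555719/36316013974725726159800) * (mul_nonneg hb0 hy0)
    + (3453511371127689941393/21789608384835435695880) * (mul_nonneg (mul_nonneg hz1 hqs) hb0)
    + (80647354570328650345/6536882515450630708764) * (mul_nonneg (mul_nonneg ha0 ha0) hbs)
    + (41666321992827778997/181580069873628630799) * (mul_nonneg (mul_nonneg hz0 hH1) hH1)
    + (90082012611626579882/1167300449187612626565) * (mul_nonneg (mul_nonneg hf1 hb0) hmd)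
    + (7977760791535893417011/65368825154506307087640) * (mul_nonneg (mul_nonneg hf1 ha0) ha0)
    + (7977760791535893417011/65368825154506307087640) * (mul_nonneg (mul_nonneg ha0 ha0) hak)
    + (99005127966995376653/726320279494514523196) * (mul_nonneg (mul_nonneg hf0 hq0) hqs)
    + (40662173368789046960831/65368825154506307087640) * (mul_nonneg (mul_nonneg hf0 hf1) ha0)
    + (145085619780191078549/389100149729204208855) * (mul_nonneg (mul_nonneg hqs hak) hb0)
    + (145085619780191078549/389100149729204208855) * (mul_nonneg (mul_nonneg hf0 hqs) hb0)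
    + (6042633483980591045501/13073765030901261417528) * (mul_nonneg (mul_nonneg hp0 hq0) ha0)
    + (3660936872915650975511/32684412577253153543820) * (mul_nonneg (mul_nonneg hq0 ha0) hy0)
    + (3660936872915650975511/32684412577253153543820) * (mul_nonneg (mul_nonneg hH0 hqs) hak)
    + (3660936872915650975511/32684412577253153543820) * (mul_nonneg (mul_nonneg hf0 hH0) hqs)
    + (90082012611626579882/1167300449187612626565) * (mul_nonneg (mul_nonneg ha0 hb0) hb0)
    + (2701645463301823519127/5447402096208858923970) * (mul_nonneg (mul_nonneg hf0 hf1) hq0)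
    + (3349088612295644004727/6536882515450630708764) * (mul_nonneg (mul_nonneg hf0 hqs) hak)
    + (7026145513314255915073/32684412577253153543820) * (mul_nonneg (mul_nonneg hH1 hp0) hb0)
    + (2924399875235981459301/7263202794945145231960) * (mul_nonneg (mul_nonneg hp0 hp0) ha0)
    + (152845475186450756212837/435792167696708713917600) * (mul_nonneg hqs hy0)
    + (4671283336563010457351/10894804192417717847940) * (mul_nonneg (mul_nonneg hz1 hH1) hb0)
    + (3/2) * (mul_nonneg (mul_nonneg hz1 hqs) hy0)

theorem c3_up_b (z f H k s p q a b : ℝ)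
    (hz0 : 0 ≤ z-(1/10))
    (hz1 : 0 ≤ (1/4)-z)
    (hf0 : 0 ≤ f-(3/20))
    (hf1 : 0 ≤ (1/5)-f)
    (hH0 : 0 ≤ H)
    (hH1 : 0 ≤ f-H)
    (hp0 : 0 ≤ p)
    (hpk : 0 ≤ k-p)
    (hq0 : 0 ≤ q)
    (hqs : 0 ≤ s-q)
    (ha0 : 0 ≤ a)
    (hak : 0 ≤ (1/2+z-f)-k-a)
    (hb0 : 0 ≤ b)
    (hbs : 0 ≤ (1/2-z)-s-b)
    (hy0 : 0 ≤ 1/2+z-H-k-s)
    (hmd : 0 ≤ 1/4-z-q-b)
    (hmy : 0 ≤ 1/4+z-(1/2+z-H-k-s))
    (hu0 : 0 ≤ 2*z-(1/2+z-H-k-s))
    (hbud : 0 ≤ (z-2*z*f)-(H+(2*z-(1/2+z-H-k-s)))*(q+b)-(2*z-(1/2+z-H-k-s)+f-H)*(p+a)-(a+b)*(p+q)) :
    0 ≤ (k+s+(a+b))*((1/2-z)*((1/2)*(k+H)+(3/2)*(1/2+z-H-k-s))+(1/2)*(k*(p+2*a))+(1/2)*(f*(1-f)-z*(1-2*f))+z*z)-(1/2-z)*(2*k*(a+b)+2*H*((a+b)+p+q)) := by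
  linear_combination (2160175368559079967991/145137646356996204812302) * (mul_nonneg (mul_nonneg hpk hqs) hy0)
    + (2013160414937092951137007/105224793608822248488918950) * (hH1)
    + (460784680544152488514079/12626975233058669818670274) * (mul_nonneg (mul_nonneg hz1 hpk) hak)
    + (12181945397351229241266935/50507900932234679274681096) * (mul_nonneg hz0 hH1)
    + (22314432101376878859305/4208991744352889939556758) * (mul_nonneg hbud hH0)
    + (318269202977985605824053/2104495872176444969778379) * (mul_nonneg (mul_nonneg hpk hak) hbs)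
    + (243890457517829852782777/2104495872176444969778379) * (mul_nonneg (mul_nonneg hak hak) hu0)
    + (21117225920883243497757/2104495872176444969778379) * (mul_nonneg (mul_nonneg hqs hak) hak)
    + (22018294534388655516025/4208991744352889939556758) * (mul_nonneg (mul_nonneg hz0 hf1) hy0)
    + (400653247002449114592641/2104495872176444969778379) * (mul_nonneg (mul_nonneg hf1 hf1) hbs)
    + (16110528243774598186219861/84179834887057798791135160) * (mul_nonneg hz0 hu0)
    + (5786568454666170507746809/12626975233058669818670274) * (mul_nonneg (mul_nonneg hz0 hz0) hz0)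
    + (96078580762118158663282/10522479360882224848891895) * (hbud)
    + (3339462068597952999375371/6313487616529334909335137) * (mul_nonneg (mul_nonneg hz1 hf1) hp0)
    + (6586036899301503887943727/12626975233058669818670274) * (mul_nonneg (mul_nonneg hz1 hpk) hy0)
    + (8314118174839332700097422/18940462849588004728005411) * (mul_nonneg (mul_nonneg hz1 hz1) hak)
    + (1754179458182087599807320/2104495872176444969778379) * (mul_nonneg (mul_nonneg hz0 hz1) ha0)
    + (65748498499589753155294/2104495872176444969778379) * (mul_nonneg hbud hak)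
    + (436947452998296877847191/4208991744352889939556758) * (mul_nonneg (mul_nonneg hz0 hp0) hb0)
    + (8443539632741755105899331/42089917443528899395567580) * (mul_nonneg hpk hmd)
    + (470847714037705507038473/435412939070988614436906) * (mul_nonneg (mul_nonneg hz0 hpk) hb0)
    + (1061813710300076150975183/4208991744352889939556758) * (mul_nonneg (mul_nonneg hak hak) hb0)
    + (397329328601156583070567/16835966977411559758227032) * (mul_nonneg hmd hu0)
    + (2826536199412660466587541/4208991744352889939556758) * (mul_nonneg (mul_nonneg hz1 hak) hb0)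
    + (6505954338762463427533425/16835966977411559758227032) * (mul_nonneg (mul_nonneg hf0 ha0) hy0)
    + (10369818610802178469150683/4208991744352889939556758) * (mul_nonneg (mul_nonneg hz0 hf0) ha0)
    + (7061123616722100392945937/16835966977411559758227032) * (mul_nonneg (mul_nonneg ha0 hak) hy0)
    + (448468811891696096317747/6313487616529334909335137) * (mul_nonneg (mul_nonneg hz0 hf0) hq0)
    + (49391037754148304623571879/84179834887057798791135160) * (mul_nonneg hH1 hq0)
    + (2292393645340597412134489/84179834887057798791135160) * (mul_nonneg hp0 hmd)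
    + (6546664380098277719329029/84179834887057798791135160) * (mul_nonneg hq0 hy0)
    + (45627912438520212187202/339434818092974995125545) * (mul_nonneg hbs hu0)
    + (26170309858777556430389695/50507900932234679274681096) * (mul_nonneg (mul_nonneg hz1 ha0) hy0)
    + (2697165981316658144113143/21044958721764449697783790) * (mul_nonneg hf1 hbs)
    + (63029549001759163070373/4208991744352889939556758) * (mul_nonneg (mul_nonneg hpk hak) hak)
    + (970210011388678089308489/21044958721764449697783790) * (mul_nonneg hmd hmy)
    + (36270282995278221833795699/84179834887057798791135160) * (mul_nonneg hf0 hqs)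
    + (2518102748954896460464723/10522479360882224848891895) * (mul_nonneg hf1 hp0)
    + (6674309484460818225404301/16835966977411559758227032) * (mul_nonneg hf0 hpk)
    + (3823673888269458562441/4681859559903103381042) * (mul_nonneg (mul_nonneg hf1 hpk) ha0)
    + (187518507283625193438215/4208991744352889939556758) * (mul_nonneg (mul_nonneg hf0 hqs) ha0)
    + (8668252156974299193959197/6313487616529334909335137) * (mul_nonneg (mul_nonneg hz1 hH1) hp0)
    + (95391093389212457828123/4208991744352889939556758) * (mul_nonneg (mul_nonneg hp0 hak) hmd)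
    + (9480021459214474697518431/84179834887057798791135160) * (mul_nonneg hp0 hpk)
    + (799137909107584643695293/4208991744352889939556758) * (mul_nonneg (mul_nonneg hz1 hp0) hp0)
    + (932624519558963123413263/4208991744352889939556758) * (mul_nonneg (mul_nonneg hz1 hp0) hpk)
    + (266012085443161821823611/2104495872176444969778379) * (mul_nonneg (mul_nonneg hp0 hpk) hmd)
    + (1251431803079290045413771/2104495872176444969778379) * (mul_nonneg (mul_nonneg hz0 hpk) hu0)
    + (3884479528744594830968083/37880925699176009456010822) * (mul_nonneg (mul_nonneg hz0 hz0) hak)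
    + (1590390261070376197438102/10522479360882224848891895) * (mul_nonneg hpk hak)
    + (2578127818813568202205441/42089917443528899395567580) * (mul_nonneg hy0 hu0)
    + (41320056220222651383928379/25253950466117339637340548) * (mul_nonneg (mul_nonneg hz0 hpk) ha0)
    + (1336418445614652853925699/42089917443528899395567580) * (mul_nonneg hpk hy0)
    + (13533467066103525316136479/12626975233058669818670274) * (mul_nonneg (mul_nonneg hz0 hz1) hp0)
    + (2466433135884129911645668/6313487616529334909335137) * (mul_nonneg (mul_nonneg hz0 ha0) hmy)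
    + (87105152824305190822411/67886963618594999025109) * (mul_nonneg hbud hz1)
    + (2991305866915845940331081/12626975233058669818670274) * (mul_nonneg (mul_nonneg hz1 hpk) hbs)
    + (1687912378705022944782847/12626975233058669818670274) * (mul_nonneg (mul_nonneg hz0 hf0) hmy)
    + (242317594088127921376170/2104495872176444969778379) * (mul_nonneg (mul_nonneg hf1 hq0) ha0)
    + (374954278717127238512489/203660890855784997075327) * (mul_nonneg (mul_nonneg hz0 hz0) hf1)
    + (2858102788714798469268405/2104495872176444969778379) * (mul_nonneg (mul_nonneg hf1 hp0) ha0)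
    + (629164934876606896881763/2104495872176444969778379) * (mul_nonneg (mul_nonneg hp0 hp0) hmy)
    + (829530439512549088971854/2104495872176444969778379) * (mul_nonneg (mul_nonneg hf0 hpk) hak)
    + (221804416150462740535335/2104495872176444969778379) * (mul_nonneg (mul_nonneg hpk hak) hb0)
    + (3099596521436039236356653/8417983488705779879113516) * (mul_nonneg (mul_nonneg hz0 hp0) ha0)
    + (617262643737362738357693/4208991744352889939556758) * (mul_nonneg (mul_nonneg ha0 hak) hak)
    + (2284063357038431922083335/16835966977411559758227032) * (mul_nonneg (mul_nonneg hpk ha0) hu0)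
    + (3794585550366867316366639/4208991744352889939556758) * (mul_nonneg (mul_nonneg hH1 hp0) ha0)
    + (89298531954458203058086/2104495872176444969778379) * (mul_nonneg (mul_nonneg hf0 hf1) hqs)
    + (6048097721136262971120681/84179834887057798791135160) * (mul_nonneg hf1 hy0)
    + (43959476300073879171773/435412939070988614436906) * (mul_nonneg (mul_nonneg hz0 hf1) hH0)
    + (28161302020984783416251573/84179834887057798791135160) * (mul_nonneg ha0 hb0)
    + (839353700221194543406663/4208991744352889939556758) * (mul_nonneg (mul_nonneg hf0 hf1) hq0)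
    + (14560951679987940456811/72568823178498102406151) * (mul_nonneg (mul_nonneg hp0 hp0) hpk)
    + (663223022267355775499611/4208991744352889939556758) * (mul_nonneg (mul_nonneg hpk hpk) hmd)
    + (17458060792664314143072541/21044958721764449697783790) * (mul_nonneg hH1 hp0)
    + (9725007027764738987207217/84179834887057798791135160) * (mul_nonneg hH1 hpk)
    + (1986790346685855633090951/4208991744352889939556758) * (mul_nonneg (mul_nonneg hf1 hp0) hp0)
    + (316760389053278306909983/4208991744352889939556758) * (mul_nonneg (mul_nonneg hp0 hpk) hmy)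
    + (926531977286824729770605/4208991744352889939556758) * (mul_nonneg (mul_nonneg hz0 hf0) hb0)
    + (1553495826263378824999360/2104495872176444969778379) * (mul_nonneg (mul_nonneg hz1 hf1) hq0)
    + (119093983720947769526371/2104495872176444969778379) * (mul_nonneg (mul_nonneg hp0 hpk) hq0)
    + (35316421945529384045584727/84179834887057798791135160) * (mul_nonneg hH1 ha0)
    + (5760177811527460569441154/2104495872176444969778379) * (mul_nonneg (mul_nonneg hz1 hH1) ha0)
    + (2904783689722002956853029/12626975233058669818670274) * (mul_nonneg (mul_nonneg hz0 hf0) hqs)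
    + (1038188771473155378574357/2104495872176444969778379) * (mul_nonneg (mul_nonneg hz0 hz1) hq0)
    + (4770687357582249245321125/4208991744352889939556758) * (mul_nonneg (mul_nonneg hz1 hq0) ha0)
    + (1460099788426070129560261/4208991744352889939556758) * (mul_nonneg (mul_nonneg hz0 ha0) ha0)
    + (80939364295337366908033/135773927237189998050218) * (mul_nonneg (mul_nonneg hpk ha0) ha0)
    + (265389235878176645424108/10522479360882224848891895) * (mul_nonneg ha0 ha0)
    + (818420951097836201168681/2104495872176444969778379) * (mul_nonneg (mul_nonneg hf1 ha0) ha0)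
    + (5459918231028218584531829/16835966977411559758227032) * (mul_nonneg (mul_nonneg ha0 ha0) hy0)
    + (93771064393667072615131/4208991744352889939556758) * (mul_nonneg (mul_nonneg hf1 ha0) hbs)
    + (617647107050908582356327/4208991744352889939556758) * (mul_nonneg (mul_nonneg hp0 hpk) hpk)
    + (1726979236365166167157093/4208991744352889939556758) * (mul_nonneg (mul_nonneg hp0 ha0) hb0)
    + (880468876549256200359184/2104495872176444969778379) * (mul_nonneg (mul_nonneg hpk ha0) hb0)
    + (276549111553882608250754/2104495872176444969778379) * (mul_nonneg (mul_nonneg hpk hpk) hbs)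
    + (23538050171745499938063667/12626975233058669818670274) * (mul_nonneg (mul_nonneg hz0 hH0) hp0)
    + (823484131280011924426231/6313487616529334909335137) * (mul_nonneg (mul_nonneg hz0 hH0) hpk)
    + (2347913859874594950249630/2104495872176444969778379) * (mul_nonneg (mul_nonneg hz1 hz1) hmd)
    + (623959443479728136829837/4208991744352889939556758) * (mul_nonneg (mul_nonneg hf1 hp0) hb0)
    + (1723796352687496620469775/4208991744352889939556758) * (mul_nonneg (mul_nonneg hH1 hp0) hp0)
    + (1332652872711434158253525/4208991744352889939556758) * (mul_nonneg (mul_nonneg hH1 hp0) hpk)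
    + (24377575894805198596218707/42089917443528899395567580) * (mul_nonneg hH1 hb0)
    + (879121766107883392193057/4208991744352889939556758) * (mul_nonneg (mul_nonneg hf1 hpk) hq0)
    + (6807800231618110691178271/42089917443528899395567580) * (mul_nonneg hb0 hy0)
    + (13742299144623705621601969/84179834887057798791135160) * (mul_nonneg hpk hq0)
    + (31378068122550085660909/145137646356996204812302) * (mul_nonneg (mul_nonneg hf1 hp0) hq0)
    + (92129268335648272821789/2715478544743799961004360) * (mul_nonneg hq0 hb0)
    + (852606947460570821162309/2104495872176444969778379) * (mul_nonneg (mul_nonneg hf0 hf1) hp0)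
    + (184653638546625477143197/4208991744352889939556758) * (mul_nonneg (mul_nonneg hq0 hq0) ha0)
    + (282914013738748620757385/4208991744352889939556758) * (mul_nonneg (mul_nonneg hH1 hpk) hq0)
    + (46537479209589308379544/2104495872176444969778379) * (mul_nonneg (mul_nonneg hf1 hq0) hb0)
    + (81169603222624299141946/2104495872176444969778379) * (mul_nonneg (mul_nonneg hp0 hp0) hqs)
    + (109182564897802627451283/2104495872176444969778379) * (mul_nonneg (mul_nonneg hH1 hp0) hq0)
    + (2612196806952494283480142/2104495872176444969778379) * (mul_nonneg (mul_nonneg hz1 hq0) hb0)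
    + (109182564897802627451283/4208991744352889939556758) * (mul_nonneg (mul_nonneg hq0 hak) hb0)
    + (149508401732733563785863/4208991744352889939556758) * (mul_nonneg (mul_nonneg hpk hq0) hb0)
    + (531726025268176269189023/4208991744352889939556758) * (mul_nonneg (mul_nonneg hpk hpk) hq0)
    + (10922189705679483837095/4208991744352889939556758) * (mul_nonneg (mul_nonneg hz0 hp0) hq0)
    + (153811429100556385169893/4208991744352889939556758) * (mul_nonneg (mul_nonneg hp0 hq0) hbs)
    + (20410633846446832076225/4208991744352889939556758) * (mul_nonneg (mul_nonneg hpk hq0) hy0)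
    + (3521940532962899210076/67886963618594999025109) * (mul_nonneg (mul_nonneg hpk hq0) hbs)
    + (8527777344692213113999/4208991744352889939556758) * (mul_nonneg (mul_nonneg hq0 hqs) ha0)
    + (1462519567224812577960431/4208991744352889939556758) * (mul_nonneg (mul_nonneg hp0 hpk) ha0)
    + (184653638546625477143197/4208991744352889939556758) * (mul_nonneg (mul_nonneg hq0 ha0) hy0)
    + (533389785261484731757774/2104495872176444969778379) * (mul_nonneg (mul_nonneg hz1 hq0) hy0)
    + (3656661945374086868136385/4208991744352889939556758) * (mul_nonneg (mul_nonneg hz0 hz0) hqs)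
    + (684297074488797348353897/4208991744352889939556758) * (mul_nonneg (mul_nonneg hp0 hp0) hb0)
    + (4304228992865598743433407/16835966977411559758227032) * (mul_nonneg (mul_nonneg hp0 ha0) hu0)
    + (25265792485439755499276/2104495872176444969778379) * (mul_nonneg (mul_nonneg hz0 hf0) hH1)
    + (15255045629950978836751/145137646356996204812302) * (mul_nonneg (mul_nonneg hf1 hp0) hbs)
    + (658362223951290866567395/4208991744352889939556758) * (mul_nonneg (mul_nonneg hf0 hqs) hak)
    + (55022305748613557616369/145137646356996204812302) * (mul_nonneg (mul_nonneg hf0 hpk) hpk)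
    + (17036796866323951667960777/84179834887057798791135160) * (mul_nonneg hH1 hbs)
    + (15363233345483048066150367/84179834887057798791135160) * (mul_nonneg hqs hy0)
    + (1220326422579019015454404/2104495872176444969778379) * (mul_nonneg (mul_nonneg hp0 ha0) ha0)
    + (28012961675178328309337/2104495872176444969778379) * (mul_nonneg (mul_nonneg hH1 hq0) ha0)
    + (1655929286755726244944213/2104495872176444969778379) * (mul_nonneg (mul_nonneg hH1 hpk) ha0)
    + (1127516041204347231926353/4208991744352889939556758) * (mul_nonneg (mul_nonneg hz0 hH0) hb0)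
    + (19211019290000444775750/2104495872176444969778379) * (mul_nonneg (mul_nonneg hf0 hb0) hy0)
    + (511075353160107852898469/2104495872176444969778379) * (mul_nonneg (mul_nonneg hz0 hH0) hq0)
    + (10341813558723124669745/2104495872176444969778379) * (mul_nonneg (mul_nonneg hf0 hf1) hmy)
    + (4007709952847227258276583/42089917443528899395567580) * (mul_nonneg hf0 hf1)
    + (70760526317801737899783/4208991744352889939556758) * (mul_nonneg (mul_nonneg hH0 hak) hb0)
    + (1204815976337188324643445/2104495872176444969778379) * (mul_nonneg (mul_nonneg hf0 hak) hb0)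
    + (834405775811687670947763/4208991744352889939556758) * (mul_nonneg (mul_nonneg hz0 ha0) hmd)
    + (888082261459130157669081/4208991744352889939556758) * (mul_nonneg (mul_nonneg hH1 ha0) ha0)
    + (192231656772921999317/2104495872176444969778379) * (mul_nonneg (mul_nonneg hH0 hpk) hpk)
    + (550810464037418868635927/4208991744352889939556758) * (mul_nonneg (mul_nonneg hpk hpk) hy0)
    + (44631272578706509657537/2104495872176444969778379) * (mul_nonneg (mul_nonneg hq0 ha0) hak)
    + (192233467680557274721393/4208991744352889939556758) * (mul_nonneg (mul_nonneg hH1 ha0) hb0)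
    + (226888090388391964138711/4208991744352889939556758) * (mul_nonneg (mul_nonneg hp0 hp0) hp0)
    + (1426627756456493607223330/2104495872176444969778379) * (mul_nonneg (mul_nonneg hf0 hf1) ha0)
    + (147604603477803517002783/4208991744352889939556758) * (mul_nonneg (mul_nonneg hH1 hp0) hb0)
    + (64553700695048869732673/4208991744352889939556758) * (mul_nonneg (mul_nonneg hf0 hH0) hmd)
    + (109182564897802627451283/4208991744352889939556758) * (mul_nonneg (mul_nonneg hf0 hq0) hy0)
    + (153811429100556385169893/4208991744352889939556758) * (mul_nonneg (mul_nonneg hq0 ha0) hmd)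
    + (254232271076552977452522/2104495872176444969778379) * (mul_nonneg (mul_nonneg hf1 hf1) hH0)
    + (42479758894795098965522/2104495872176444969778379) * (mul_nonneg (mul_nonneg hpk hbs) hbs)
    + (69396159744954620676564/2104495872176444969778379) * (mul_nonneg (mul_nonneg hf1 hH0) ha0)
    + (1061813710300076150975183/4208991744352889939556758) * (mul_nonneg (mul_nonneg ha0 ha0) hbs)
    + (22314432101376878859305/4208991744352889939556758) * (mul_nonneg (mul_nonneg hpk hq0) hq0)
    + (29450585207174615430505/135773927237189998050218) * (mul_nonneg (mul_nonneg hz1 hb0) hy0)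
    + (243890457517829852782777/2104495872176444969778379) * (mul_nonneg (mul_nonneg hz0 hz0) hH1)
    + (617262643737362738357693/4208991744352889939556758) * (mul_nonneg (mul_nonneg ha0 ha0) hak)
    + (95391093389212457828123/4208991744352889939556758) * (mul_nonneg (mul_nonneg hpk hq0) ha0)
    + (3145586592213979015237916/2104495872176444969778379) * (mul_nonneg (mul_nonneg hz1 hqs) hy0)
    + (1041090720037534045459537/2104495872176444969778379) * (mul_nonneg (mul_nonneg hz0 hH1) hqs)
    + (1462519567224812577960431/4208991744352889939556758) * (mul_nonneg (mul_nonneg hp0 hp0) ha0)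
    + (22314432101376878859305/4208991744352889939556758) * (mul_nonneg (mul_nonneg hp0 hq0) hq0)
    + (2578127818813568202205441/42089917443528899395567580) * (mul_nonneg hH1 hy0)
    + (22314432101376878859305/4208991744352889939556758) * (mul_nonneg (mul_nonneg hp0 hqs) hu0)
    + (2160175368559079967991/145137646356996204812302) * (mul_nonneg (mul_nonneg hH1 hpk) hy0)
    + (487780915035659705565554/2104495872176444969778379) * (mul_nonneg (mul_nonneg hf0 hak) hmy)
    + (22314432101376878859305/4208991744352889939556758) * (mul_nonneg (mul_nonneg hf1 hH1) hp0)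
    + (2160175368559079967991/145137646356996204812302) * (mul_nonneg (mul_nonneg hH0 hH1) hpk)
    + (40165977782478381946749/16835966977411559758227032) * (mul_nonneg hq0 hmd)
    + (22314432101376878859305/4208991744352889939556758) * (mul_nonneg (mul_nonneg hf0 hqs) hqs)
    + (22314432101376878859305/4208991744352889939556758) * (mul_nonneg (mul_nonneg hqs hqs) hak)
    + (22314432101376878859305/4208991744352889939556758) * (mul_nonneg (mul_nonneg ha0 hu0) hu0)
    + (22314432101376878859305/4208991744352889939556758) * (mul_nonneg (mul_nonneg hH1 ha0) hmy)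
    + (22314432101376878859305/4208991744352889939556758) * (mul_nonneg (mul_nonneg hH0 hq0) hb0)
    + (22314432101376878859305/4208991744352889939556758) * (mul_nonneg (mul_nonneg hH0 hqs) hb0)
    + (22314432101376878859305/4208991744352889939556758) * (mul_nonneg (mul_nonneg hH1 hq0) hbs)
    + (22314432101376878859305/2104495872176444969778379) * (mul_nonneg (mul_nonneg hH1 hH1) hq0)
    + (19211019290000444775750/2104495872176444969778379) * (mul_nonneg (mul_nonneg hf0 hqs) hb0)
    + (65748498499589753155294/2104495872176444969778379) * (mul_nonneg (mul_nonneg hqs hak) hb0)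
    + (84959517789590197931044/2104495872176444969778379) * (mul_nonneg (mul_nonneg hpk hb0) hy0)
    + (42479758894795098965522/2104495872176444969778379) * (mul_nonneg (mul_nonneg hpk hb0) hmd)
    + (22314432101376878859305/2104495872176444969778379) * (mul_nonneg (mul_nonneg hH1 hH1) hb0)
    + (22314432101376878859305/4208991744352889939556758) * (mul_nonneg (mul_nonneg hz0 hq0) hmd)

theorem c3h_up (z f k s p q a b : ℝ)
    (hz0 : 0 ≤ z-0)
    (hz1 : 0 ≤ (1/4)-z)
    (hf0 : 0 ≤ f-(3/20))
    (hf1 : 0 ≤ (1/5)-f)
    (hp0 : 0 ≤ p)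
    (hpk : 0 ≤ k-p)
    (hq0 : 0 ≤ q)
    (hqs : 0 ≤ s-q)
    (ha0 : 0 ≤ a)
    (hak : 0 ≤ (1/2+z-f)-k-a)
    (hb0 : 0 ≤ b)
    (hbs : 0 ≤ (1/2-z)-s-b)
    (hy0 : 0 ≤ 1/2+z-0-k-s)
    (hu0 : 0 ≤ 2*z-(1/2+z-0-k-s))
    (hmy : 0 ≤ 1/4+z-(1/2+z-0-k-s))
    (hbud : 0 ≤ (z-2*z*f)-(0+(2*z-(1/2+z-0-k-s)))*(q+b)-(2*z-(1/2+z-0-k-s)+f-0)*(p+a)-(a+b)*(p+q)) :
    0 ≤ (k+s+(a+b))*((1/2-z)*((1/2)*(k+0)+(3/2)*(1/2+z-0-k-s))+(1/2)*(k*(p+2*a))+(1/2)*(f*(1-f)-z*(1-2*f))+z*z)-(1/2-z)*(2*k*(a+b)+2*0*((a+b)+p+q)) := by
  linear_combination (258389/658560) * (mul_nonneg hak hb0)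
    + (8559/17150) * (mul_nonneg (mul_nonneg hz1 hb0) hy0)
    + (4387/3430) * (mul_nonneg (mul_nonneg hz1 hak) hb0)
    + (308279/1646400) * (mul_nonneg hb0 hy0)
    + (479797/940800) * (mul_nonneg ha0 hy0)
    + (81161/235200) * (mul_nonneg hz1 ha0)
    + (12547/31360) * (mul_nonneg hbs hmy)
    + (713/18816) * (hbud)
    + (967/9408) * (hbs)
    + (14173/188160) * (hak)
    + (2963/47040) * (mul_nonneg hak hmy)
    + (1639/18816) * (mul_nonneg ha0 hak)
    + (48943/235200) * (mul_nonneg (mul_nonneg hz1 ha0) hy0)
    + (1639/18816) * (mul_nonneg hak hu0)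
    + (1721/6720) * (mul_nonneg hz1 hy0)
    + (8797/47040) * (mul_nonneg hy0 hmy)
    + (7769/18816) * (mul_nonneg hz0 hf0)
    + (97/350) * (mul_nonneg (mul_nonneg hz1 hz1) hb0)
    + (4139/94080) * (mul_nonneg hz0 hu0)
    + (23/40) * (mul_nonneg hf0 ha0)
    + (1/2) * (mul_nonneg (mul_nonneg hz1 ha0) hak)
    + (127457/117600) * (mul_nonneg (mul_nonneg hz0 ha0) hmy)
    + (48943/235200) * (mul_nonneg (mul_nonneg hz0 ha0) hu0)
    + (16909/125440) * (hf0)
    + (713/18816) * (mul_nonneg hf0 hpk)
    + (14899/31360) * (mul_nonneg hf0 hmy)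
    + (713/18816) * (mul_nonneg hq0 ha0)
    + (713/9408) * (mul_nonneg hz0 hq0)
    + (713/18816) * (mul_nonneg hqs hy0)
    + (1639/18816) * (mul_nonneg ha0 ha0)
    + (1/2) * (mul_nonneg (mul_nonneg hz1 ha0) ha0)
    + (1/2) * (mul_nonneg (mul_nonneg hz0 hf0) ha0)
    + (258389/658560) * (mul_nonneg ha0 hb0)
    + (4387/3430) * (mul_nonneg (mul_nonneg hz1 ha0) hb0)
    + (637061/658560) * (mul_nonneg hf0 hb0)
    + (957/3430) * (mul_nonneg (mul_nonneg hz1 hf0) hb0)
    + (379/1715) * (mul_nonneg (mul_nonneg hz0 hp0) hb0)
    + (713/18816) * (mul_nonneg hq0 hb0)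
    + (379/1715) * (mul_nonneg (mul_nonneg hz0 hpk) hb0)
    + (8583/8575) * (mul_nonneg (mul_nonneg hz0 hb0) hu0)
    + (713/37632) * (hp0)
    + (713/18816) * (mul_nonneg hf0 hp0)
    + (1/8) * (mul_nonneg hp0 hpk)
    + (713/18816) * (mul_nonneg hpk hak)
    + (1/8) * (mul_nonneg hp0 hp0)
    + (713/18816) * (mul_nonneg hz0 hp0)
    + (713/18816) * (mul_nonneg hpk hbs)
    + (1/2) * (mul_nonneg (mul_nonneg hp0 hp0) hmy)
    + (1/2) * (mul_nonneg (mul_nonneg hp0 hpk) hmy)
    + (1/1) * (mul_nonneg (mul_nonneg hp0 ha0) ha0)
    + (1/1) * (mul_nonneg (mul_nonneg hpk ha0) ha0)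
    + (1/2) * (mul_nonneg (mul_nonneg hf0 hf1) hb0)
    + (1/2) * (mul_nonneg (mul_nonneg hp0 hp0) ha0)
    + (1/2) * (mul_nonneg (mul_nonneg hp0 hpk) ha0)
    + (1/1) * (mul_nonneg (mul_nonneg hp0 ha0) hu0)
    + (1/1) * (mul_nonneg (mul_nonneg hpk ha0) hu0)
    + (1/2) * (mul_nonneg (mul_nonneg hf0 hf1) ha0)
    + (1/1) * (mul_nonneg (mul_nonneg hz0 hf0) hmy)
    + (1/2) * (mul_nonneg (mul_nonneg hz0 hq0) hmy)
    + (1/2) * (mul_nonneg (mul_nonneg hz0 hqs) hmy)
    + (1/2) * (mul_nonneg (mul_nonneg hz0 hmy) hmy)
    + (1/2) * (mul_nonneg (mul_nonneg hz1 hy0) hmy)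
    + (1/1) * (mul_nonneg (mul_nonneg hp0 ha0) hb0)
    + (1/1) * (mul_nonneg (mul_nonneg hpk ha0) hb0)
    + (1/2) * (mul_nonneg (mul_nonneg hp0 hp0) hb0)
    + (1/2) * (mul_nonneg (mul_nonneg hp0 hpk) hb0)
    + (1/8) * (mul_nonneg hf0 hf1)
    + (1/2) * (mul_nonneg (mul_nonneg hf0 hf1) hmy)

theorem c3_um_a (z f H k s p q a b : ℝ)
    (hz0 : 0 ≤ z-0)
    (hz1 : 0 ≤ (1/10)-z)
    (hf0 : 0 ≤ f-(3/20))
    (hf1 : 0 ≤ (1/5)-f)
    (hH0 : 0 ≤ H)
    (hH1 : 0 ≤ f-H)
    (hp0 : 0 ≤ p)
    (hpk : 0 ≤ k-p)
    (hq0 : 0 ≤ q)
    (hqs : 0 ≤ s-q)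
    (ha0 : 0 ≤ a)
    (hak : 0 ≤ (1/2+z-f)-k-a)
    (hb0 : 0 ≤ b)
    (hbs : 0 ≤ (1/2-z)-s-b)
    (hy0 : 0 ≤ 1/2+z-H-k-s)
    (hmd : 0 ≤ 1/4-z-q-b)
    (hmy : 0 ≤ 1/4+z-(1/2+z-H-k-s))
    (hu1 : 0 ≤ -(2*z-(1/2+z-H-k-s)))
    (hbud000 : 0 ≤ (z-2*z*f)-H*(q+b))
    (hbud001 : 0 ≤ (z-2*z*f)-H*(q+b)-q*((2*z-(1/2+z-H-k-s))+(a+b)))
    (hbud100 : 0 ≤ (z-2*z*f)-H*(q+b)-p*((2*z-(1/2+z-H-k-s)+f-H)+(a+b)))
    (hbud101 : 0 ≤ (z-2*z*f)-H*(q+b)-p*((2*z-(1/2+z-H-k-s)+f-H)+(a+b))-q*((2*z-(1/2+z-H-k-s))+(a+b))) :
    0 ≤ (k+s+(a+b))*((1/2-z)*((1/2)*(k+H)+(3/2)*(1/2+z-H-k-s))+(1/2)*(k*(p+2*a))+(1/2)*(f*(1-f)-z*(1-2*f))+z*z)-(1/2-z)*(2*k*(a+b)+2*H*((a+b)+p+q)) := by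
  linear_combination (2055178284985483647217561/4731125844750878873376795) * (mul_nonneg (mul_nonneg hz1 hak) hmy)
    + (37258745657037891151071721/151396027032028123948057440) * (mul_nonneg hH1 hq0)
    + (233490804604878249781895/946225168950175774675359) * (mul_nonneg (mul_nonneg hf1 hy0) hy0)
    + (13593250366968281120071819/28386755068505273240260770) * (mul_nonneg (mul_nonneg hf1 hH1) hq0)
    + (30538742876324168188251901/28386755068505273240260770) * (mul_nonneg (mul_nonneg hz0 hz0) hz0)
    + (669156936374420215013786693/4541880810960843718441723200) * (mul_nonneg hq0 hb0)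
    + (558078289791200199501213857/908376162192168743688344640) * (mul_nonneg (mul_nonneg hpk hb0) hu1)
    + (356442121599773780102867/4731125844750878873376795) * (mul_nonneg (mul_nonneg hmy hu1) hu1)
    + (326864422918333461573650099/605584108128112495792229760) * (mul_nonneg (mul_nonneg hb0 hu1) hu1)
    + (17185385205121710717708119/113547020274021092961043080) * (mul_nonneg (mul_nonneg hz1 hqs) hak)
    + (32087870652513967951439/7569801351601406197402872) * (mul_nonneg (mul_nonneg hf0 hf1) hq0)
    + (3595049236978706974776991/2838675506850527324026077) * (mul_nonneg (mul_nonneg hz0 hz1) hH1)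
    + (279333205914331034807157/1261633558600234366233812) * (mul_nonneg hbud000 hz0)
    + (15442487114943991294481/11354702027402109296104308) * (mul_nonneg hbud001 hpk)
    + (15837450953467212749630411/113547020274021092961043080) * (mul_nonneg (mul_nonneg hH1 hq0) hmd)
    + (4364849000761593917225801/22709404054804218592208616) * (mul_nonneg (mul_nonneg hf1 hq0) hu1)
    + (3971754510096821346929887/11354702027402109296104308) * (mul_nonneg (mul_nonneg hH1 hpk) hq0)
    + (2134090007859375025954457/18924503379003515493507180) * (mul_nonneg (mul_nonneg hqs hbs) hmd)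
    + (63976744429301429462156/1577041948250292957792265) * (mul_nonneg (mul_nonneg hak hak) hmy)
    + (1261190573061149286811351/11354702027402109296104308) * (mul_nonneg hbud000 hpk)
    + (1205093415527748124456963/4731125844750878873376795) * (mul_nonneg (mul_nonneg hak hmy) hu1)
    + (291553809632763419048418403/2270940405480421859220861600) * (mul_nonneg hf1 hp0)
    + (6224297971334431328794541/18924503379003515493507180) * (mul_nonneg (mul_nonneg hz1 hf0) hpk)
    + (36022164155414529239047559/12616335586002343662338120) * (mul_nonneg (mul_nonneg hz1 hf1) hp0)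
    + (524875326723738141297313/4811314418390724278010300) * (mul_nonneg hq0 hu1)
    + (16789458269245380184828889/56773510137010546480521540) * (mul_nonneg (mul_nonneg hq0 hy0) hu1)
    + (3961472579974695732070609/56773510137010546480521540) * (mul_nonneg (mul_nonneg hq0 hu1) hu1)
    + (640166501586620061716546/4731125844750878873376795) * (mul_nonneg (mul_nonneg hak hmd) hmy)
    + (1369721371178110480524929/18924503379003515493507180) * (mul_nonneg (mul_nonneg hf0 hH1) hb0)
    + (2826927397750549396658677/11354702027402109296104308) * (mul_nonneg (mul_nonneg hpk hak) hbs)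
    + (954291814126675321018745383/1816752324384337487376689280) * (mul_nonneg (mul_nonneg hb0 hy0) hu1)
    + (3520105331056008413913101/113547020274021092961043080) * (mul_nonneg (mul_nonneg hf1 hp0) hmd)
    + (940282397246304320273956/14193377534252636620130385) * (mul_nonneg (mul_nonneg hf0 hpk) hmd)
    + (412498896435700462859098/4731125844750878873376795) * (mul_nonneg (mul_nonneg hH1 hpk) hbs)
    + (3116913428702336424351629/18924503379003515493507180) * (mul_nonneg (mul_nonneg hak hak) hb0)
    + (522562713986182326916238/1577041948250292957792265) * (mul_nonneg (mul_nonneg hp0 hmy) hmy)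
    + (4933984702077197132621423/2838675506850527324026077) * (mul_nonneg hbud101 hz1)
    + (64816871706664795622012321/28386755068505273240260770) * (mul_nonneg (mul_nonneg hz1 hpk) hmd)
    + (15679918104954113985269846/14193377534252636620130385) * (mul_nonneg hbud100 hmy)
    + (1651316724573699604117337/56773510137010546480521540) * (mul_nonneg (mul_nonneg hp0 hu1) hu1)
    + (2648737621136510252093873/11354702027402109296104308) * (mul_nonneg (mul_nonneg hpk hak) hmy)
    + (34549110400558255192996127/378490067580070309870143600) * (mul_nonneg hpk hu1)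
    + (342471905978542305608620/946225168950175774675359) * (mul_nonneg (mul_nonneg hp0 hp0) hmy)
    + (382094997131996796043425/1261633558600234366233812) * (mul_nonneg (mul_nonneg hak hb0) hu1)
    + (17718346656090196233965/630816779300117183116906) * (mul_nonneg hbud001 hp0)
    + (175946076325860060126501203/113547020274021092961043080) * (mul_nonneg (mul_nonneg hH1 hp0) ha0)
    + (118204817841150982563920243/378490067580070309870143600) * (mul_nonneg hf0 hpk)
    + (2502528790935527685632871/12616335586002343662338120) * (mul_nonneg (mul_nonneg hpk hpk) hq0)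
    + (17310383251751229313618217/75698013516014061974028720) * (mul_nonneg hpk hak)
    + (53324957663422555367851261/56773510137010546480521540) * (mul_nonneg (mul_nonneg hf1 hpk) ha0)
    + (5315470000246075269927049/18924503379003515493507180) * (mul_nonneg (mul_nonneg hpk hmd) hmy)
    + (3432741200980264215766153/113547020274021092961043080) * (mul_nonneg (mul_nonneg hqs ha0) hak)
    + (38157047126322090618637753/113547020274021092961043080) * (mul_nonneg (mul_nonneg hf0 hH1) ha0)
    + (90597759680571715385041/4731125844750878873376795) * (mul_nonneg hbud001 hf1)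
    + (5426968691818580683915113/12616335586002343662338120) * (mul_nonneg (mul_nonneg hH1 hq0) hy0)
    + (21528192176648735987498929/14193377534252636620130385) * (mul_nonneg (mul_nonneg hz0 hf1) hy0)
    + (9544938775079597121818359/28386755068505273240260770) * (mul_nonneg (mul_nonneg hf0 hq0) hqs)
    + (8896315601135385917479261/22709404054804218592208616) * (mul_nonneg (mul_nonneg hpk hq0) hu1)
    + (177003522691008386292907/3784900675800703098701436) * (mul_nonneg hbud000 hp0)
    + (17924189004432929975117953/113547020274021092961043080) * (mul_nonneg (mul_nonneg hH1 hH1) hq0)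
    + (2072691024256219094352617/28386755068505273240260770) * (mul_nonneg (mul_nonneg hp0 hpk) hqs)
    + (480307279375206158627717887/1135470202740210929610430800) * (mul_nonneg hH1 ha0)
    + (4525228218863803246081636/4731125844750878873376795) * (mul_nonneg (mul_nonneg hz1 hpk) hak)
    + (2086731866847166747548524/4731125844750878873376795) * (mul_nonneg (mul_nonneg hp0 hak) hu1)
    + (4656185700331502357110931/14193377534252636620130385) * (mul_nonneg (mul_nonneg hf1 hp0) hbs)
    + (6410882129495146303487411/9462251689501757746753590) * (mul_nonneg (mul_nonneg hH1 hp0) hpk)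
    + (332572206559991843820078551/378490067580070309870143600) * (mul_nonneg hH1 hp0)
    + (30034009952278195199634605/22709404054804218592208616) * (mul_nonneg (mul_nonneg hz1 hqs) hu1)
    + (9395659601774950862684965/5677351013701054648052154) * (mul_nonneg (mul_nonneg hz1 hpk) hq0)
    + (1570705655495749858230971/11354702027402109296104308) * (mul_nonneg (mul_nonneg hz0 hp0) hqs)
    + (199273593103438261092119/9462251689501757746753590) * (mul_nonneg (mul_nonneg hq0 hqs) hak)
    + (7644751062180532772382299/28386755068505273240260770) * (mul_nonneg (mul_nonneg hz1 hpk) hbs)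
    + (4934799612574935705006001/14193377534252636620130385) * (mul_nonneg (mul_nonneg hz0 hz0) hy0)
    + (42561807501560785762039781/227094040548042185922086160) * (mul_nonneg (mul_nonneg hq0 hqs) hy0)
    + (64208292177828007543157041/113547020274021092961043080) * (mul_nonneg (mul_nonneg hz0 hH1) hqs)
    + (2088632860536821729173589/9462251689501757746753590) * (mul_nonneg hbud000 hmy)
    + (816444984675110372710018/4731125844750878873376795) * (mul_nonneg (mul_nonneg hz0 hf1) hbs)
    + (4000192805828388638349242/4731125844750878873376795) * (mul_nonneg (mul_nonneg hf0 hak) hb0)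
    + (15560892813784346407718797/37849006758007030987014360) * (mul_nonneg (mul_nonneg ha0 hu1) hu1)
    + (75544535395484126880810701/151396027032028123948057440) * (mul_nonneg (mul_nonneg hz0 hp0) hb0)
    + (14690186315321945731408387/28386755068505273240260770) * (mul_nonneg (mul_nonneg hz0 hz0) hH0)
    + (441549573763894661058545/11354702027402109296104308) * (mul_nonneg (mul_nonneg hz1 hH0) hqs)
    + (131306694690222352706653891/1135470202740210929610430800) * (mul_nonneg hqs hak)
    + (657679455758641039618019/1261633558600234366233812) * (mul_nonneg hf0 hqs)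
    + (100718306052768325744437373/378490067580070309870143600) * (mul_nonneg hH1 hpk)
    + (168842479604416769875913/1261633558600234366233812) * (mul_nonneg (mul_nonneg hp0 hak) hak)
    + (5195797597780303304735507/18924503379003515493507180) * (mul_nonneg (mul_nonneg hf1 hH0) hp0)
    + (112196219546727495803801753/28386755068505273240260770) * (mul_nonneg (mul_nonneg hz1 hH1) hp0)
    + (735170950868010182283661/6308167793001171831169060) * (mul_nonneg (mul_nonneg hH1 hq0) hu1)
    + (89490696632680027847743/1892450337900351549350718) * (mul_nonneg (mul_nonneg hf0 hf1) hb0)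
    + (134528558243953351207697273/908376162192168743688344640) * (mul_nonneg (mul_nonneg hz1 hb0) hy0)
    + (6340591745898793490176643/11354702027402109296104308) * (mul_nonneg hz0 hH1)
    + (438061936357368888977/630816779300117183116906) * (mul_nonneg hbud000 hH1)
    + (23977215550430049493891991/113547020274021092961043080) * (mul_nonneg (mul_nonneg hpk hq0) hbs)
    + (121198013449415470487618029/1135470202740210929610430800) * (mul_nonneg hH1 hb0)
    + (9212903952117555206191529/9462251689501757746753590) * (mul_nonneg (mul_nonneg ha0 hak) hu1)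
    + (459273898735881077807813/7569801351601406197402872) * (mul_nonneg (mul_nonneg hz0 hqs) ha0)
    + (27085734135922353195187957/113547020274021092961043080) * (mul_nonneg (mul_nonneg ha0 hak) hak)
    + (405952744927255710752505/630816779300117183116906) * (mul_nonneg (mul_nonneg hz1 hz1) hz1)
    + (459081875037468921772353/630816779300117183116906) * (mul_nonneg (mul_nonneg hz1 hz1) hu1)
    + (470025248840390455250393/4731125844750878873376795) * (mul_nonneg (mul_nonneg hf1 hf1) hu1)
    + (1106387026997464199408639/7885209741251464788961325) * (mul_nonneg hf1 hu1)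
    + (5201991604051447800596617/50465342344009374649352480) * (mul_nonneg (mul_nonneg hz1 hq0) hb0)
    + (741477828844889036966949/6308167793001171831169060) * (mul_nonneg (mul_nonneg hpk hpk) hu1)
    + (7457778336351041780894821/113547020274021092961043080) * (mul_nonneg (mul_nonneg hf0 hq0) hb0)
    + (6989304667693428583766449/56773510137010546480521540) * (mul_nonneg (mul_nonneg hH1 hq0) hbs)
    + (144408714076668249303406871/454188081096084371844172320) * (mul_nonneg (mul_nonneg hz0 hH0) hb0)
    + (249740108697943899089983/14193377534252636620130385) * (mul_nonneg (mul_nonneg hf0 hpk) hbs)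
    + (10640156839404443389247881/37849006758007030987014360) * (mul_nonneg (mul_nonneg hf1 hp0) hb0)
    + (26394193212748004931030761/11354702027402109296104308) * (mul_nonneg (mul_nonneg hf1 hp0) ha0)
    + (19272251930511110174894695/22709404054804218592208616) * (mul_nonneg (mul_nonneg hH1 hpk) ha0)
    + (68004120256178445385341541/56773510137010546480521540) * (mul_nonneg (mul_nonneg hf1 ha0) hmy)
    + (176726094988084009480429/946225168950175774675359) * (mul_nonneg (mul_nonneg hf1 hH0) ha0)
    + (432725969804479446686338/4731125844750878873376795) * (mul_nonneg (mul_nonneg hf0 hq0) hak)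
    + (9114422857073027491742653/3784900675800703098701436) * (mul_nonneg (mul_nonneg hz1 hH1) ha0)
    + (19920802932316346992405/315408389650058591558453) * (mul_nonneg hbud100 hp0)
    + (3051847533690261741095411/11354702027402109296104308) * (mul_nonneg (mul_nonneg hpk hpk) hbs)
    + (25640303064994975084025231/113547020274021092961043080) * (mul_nonneg (mul_nonneg hH1 hp0) hq0)
    + (17233074180289240564957679/18924503379003515493507180) * (mul_nonneg (mul_nonneg hz0 hf0) hb0)
    + (83160217826421159661949311/227094040548042185922086160) * (mul_nonneg (mul_nonneg hq0 hqs) hu1)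
    + (26795659306029002131622035/22709404054804218592208616) * (mul_nonneg (mul_nonneg hq0 hb0) hu1)
    + (40087277664194048397905561/56773510137010546480521540) * (mul_nonneg (mul_nonneg hpk ha0) hy0)
    + (10989355791899610975754819/18924503379003515493507180) * (mul_nonneg (mul_nonneg hf0 hpk) hpk)
    + (112460067969856172218367/5677351013701054648052154) * (mul_nonneg (mul_nonneg hpk hpk) hak)
    + (1527104102397853229001229/18924503379003515493507180) * (mul_nonneg (mul_nonneg hf0 hH0) hpk)
    + (12070166292213054969068017/28386755068505273240260770) * (mul_nonneg (mul_nonneg hH0 hpk) hak)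
    + (134857449738966398685129497/283867550685052732402607700) * (mul_nonneg hqs hu1)
    + (3552882476140175711948948/946225168950175774675359) * (mul_nonneg (mul_nonneg hz0 hf0) ha0)
    + (16757595638878941059441719/37849006758007030987014360) * (mul_nonneg (mul_nonneg hp0 hpk) hq0)
    + (911535034567215234900053/5677351013701054648052154) * (mul_nonneg (mul_nonneg hp0 hp0) hqs)
    + (22577232875735061559628099/283867550685052732402607700) * (mul_nonneg hp0 hpk)
    + (152319312030604669925771/56773510137010546480521540) * (mul_nonneg (mul_nonneg hH0 hqs) hmd)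
    + (196009222125527966915238989/3027920540640562478961148800) * (mul_nonneg hb0 hu1)
    + (3239276512640125120393589/14193377534252636620130385) * (mul_nonneg (mul_nonneg hz0 hz0) hmd)
    + (155365103677533076501453/315408389650058591558453) * (mul_nonneg (mul_nonneg hH0 hH1) hp0)
    + (15513587670847857818792729/56773510137010546480521540) * (mul_nonneg (mul_nonneg hH1 hp0) hmy)
    + (7839223848736643237753173/18924503379003515493507180) * (mul_nonneg (mul_nonneg hp0 hqs) hmy)
    + (8137797976327003928996359/113547020274021092961043080) * (mul_nonneg (mul_nonneg hpk hq0) hb0)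
    + (208492862501060445776856589/302792054064056247896114880) * (mul_nonneg (mul_nonneg hqs hb0) hy0)
    + (2536823295050307008993461/11354702027402109296104308) * (mul_nonneg (mul_nonneg hf0 hqs) hb0)
    + (1351624107219756778997951/4731125844750878873376795) * (mul_nonneg (mul_nonneg hqs hak) hb0)
    + (294679170025815018024425/1892450337900351549350718) * (mul_nonneg (mul_nonneg hH1 hH1) hb0)
    + (1064050979690993305504861/12616335586002343662338120) * (mul_nonneg (mul_nonneg hq0 hq0) hy0)
    + (14039809156564037613731987/37849006758007030987014360) * (mul_nonneg (mul_nonneg hf1 hq0) hmd)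
    + (686175517534714959762073/3154083896500585915584530) * (mul_nonneg (mul_nonneg hf0 hq0) hq0)
    + (1929775308312311483013913/7569801351601406197402872) * (mul_nonneg (mul_nonneg hH0 hq0) hqs)
    + (168842479604416769875913/1261633558600234366233812) * (mul_nonneg (mul_nonneg hq0 hq0) hak)
    + (2698667586641052187114937/7569801351601406197402872) * (mul_nonneg (mul_nonneg hq0 hq0) hu1)
    + (2368702826055864324303039/63081677930011718311690600) * (mul_nonneg ha0 ha0)
    + (16081766091226114250994799/28386755068505273240260770) * (mul_nonneg (mul_nonneg hpk ha0) ha0)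
    + (12304988977279158989265971/28386755068505273240260770) * (mul_nonneg (mul_nonneg hf1 ha0) ha0)
    + (2354943211154315991724753/18924503379003515493507180) * (mul_nonneg (mul_nonneg ha0 ha0) hy0)
    + (15779458396840037336669827/22709404054804218592208616) * (mul_nonneg (mul_nonneg ha0 ha0) hu1)
    + (5669599447072083435926771/113547020274021092961043080) * (mul_nonneg (mul_nonneg hq0 hqs) ha0)
    + (90814491580948435778375797/113547020274021092961043080) * (mul_nonneg (mul_nonneg hq0 ha0) hu1)
    + (44442043951107297686470609/113547020274021092961043080) * (mul_nonneg hbud000 ha0)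
    + (234720078483878902858574/14193377534252636620130385) * (mul_nonneg (mul_nonneg ha0 hb0) hy0)
    + (10604349819966656107225541/113547020274021092961043080) * (mul_nonneg (mul_nonneg hz0 hqs) hqs)
    + (42449211129445289933254963/189245033790035154935071800) * (mul_nonneg ha0 hb0)
    + (7717903289406699603142969/56773510137010546480521540) * (mul_nonneg (mul_nonneg ha0 hb0) hbs)
    + (4143114338372673357932161/28386755068505273240260770) * (mul_nonneg (mul_nonneg hz0 ha0) hb0)
    + (24445628893045528898846629/56773510137010546480521540) * (mul_nonneg (mul_nonneg hpk hpk) hmd)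
    + (97576743097100494615123957/302792054064056247896114880) * (mul_nonneg (mul_nonneg hpk hb0) hy0)
    + (444400274314906516785092009/908376162192168743688344640) * (mul_nonneg (mul_nonneg hqs hb0) hu1)
    + (1139893887491215976815049/6308167793001171831169060) * (mul_nonneg (mul_nonneg hz1 hp0) hpk)
    + (10822652772328445015739146/14193377534252636620130385) * (mul_nonneg (mul_nonneg hp0 hpk) hmd)
    + (955667168398704267092995/22709404054804218592208616) * (mul_nonneg (mul_nonneg hH1 hq0) ha0)
    + (49233443087434592969161/1577041948250292957792265) * (mul_nonneg hbud000 hf1)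
    + (387279008211973098374288/946225168950175774675359) * (mul_nonneg (mul_nonneg hf0 hH0) hqs)
    + (315775236290140054105883/1892450337900351549350718) * (mul_nonneg hH1 hy0)
    + (788592563308923512415217/1892450337900351549350718) * (mul_nonneg (mul_nonneg hf0 hpk) hak)
    + (243438802884028893652453/113547020274021092961043080) * (mul_nonneg (mul_nonneg hq0 hqs) hb0)
    + (2185942565567454074400047/12616335586002343662338120) * (mul_nonneg (mul_nonneg hH1 ha0) hmy)
    + (155365103677533076501453/315408389650058591558453) * (mul_nonneg (mul_nonneg hH0 hH1) ha0)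
    + (999353764443763821228377/5677351013701054648052154) * (mul_nonneg (mul_nonneg hz0 hz0) hak)
    + (1301196702077982498085531/1577041948250292957792265) * (mul_nonneg (mul_nonneg hf1 hp0) hp0)
    + (788592563308923512415217/1892450337900351549350718) * (mul_nonneg (mul_nonneg hf0 hf1) hqs)
    + (7732433236709632585762/315408389650058591558453) * (mul_nonneg (mul_nonneg hf0 hf1) hmy)
    + (78816302820626131130071/946225168950175774675359) * (mul_nonneg (mul_nonneg hf0 hH0) hH1)
    + (216026690735880277725187/4731125844750878873376795) * (mul_nonneg hf1 hH1)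
    + (18474139494228333591653513/113547020274021092961043080) * (mul_nonneg (mul_nonneg hq0 hq0) ha0)
    + (1163117926135098107216425/1261633558600234366233812) * (mul_nonneg (mul_nonneg hH1 hp0) hp0)
    + (155365103677533076501453/315408389650058591558453) * (mul_nonneg (mul_nonneg hH0 hqs) hak)
    + (4625004633036179001271553/18924503379003515493507180) * (mul_nonneg (mul_nonneg hp0 hpk) hpk)
    + (471034520751550418081657/5677351013701054648052154) * (mul_nonneg (mul_nonneg hp0 hpk) hak)
    + (2083712565431097334458173/3784900675800703098701436) * (mul_nonneg (mul_nonneg hf0 hf1) hp0)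
    + (212651935047213986144/26729524546615134877835) * (mul_nonneg (mul_nonneg hf0 hqs) hy0)
    + (303487752694679540916889/11354702027402109296104308) * (mul_nonneg (mul_nonneg hp0 hqs) hak)
    + (976694436590888170469371/1892450337900351549350718) * (mul_nonneg (mul_nonneg hf0 ha0) hb0)
    + (8400546712668777134458167/12616335586002343662338120) * (mul_nonneg (mul_nonneg hqs ha0) hy0)
    + (2609595770008055809875839/22709404054804218592208616) * (mul_nonneg (mul_nonneg hq0 hq0) hb0)
    + (12201629139925499029434725/11354702027402109296104308) * (mul_nonneg (mul_nonneg hf0 hf1) ha0)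
    + (24565620600253473857573513/56773510137010546480521540) * (mul_nonneg (mul_nonneg hp0 ha0) ha0)
    + (29006237372293898480184671/113547020274021092961043080) * (mul_nonneg (mul_nonneg hq0 hak) hb0)
    + (1917977658727295684662697/4731125844750878873376795) * (mul_nonneg (mul_nonneg hH0 hH1) hpk)
    + (164069724109400188083743/1577041948250292957792265) * (mul_nonneg (mul_nonneg hH0 hH1) hmd)
    + (22134221773194282761875927/113547020274021092961043080) * (mul_nonneg (mul_nonneg hH1 ha0) ha0)
    + (104102369141834793637322/315408389650058591558453) * (mul_nonneg (mul_nonneg hpk hqs) hy0)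
    + (2134090007859375025954457/18924503379003515493507180) * (mul_nonneg (mul_nonneg hpk hbs) hmd)
    + (14938630055015625181681199/56773510137010546480521540) * (mul_nonneg hbud000 hb0)
    + (2134090007859375025954457/5677351013701054648052154) * (mul_nonneg (mul_nonneg hH1 hb0) hbs)
    + (2134090007859375025954457/37849006758007030987014360) * (mul_nonneg (mul_nonneg hb0 hb0) hy0)
    + (2134090007859375025954457/37849006758007030987014360) * (mul_nonneg (mul_nonneg hb0 hb0) hu1)
    + (2134090007859375025954457/18924503379003515493507180) * (mul_nonneg (mul_nonneg hp0 hb0) hb0)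
    + (3116913428702336424351629/18924503379003515493507180) * (mul_nonneg (mul_nonneg ha0 ha0) hbs)
    + (27085734135922353195187957/113547020274021092961043080) * (mul_nonneg (mul_nonneg ha0 ha0) hak)
    + (2134090007859375025954457/5677351013701054648052154) * (mul_nonneg (mul_nonneg hf0 hb0) hb0)
    + (2826927397750549396658677/11354702027402109296104308) * (mul_nonneg (mul_nonneg hp0 ha0) hb0)
    + (4625004633036179001271553/18924503379003515493507180) * (mul_nonneg (mul_nonneg hp0 hp0) hpk)
    + (2134090007859375025954457/18924503379003515493507180) * (mul_nonneg (mul_nonneg hq0 hb0) hb0)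
    + (3432741200980264215766153/113547020274021092961043080) * (mul_nonneg hbud001 ha0)
    + (356442121599773780102867/4731125844750878873376795) * (mul_nonneg (mul_nonneg hH0 hqs) hu1)
    + (356442121599773780102867/4731125844750878873376795) * (mul_nonneg (mul_nonneg hqs hy0) hmy)
    + (356442121599773780102867/4731125844750878873376795) * (mul_nonneg (mul_nonneg hH0 hH1) hmy)
    + (7717903289406699603142969/56773510137010546480521540) * (mul_nonneg (mul_nonneg ha0 hb0) hb0)

theorem c3_um_b (z f H k s p q a b : ℝ)
    (hz0 : 0 ≤ z-(1/10))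
    (hz1 : 0 ≤ (1/4)-z)
    (hf0 : 0 ≤ f-(3/20))
    (hf1 : 0 ≤ (1/5)-f)
    (hH0 : 0 ≤ H)
    (hH1 : 0 ≤ f-H)
    (hp0 : 0 ≤ p)
    (hpk : 0 ≤ k-p)
    (hq0 : 0 ≤ q)
    (hqs : 0 ≤ s-q)
    (ha0 : 0 ≤ a)
    (hak : 0 ≤ (1/2+z-f)-k-a)
    (hb0 : 0 ≤ b)
    (hbs : 0 ≤ (1/2-z)-s-b)
    (hy0 : 0 ≤ 1/2+z-H-k-s)
    (hmd : 0 ≤ 1/4-z-q-b)
    (hmy : 0 ≤ 1/4+z-(1/2+z-H-k-s))
    (hu1 : 0 ≤ -(2*z-(1/2+z-H-k-s)))
    (hbud100 : 0 ≤ (z-2*z*f)-H*(q+b)-p*((2*z-(1/2+z-H-k-s)+f-H)+(a+b))) :
    0 ≤ (k+s+(a+b))*((1/2-z)*((1/2)*(k+H)+(3/2)*(1/2+z-H-k-s))+(1/2)*(k*(p+2*a))+(1/2)*(f*(1-f)-z*(1-2*f))+z*z)-(1/2-z)*(2*k*(a+b)+2*H*((a+b)+p+q)) := by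
  linear_combination (2400889/13473200) * (mul_nonneg hf1 hq0)
    + (1033181/13473200) * (mul_nonneg hmy hu1)
    + (5684557/13473200) * (mul_nonneg hf0 hqs)
    + (9445273/26946400) * (mul_nonneg hqs hu1)
    + (739727/6736600) * (mul_nonneg hqs hak)
    + (556739/2694640) * (mul_nonneg hpk hmd)
    + (643411/3368300) * (mul_nonneg hf1 hbs)
    + (16656/842075) * (mul_nonneg hp0 hbs)
    + (556739/2694640) * (mul_nonneg hp0 hmd)
    + (460973/5389280) * (hpk)
    + (2568279/5389280) * (mul_nonneg hqs ha0)
    + (394263/3368300) * (mul_nonneg (mul_nonneg hz1 hak) hmy)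
    + (4566423/33683000) * (mul_nonneg hak hmy)
    + (503583/13473200) * (mul_nonneg hz1 hak)
    + (335529/5389280) * (mul_nonneg hf1 hu1)
    + (11437563/134732000) * (hH1)
    + (77811/6736600) * (hbud100)
    + (449643/3368300) * (mul_nonneg hz1 hpk)
    + (21924073/26946400) * (mul_nonneg ha0 hu1)
    + (11862687/26946400) * (mul_nonneg hz0 hq0)
    + (85521/165824) * (mul_nonneg hq0 hu1)
    + (23/40) * (mul_nonneg hf0 hpk)
    + (68667/5389280) * (mul_nonneg hf1 hy0)
    + (32419/6736600) * (mul_nonneg hf1 hak)
    + (556297/1347320) * (mul_nonneg (mul_nonneg hf0 ha0) hak)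
    + (573243/3368300) * (mul_nonneg hpk hak)
    + (96907/1036400) * (mul_nonneg hH1 hpk)
    + (731449/1347320) * (mul_nonneg hf1 hp0)
    + (214013/1036400) * (mul_nonneg hf1 hH1)
    + (1304241/13473200) * (mul_nonneg hp0 hq0)
    + (825749/1684150) * (mul_nonneg hH1 hq0)
    + (19275/134732) * (mul_nonneg (mul_nonneg hz1 hH0) hmd)
    + (1304241/13473200) * (mul_nonneg hpk hq0)
    + (408631/53892800) * (mul_nonneg hq0 hy0)
    + (2717331/13473200) * (mul_nonneg hH0 hqs)
    + (931241/5389280) * (mul_nonneg hqs hy0)
    + (2060/33683) * (mul_nonneg (mul_nonneg hp0 hak) hbs)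
    + (406759/6736600) * (mul_nonneg hpk hbs)
    + (9882487/26946400) * (mul_nonneg hq0 ha0)
    + (14719621/13473200) * (mul_nonneg hH1 hp0)
    + (7224257/26946400) * (mul_nonneg hH1 ha0)
    + (16874947/26946400) * (mul_nonneg hz0 ha0)
    + (29563/67366) * (mul_nonneg (mul_nonneg hp0 hp0) hb0)
    + (29563/67366) * (mul_nonneg (mul_nonneg hp0 hpk) hb0)
    + (4486707/13473200) * (mul_nonneg hq0 hb0)
    + (2060/33683) * (mul_nonneg (mul_nonneg hf1 hp0) hb0)
    + (2060/33683) * (mul_nonneg (mul_nonneg hf1 hp0) ha0)
    + (556297/1347320) * (mul_nonneg (mul_nonneg hH1 hp0) ha0)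
    + (1/2) * (mul_nonneg (mul_nonneg hpk ha0) hmy)
    + (556297/1347320) * (mul_nonneg (mul_nonneg hH1 hpk) ha0)
    + (1/2) * (mul_nonneg (mul_nonneg hp0 hp0) ha0)
    + (1/1) * (mul_nonneg (mul_nonneg hp0 hpk) ha0)
    + (31623/33683) * (mul_nonneg (mul_nonneg hp0 ha0) hmy)
    + (1/2) * (mul_nonneg (mul_nonneg hpk hqs) ha0)
    + (117363/1347320) * (mul_nonneg (mul_nonneg hH0 ha0) hak)
    + (117363/1347320) * (mul_nonneg (mul_nonneg hf1 hH1) ha0)
    + (182823/134732) * (mul_nonneg (mul_nonneg hz0 hH0) hb0)
    + (117363/1347320) * (mul_nonneg (mul_nonneg hH0 ha0) ha0)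
    + (182823/134732) * (mul_nonneg (mul_nonneg hz0 hH0) hq0)
    + (2078413/3368300) * (mul_nonneg (mul_nonneg hz0 hq0) hmy)
    + (1/2) * (mul_nonneg (mul_nonneg hpk hq0) ha0)
    + (1030/33683) * (mul_nonneg (mul_nonneg hp0 hp0) hp0)
    + (2060/33683) * (mul_nonneg (mul_nonneg hp0 hp0) hpk)
    + (29563/67366) * (mul_nonneg (mul_nonneg hp0 hp0) hmy)
    + (31623/67366) * (mul_nonneg (mul_nonneg hf0 hH0) hp0)
    + (1030/33683) * (mul_nonneg (mul_nonneg hp0 hpk) hpk)
    + (29563/67366) * (mul_nonneg (mul_nonneg hp0 hpk) hmy)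
    + (29563/67366) * (mul_nonneg (mul_nonneg hH0 hp0) hak)
    + (1030/33683) * (mul_nonneg (mul_nonneg hz0 hp0) hq0)
    + (4486707/13473200) * (mul_nonneg hqs hb0)
    + (105169/67366) * (mul_nonneg (mul_nonneg hz0 hH0) hp0)
    + (1/2) * (mul_nonneg (mul_nonneg hpk hpk) ha0)
    + (1903617/1347320) * (mul_nonneg (mul_nonneg hz0 hH0) ha0)
    + (3/2) * (mul_nonneg (mul_nonneg hz0 hpk) ha0)
    + (4658187/3368300) * (mul_nonneg (mul_nonneg hz0 ha0) hmy)
    + (1/2) * (mul_nonneg (mul_nonneg hz1 hH0) hqs)
    + (2078413/3368300) * (mul_nonneg (mul_nonneg hz0 hqs) hmy)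
    + (48091/134732) * (mul_nonneg (mul_nonneg hz0 hz0) hH0)
    + (1180567/13473200) * (mul_nonneg hz0 hz1)
    + (1289887/3368300) * (mul_nonneg (mul_nonneg hz0 hz1) hmy)
    + (103109/67366) * (mul_nonneg (mul_nonneg hz0 hp0) hb0)
    + (1030/33683) * (mul_nonneg (mul_nonneg hz0 hp0) hqs)
    + (32653/33683) * (mul_nonneg (mul_nonneg hp0 ha0) ha0)
    + (2060/33683) * (mul_nonneg (mul_nonneg hf1 hp0) hmy)
    + (1030/33683) * (mul_nonneg (mul_nonneg hf1 hH1) hp0)
    + (1030/33683) * (mul_nonneg (mul_nonneg hz1 hp0) hbs)
    + (3/2) * (mul_nonneg (mul_nonneg hz0 hp0) ha0)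
    + (1030/33683) * (mul_nonneg (mul_nonneg hp0 hak) hak)
    + (1033181/13473200) * (mul_nonneg hH1 hH1)
    + (2974037/3368300) * (mul_nonneg (mul_nonneg hz0 hmy) hmy)
    + (1/1) * (mul_nonneg (mul_nonneg hz0 hf1) hH0)
    + (2974037/3368300) * (mul_nonneg (mul_nonneg hz0 hH1) hmy)
    + (12570627/13473200) * (mul_nonneg hb0 hu1)
    + (1576233/6736600) * (mul_nonneg hH1 hb0)
    + (10549647/13473200) * (mul_nonneg hz0 hb0)
    + (31623/33683) * (mul_nonneg (mul_nonneg hp0 ha0) hb0)
    + (556297/1347320) * (mul_nonneg (mul_nonneg hf0 ha0) ha0)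
    + (791023/1347320) * (mul_nonneg (mul_nonneg hz0 hf0) ha0)
    + (1/1) * (mul_nonneg (mul_nonneg hpk ha0) hb0)
    + (1/1) * (mul_nonneg (mul_nonneg hpk ha0) ha0)
    + (1/2) * (mul_nonneg (mul_nonneg hz0 hz1) hb0)
    + (3/2) * (mul_nonneg (mul_nonneg hz0 hpk) hb0)
    + (3/2) * (mul_nonneg (mul_nonneg hz0 hb0) hmy)
    + (1/2) * (mul_nonneg (mul_nonneg hf0 hf0) hH0)
    + (1/2) * (mul_nonneg (mul_nonneg hf0 hf1) hmy)
    + (1/2) * (mul_nonneg (mul_nonneg hz0 hz1) ha0)
    + (1/2) * (mul_nonneg (mul_nonneg hf0 hf1) hb0)
    + (1/1) * (mul_nonneg (mul_nonneg hz0 hf0) hb0)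

theorem c3h_um (z f k s p q a b : ℝ)
    (hz0 : 0 ≤ z-0)
    (hz1 : 0 ≤ (1/4)-z)
    (hf0 : 0 ≤ f-(3/20))
    (hf1 : 0 ≤ (1/5)-f)
    (hp0 : 0 ≤ p)
    (hpk : 0 ≤ k-p)
    (hq0 : 0 ≤ q)
    (hqs : 0 ≤ s-q)
    (ha0 : 0 ≤ a)
    (hak : 0 ≤ (1/2+z-f)-k-a)
    (hb0 : 0 ≤ b)
    (hbs : 0 ≤ (1/2-z)-s-b)
    (hy0 : 0 ≤ 1/2+z-0-k-s)
    (hu1 : 0 ≤ -(2*z-(1/2+z-0-k-s)))
    (hmy : 0 ≤ 1/4+z-(1/2+z-0-k-s)) :
    0 ≤ (k+s+(a+b))*((1/2-z)*((1/2)*(k+0)+(3/2)*(1/2+z-0-k-s))+(1/2)*(k*(p+2*a))+(1/2)*(f*(1-f)-z*(1-2*f))+z*z)-(1/2-z)*(2*k*(a+b)+2*0*((a+b)+p+q)) := by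
  linear_combination (97/840) * (mul_nonneg hqs hb0)
    + (851/1764) * (mul_nonneg hb0 hu1)
    + (25/126) * (mul_nonneg (mul_nonneg hz1 hak) hb0)
    + (5303/5880) * (mul_nonneg hf0 hb0)
    + (9301/17640) * (mul_nonneg hak hb0)
    + (377/1960) * (mul_nonneg hz0 hqs)
    + (66/1225) * (mul_nonneg hz0 hmy)
    + (33/490) * (mul_nonneg hz1 hak)
    + (27/700) * (mul_nonneg hz0 hz1)
    + (435/784) * (mul_nonneg ha0 hu1)
    + (187/9800) * (mul_nonneg hz1 hy0)
    + (603/1960) * (mul_nonneg hbs hmy)
    + (291/3920) * (hak)
    + (193/1120) * (hf0)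
    + (9301/17640) * (mul_nonneg ha0 hb0)
    + (25/126) * (mul_nonneg (mul_nonneg hz1 ha0) hb0)
    + (867/1960) * (mul_nonneg ha0 hak)
    + (55/784) * (mul_nonneg ha0 hy0)
    + (867/1960) * (mul_nonneg ha0 ha0)
    + (188/245) * (mul_nonneg hf0 ha0)
    + (19/63) * (mul_nonneg (mul_nonneg hz1 hb0) hy0)
    + (113/1960) * (mul_nonneg hpk hbs)
    + (583/4900) * (hbs)
    + (311/980) * (mul_nonneg hy0 hmy)
    + (113/1960) * (mul_nonneg hpk hak)
    + (113/1960) * (mul_nonneg hp0 hbs)
    + (113/1960) * (mul_nonneg hf0 hp0)
    + (82/63) * (mul_nonneg (mul_nonneg hz0 hpk) hb0)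
    + (151/126) * (mul_nonneg (mul_nonneg hz0 hb0) hmy)
    + (377/1960) * (mul_nonneg hz0 hq0)
    + (101/126) * (mul_nonneg (mul_nonneg hz0 hf0) hb0)
    + (97/840) * (mul_nonneg hq0 hb0)
    + (82/63) * (mul_nonneg (mul_nonneg hz0 hp0) hb0)
    + (179/980) * (mul_nonneg hz0 hf0)
    + (113/1960) * (mul_nonneg hf0 hpk)
    + (1/8) * (mul_nonneg hp0 hp0)
    + (1/8) * (mul_nonneg hp0 hpk)
    + (113/1960) * (mul_nonneg hp0 hak)
    + (1/2) * (mul_nonneg (mul_nonneg hp0 hp0) hmy)
    + (1/2) * (mul_nonneg (mul_nonneg hp0 hpk) hmy)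
    + (3/2) * (mul_nonneg (mul_nonneg hz0 hp0) ha0)
    + (3/2) * (mul_nonneg (mul_nonneg hz0 hpk) ha0)
    + (1/1) * (mul_nonneg (mul_nonneg hz0 ha0) hmy)
    + (1/2) * (mul_nonneg (mul_nonneg hz1 ha0) hy0)
    + (1/1) * (mul_nonneg (mul_nonneg hp0 ha0) hb0)
    + (1/1) * (mul_nonneg (mul_nonneg hpk ha0) hb0)
    + (1/2) * (mul_nonneg (mul_nonneg hf0 hf1) ha0)
    + (1/2) * (mul_nonneg (mul_nonneg hp0 hp0) hb0)
    + (1/2) * (mul_nonneg (mul_nonneg hp0 hpk) hb0)
    + (1/2) * (mul_nonneg (mul_nonneg hp0 hp0) ha0)
    + (1/2) * (mul_nonneg (mul_nonneg hf0 hf1) hb0)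
    + (1/2) * (mul_nonneg (mul_nonneg hp0 hpk) ha0)
    + (1/1) * (mul_nonneg (mul_nonneg hp0 ha0) hmy)
    + (1/1) * (mul_nonneg (mul_nonneg hpk ha0) hmy)
    + (1/2) * (mul_nonneg (mul_nonneg hz0 hq0) hmy)
    + (1/2) * (mul_nonneg (mul_nonneg hz0 hqs) hmy)
    + (1/2) * (mul_nonneg (mul_nonneg hz0 hmy) hmy)
    + (1/2) * (mul_nonneg (mul_nonneg hz1 hy0) hmy)
    + (1/8) * (mul_nonneg hf0 hf1)
    + (13/40) * (mul_nonneg hf0 hmy)
    + (1/2) * (mul_nonneg (mul_nonneg hf0 hf1) hmy)
    + (1/1) * (mul_nonneg (mul_nonneg hp0 ha0) ha0)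
    + (1/1) * (mul_nonneg (mul_nonneg hpk ha0) ha0)
    + (1/1) * (mul_nonneg (mul_nonneg hz0 hf0) hmy)
    + (1/1) * (mul_nonneg (mul_nonneg hz0 hf0) ha0)

end Pool.Agent.E809HL
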