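import Mathlib
import Pool.Agent.Helper296.E809.C1
import Pool.Agent.Helper296.E809.C2
import Pool.Agent.Helper296.E809.C3
import Pool.Agent.Helper296.E809.C4
import Pool.Agent.Helper296.E809.C5

set_option autoImplicit false
set_option maxHeartbeats 4000000

namespace Pool.Agent.E809HL

/-- the polynomial whose nonnegativity is the key inequality (times `(1/2-z)*(k+s+a+b)`) -/
noncomputable def tgt (μ z f H k s p q a b : ℝ) : ℝ :=
  (k + s + (a + b)) * ((1 / 2 - z) * ((1 - μ) * (k + H) + (1 + μ) * (1 / 2 + z - H - k - s)) +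
    μ * (k * (p + 2 * a)) + μ * (f * (1 - f) - z * (1 - 2 * f)) + z * z) -
    (1 / 2 - z) * (2 * k * (a + b) + 2 * H * ((a + b) + p + q))

theorem bud_up {z f H k s p q a b : ℝ} (hp : 0 ≤ p) (hq : 0 ≤ q) (ha : 0 ≤ a) (hb : 0 ≤ b)
    (hG : H * (q + b) +
      p * max 0 (2 * z - (1 / 2 + z - H - k - s) + (f - H) + (a + b)) +
      a * max 0 (2 * z - (1 / 2 + z - H - k - s) + (f - H)) +
      q * max 0 (2 * z - (1 / 2 + z - H - k - s) + (a + b)) +
      b * max 0 (2 * z - (1 / 2 + z - H - k - s)) ≤ z * (1 - 2 * f)) :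
    0 ≤ (z-2*z*f)-(H+(2*z-(1/2+z-H-k-s)))*(q+b)-(2*z-(1/2+z-H-k-s)+f-H)*(p+a)-(a+b)*(p+q) := by
  have h1 := mul_le_mul_of_nonneg_left (le_max_right 0 (2 * z - (1 / 2 + z - H - k - s) + (f - H) + (a + b))) hp
  have h2 := mul_le_mul_of_nonneg_left (le_max_right 0 (2 * z - (1 / 2 + z - H - k - s) + (f - H))) ha
  have h3 := mul_le_mul_of_nonneg_left (le_max_right 0 (2 * z - (1 / 2 + z - H - k - s) + (a + b))) hq
  have h4 := mul_le_mul_of_nonneg_left (le_max_right 0 (2 * z - (1 / 2 + z - H - k - s))) hb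
  linarith


theorem bud_um {z f H k s p q a b : ℝ} (hp : 0 ≤ p) (hq : 0 ≤ q) (ha : 0 ≤ a) (hb : 0 ≤ b)
    (hG : H * (q + b) +
      p * max 0 (2 * z - (1 / 2 + z - H - k - s) + (f - H) + (a + b)) +
      a * max 0 (2 * z - (1 / 2 + z - H - k - s) + (f - H)) +
      q * max 0 (2 * z - (1 / 2 + z - H - k - s) + (a + b)) +
      b * max 0 (2 * z - (1 / 2 + z - H - k - s)) ≤ z * (1 - 2 * f)) :
    0 ≤ (z-2*z*f)-H*(q+b) ∧
    0 ≤ (z-2*z*f)-H*(q+b)-q*((2*z-(1/2+z-H-k-s))+(a+b)) ∧
    0 ≤ (z-2*z*f)-H*(q+b)-a*(2*z-(1/2+z-H-k-s)+f-H) ∧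
    0 ≤ (z-2*z*f)-H*(q+b)-a*(2*z-(1/2+z-H-k-s)+f-H)-q*((2*z-(1/2+z-H-k-s))+(a+b)) ∧
    0 ≤ (z-2*z*f)-H*(q+b)-p*((2*z-(1/2+z-H-k-s)+f-H)+(a+b)) ∧
    0 ≤ (z-2*z*f)-H*(q+b)-p*((2*z-(1/2+z-H-k-s)+f-H)+(a+b))-q*((2*z-(1/2+z-H-k-s))+(a+b)) ∧
    0 ≤ (z-2*z*f)-H*(q+b)-p*((2*z-(1/2+z-H-k-s)+f-H)+(a+b))-a*(2*z-(1/2+z-H-k-s)+f-H) ∧
    0 ≤ (z-2*z*f)-H*(q+b)-p*((2*z-(1/2+z-H-k-s)+f-H)+(a+b))-a*(2*z-(1/2+z-H-k-s)+f-H)-q*((2*z-(1/2+z-H-k-s))+(a+b)) := by
  have h1 := mul_le_mul_of_nonneg_left (le_max_right 0 (2 * z - (1 / 2 + z - H - k - s) + (f - H) + (a + b))) hp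
  have h2 := mul_le_mul_of_nonneg_left (le_max_right 0 (2 * z - (1 / 2 + z - H - k - s) + (f - H))) ha
  have h3 := mul_le_mul_of_nonneg_left (le_max_right 0 (2 * z - (1 / 2 + z - H - k - s) + (a + b))) hq
  have h1' := mul_nonneg hp (le_max_left 0 (2 * z - (1 / 2 + z - H - k - s) + (f - H) + (a + b)))
  have h2' := mul_nonneg ha (le_max_left 0 (2 * z - (1 / 2 + z - H - k - s) + (f - H)))
  have h3' := mul_nonneg hq (le_max_left 0 (2 * z - (1 / 2 + z - H - k - s) + (a + b)))
  have h4' := mul_nonneg hb (le_max_left 0 (2 * z - (1 / 2 + z - H - k - s)))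
  refine ⟨?_, ?_, ?_, ?_, ?_, ?_, ?_, ?_⟩ <;> linarith

theorem tgt1 {z f H k s p q a b : ℝ} (hz : 0 ≤ z) (hz1 : z ≤ 1 / 4) (hf0 : 0 ≤ f) (hf1 : f ≤ 1 / 10)
    (hH : 0 ≤ H) (hHf : H ≤ f) (hp : 0 ≤ p) (hpk : p ≤ k) (hq : 0 ≤ q) (hqs : q ≤ s)
    (ha : 0 ≤ a) (hka : k + a ≤ 1 / 2 + z - f) (hb : 0 ≤ b) (hsb : s + b ≤ 1 / 2 - z)
    (hy : 0 ≤ 1 / 2 + z - H - k - s) (hy1 : 1 / 2 + z - H - k - s ≤ 1 / 4 + z) (hmd : q + b ≤ 1 / 4 - z)
    (hG : H * (q + b) +
      p * max 0 (2 * z - (1 / 2 + z - H - k - s) + (f - H) + (a + b)) +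
      a * max 0 (2 * z - (1 / 2 + z - H - k - s) + (f - H)) +
      q * max 0 (2 * z - (1 / 2 + z - H - k - s) + (a + b)) +
      b * max 0 (2 * z - (1 / 2 + z - H - k - s)) ≤ z * (1 - 2 * f)) :
    0 ≤ tgt 0 z f H k s p q a b := by
  have hbu := bud_up hp hq ha hb hG
  obtain ⟨hbud000, hbud001, hbud010, hbud011, hbud100, hbud101, hbud110, hbud111⟩ := bud_um hp hq ha hb hG
  unfold tgt
  rcases le_total (1 / 2 + z - H - k - s) (2 * z) with hu | hu
  · have hbud := hbu
    rcases le_total (k + s) (a + b) with hD | hD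
    · have h := c1_up_1 z f H k s p q a b (by linarith only [hz]) (by linarith only [hz1]) (by linarith only [hf0]) (by linarith only [hf1]) hH (sub_nonneg.mpr hHf) hp (sub_nonneg.mpr hpk) hq (sub_nonneg.mpr hqs) ha (by linarith only [hka]) hb (by linarith only [hsb]) hy (by linarith only [hmd]) (sub_nonneg.mpr hy1) (sub_nonneg.mpr hu) (sub_nonneg.mpr hD) hbud
      linear_combination h
    · have h := c1_up_2 z f H k s p q a b (by linarith only [hz]) (by linarith only [hz1]) (by linarith only [hf0]) (by linarith only [hf1]) hH (sub_nonneg.mpr hHf) hp (sub_nonneg.mpr hpk) hq (sub_nonneg.mpr hqs) ha (by linarith only [hka]) hb (by linarith only [hsb]) hy (by linarith only [hmd]) (sub_nonneg.mpr hy1) (sub_nonneg.mpr hu) (sub_nonneg.mpr hD) hbud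
      linear_combination h
  · rcases le_total (k + s) (a + b) with hD | hD
    · have h := c1_um_1 z f H k s p q a b (by linarith only [hz]) (by linarith only [hz1]) (by linarith only [hf0]) (by linarith only [hf1]) hH (sub_nonneg.mpr hHf) hp (sub_nonneg.mpr hpk) hq (sub_nonneg.mpr hqs) ha (by linarith only [hka]) hb (by linarith only [hsb]) hy (by linarith only [hmd]) (sub_nonneg.mpr hy1) (by linarith only [hu]) (sub_nonneg.mpr hD) hbud000 hbud001 hbud010 hbud100 hbud101 hbud110 hbud111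
      linear_combination h
    · have h := c1_um_2 z f H k s p q a b (by linarith only [hz]) (by linarith only [hz1]) (by linarith only [hf0]) (by linarith only [hf1]) hH (sub_nonneg.mpr hHf) hp (sub_nonneg.mpr hpk) hq (sub_nonneg.mpr hqs) ha (by linarith only [hka]) hb (by linarith only [hsb]) hy (by linarith only [hmd]) (sub_nonneg.mpr hy1) (by linarith only [hu]) (sub_nonneg.mpr hD) hbud000 hbud001 hbud010 hbud100 hbud101
      linear_combination h


theorem tgt2 {z f H k s p q a b : ℝ} (hz : 0 ≤ z) (hz1 : z ≤ 1 / 4) (hf0 : 1 / 10 ≤ f) (hf1 : f ≤ 3 / 20)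
    (hH : 0 ≤ H) (hHf : H ≤ f) (hp : 0 ≤ p) (hpk : p ≤ k) (hq : 0 ≤ q) (hqs : q ≤ s)
    (ha : 0 ≤ a) (hka : k + a ≤ 1 / 2 + z - f) (hb : 0 ≤ b) (hsb : s + b ≤ 1 / 2 - z)
    (hy : 0 ≤ 1 / 2 + z - H - k - s) (hy1 : 1 / 2 + z - H - k - s ≤ 1 / 4 + z) (hmd : q + b ≤ 1 / 4 - z)
    (hG : H * (q + b) +
      p * max 0 (2 * z - (1 / 2 + z - H - k - s) + (f - H) + (a + b)) +
      a * max 0 (2 * z - (1 / 2 + z - H - k - s) + (f - H)) +
      q * max 0 (2 * z - (1 / 2 + z - H - k - s) + (a + b)) +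
      b * max 0 (2 * z - (1 / 2 + z - H - k - s)) ≤ z * (1 - 2 * f)) :
    0 ≤ tgt (3 / 20) z f H k s p q a b := by
  have hbu := bud_up hp hq ha hb hG
  obtain ⟨hbud000, hbud001, hbud010, hbud011, hbud100, hbud101, hbud110, hbud111⟩ := bud_um hp hq ha hb hG
  unfold tgt
  rcases le_total (1 / 2 + z - H - k - s) (2 * z) with hu | hu
  · have hbud := hbu
    rcases le_total (k + s) (a + b) with hD | hD
    · have h := c2_up_1 z f H k s p q a b (by linarith only [hz]) (by linarith only [hz1]) (by linarith only [hf0]) (by linarith only [hf1]) hH (sub_nonneg.mpr hHf) hp (sub_nonneg.mpr hpk) hq (sub_nonneg.mpr hqs) ha (by linarith only [hka]) hb (by linarith only [hsb]) hy (by linarith only [hmd]) (sub_nonneg.mpr hy1) (sub_nonneg.mpr hu) (sub_nonneg.mpr hD) hbud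
      linear_combination h
    · have h := c2_up_2 z f H k s p q a b (by linarith only [hz]) (by linarith only [hz1]) (by linarith only [hf0]) (by linarith only [hf1]) hH (sub_nonneg.mpr hHf) hp (sub_nonneg.mpr hpk) hq (sub_nonneg.mpr hqs) ha (by linarith only [hka]) hb (by linarith only [hsb]) hy (by linarith only [hmd]) (sub_nonneg.mpr hy1) (sub_nonneg.mpr hu) (sub_nonneg.mpr hD) hbud
      linear_combination h
  · rcases le_total (k + s) (a + b) with hD | hD
    · have h := c2_um_1 z f H k s p q a b (by linarith only [hz]) (by linarith only [hz1]) (by linarith only [hf0]) (by linarith only [hf1]) hH (sub_nonneg.mpr hHf) hp (sub_nonneg.mpr hpk) hq (sub_nonneg.mpr hqs) ha (by linarith only [hka]) hb (by linarith only [hsb]) hy (by linarith only [hmd]) (sub_nonneg.mpr hy1) (by linarith only [hu]) (sub_nonneg.mpr hD) hbud000 hbud001 hbud010 hbud100 hbud101 hbud111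
      linear_combination h
    · have h := c2_um_2 z f H k s p q a b (by linarith only [hz]) (by linarith only [hz1]) (by linarith only [hf0]) (by linarith only [hf1]) hH (sub_nonneg.mpr hHf) hp (sub_nonneg.mpr hpk) hq (sub_nonneg.mpr hqs) ha (by linarith only [hka]) hb (by linarith only [hsb]) hy (by linarith only [hmd]) (sub_nonneg.mpr hy1) (by linarith only [hu]) (sub_nonneg.mpr hD) hbud000 hbud001 hbud100 hbud101 hbud110
      linear_combination h


theorem tgt3 {z f H k s p q a b : ℝ} (hz : 0 ≤ z) (hz1 : z ≤ 1 / 4) (hf0 : 3 / 20 ≤ f) (hf1 : f ≤ 1 / 5)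
    (hH : 0 ≤ H) (hHf : H ≤ f) (hp : 0 ≤ p) (hpk : p ≤ k) (hq : 0 ≤ q) (hqs : q ≤ s)
    (ha : 0 ≤ a) (hka : k + a ≤ 1 / 2 + z - f) (hb : 0 ≤ b) (hsb : s + b ≤ 1 / 2 - z)
    (hy : 0 ≤ 1 / 2 + z - H - k - s) (hy1 : 1 / 2 + z - H - k - s ≤ 1 / 4 + z) (hmd : q + b ≤ 1 / 4 - z)
    (hG : H * (q + b) +
      p * max 0 (2 * z - (1 / 2 + z - H - k - s) + (f - H) + (a + b)) +
      a * max 0 (2 * z - (1 / 2 + z - H - k - s) + (f - H)) +
      q * max 0 (2 * z - (1 / 2 + z - H - k - s) + (a + b)) +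
      b * max 0 (2 * z - (1 / 2 + z - H - k - s)) ≤ z * (1 - 2 * f)) :
    0 ≤ tgt (1 / 2) z f H k s p q a b := by
  have hbu := bud_up hp hq ha hb hG
  obtain ⟨hbud000, hbud001, hbud010, hbud011, hbud100, hbud101, hbud110, hbud111⟩ := bud_um hp hq ha hb hG
  unfold tgt
  rcases le_total (1 / 2 + z - H - k - s) (2 * z) with hu | hu
  · have hbud := hbu
    rcases le_total z (1 / 10) with hzc10 | hzc10
    · have h := c3_up_a z f H k s p q a b (by linarith only [hz]) (by linarith only [hzc10]) (by linarith only [hf0]) (by linarith only [hf1]) hH (sub_nonneg.mpr hHf) hp (sub_nonneg.mpr hpk) hq (sub_nonneg.mpr hqs) ha (by linarith only [hka]) hb (by linarith only [hsb]) hy (by linarith only [hmd]) (sub_nonneg.mpr hy1) (sub_nonneg.mpr hu) hbud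
      linear_combination h
    · have h := c3_up_b z f H k s p q a b (by linarith only [hzc10]) (by linarith only [hz1]) (by linarith only [hf0]) (by linarith only [hf1]) hH (sub_nonneg.mpr hHf) hp (sub_nonneg.mpr hpk) hq (sub_nonneg.mpr hqs) ha (by linarith only [hka]) hb (by linarith only [hsb]) hy (by linarith only [hmd]) (sub_nonneg.mpr hy1) (sub_nonneg.mpr hu) hbud
      linear_combination h
  · rcases le_total z (1 / 10) with hzc10 | hzc10
    · have h := c3_um_a z f H k s p q a b (by linarith only [hz]) (by linarith only [hzc10]) (by linarith only [hf0]) (by linarith only [hf1]) hH (sub_nonneg.mpr hHf) hp (sub_nonneg.mpr hpk) hq (sub_nonneg.mpr hqs) ha (by linarith only [hka]) hb (by linarith only [hsb]) hy (by linarith only [hmd]) (sub_nonneg.mpr hy1) (by linarith only [hu]) hbud000 hbud001 hbud100 hbud101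
      linear_combination h
    · have h := c3_um_b z f H k s p q a b (by linarith only [hzc10]) (by linarith only [hz1]) (by linarith only [hf0]) (by linarith only [hf1]) hH (sub_nonneg.mpr hHf) hp (sub_nonneg.mpr hpk) hq (sub_nonneg.mpr hqs) ha (by linarith only [hka]) hb (by linarith only [hsb]) hy (by linarith only [hmd]) (sub_nonneg.mpr hy1) (by linarith only [hu]) hbud100
      linear_combination h


theorem tgt4 {z f H k s p q a b : ℝ} (hz : 0 ≤ z) (hz1 : z ≤ 1 / 4) (hf0 : 1 / 5 ≤ f) (hf1 : f ≤ 11 / 50)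
    (hH : 0 ≤ H) (hHf : H ≤ f) (hp : 0 ≤ p) (hpk : p ≤ k) (hq : 0 ≤ q) (hqs : q ≤ s)
    (ha : 0 ≤ a) (hka : k + a ≤ 1 / 2 + z - f) (hb : 0 ≤ b) (hsb : s + b ≤ 1 / 2 - z)
    (hy : 0 ≤ 1 / 2 + z - H - k - s) (hy1 : 1 / 2 + z - H - k - s ≤ 1 / 4 + z)
    (hG : H * (q + b) +
      p * max 0 (2 * z - (1 / 2 + z - H - k - s) + (f - H) + (a + b)) +
      a * max 0 (2 * z - (1 / 2 + z - H - k - s) + (f - H)) +
      q * max 0 (2 * z - (1 / 2 + z - H - k - s) + (a + b)) +
      b * max 0 (2 * z - (1 / 2 + z - H - k - s)) ≤ z * (1 - 2 * f)) :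
    0 ≤ tgt (13 / 20) z f H k s p q a b := by
  have hbu := bud_up hp hq ha hb hG
  obtain ⟨hbud000, hbud001, hbud010, hbud011, hbud100, hbud101, hbud110, hbud111⟩ := bud_um hp hq ha hb hG
  unfold tgt
  rcases le_total (1 / 2 + z - H - k - s) (2 * z) with hu | hu
  · have hbud := hbu
    rcases le_total z (1 / 10) with hzc10 | hzc10
    · have h := c4_up_a z f H k s p q a b (by linarith only [hz]) (by linarith only [hzc10]) (by linarith only [hf0]) (by linarith only [hf1]) hH (sub_nonneg.mpr hHf) hp (sub_nonneg.mpr hpk) hq (sub_nonneg.mpr hqs) ha (by linarith only [hka]) hb (by linarith only [hsb]) hy (sub_nonneg.mpr hu) hbud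
      linear_combination h
    · have h := c4_up_b z f H k s p q a b (by linarith only [hzc10]) (by linarith only [hz1]) (by linarith only [hf0]) (by linarith only [hf1]) hH (sub_nonneg.mpr hHf) hp (sub_nonneg.mpr hpk) hq (sub_nonneg.mpr hqs) ha (by linarith only [hka]) hb (by linarith only [hsb]) hy (sub_nonneg.mpr hu) hbud
      linear_combination h
  · rcases le_total (k + s) (a + b) with hD | hD
    · have h := c4_um_1 z f H k s p q a b (by linarith only [hz]) (by linarith only [hz1]) (by linarith only [hf0]) (by linarith only [hf1]) hH (sub_nonneg.mpr hHf) hp (sub_nonneg.mpr hpk) hq (sub_nonneg.mpr hqs) ha (by linarith only [hka]) hb (by linarith only [hsb]) hy (by linarith only [hu]) (sub_nonneg.mpr hD) hbud000 hbud001 hbud100 hbud101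
      linear_combination h
    · rcases le_total z (1 / 10) with hzc10 | hzc10
      · have h := c4_um_2a z f H k s p q a b (by linarith only [hz]) (by linarith only [hzc10]) (by linarith only [hf0]) (by linarith only [hf1]) hH (sub_nonneg.mpr hHf) hp (sub_nonneg.mpr hpk) hq (sub_nonneg.mpr hqs) ha (by linarith only [hka]) hb (by linarith only [hsb]) hy (by linarith only [hu]) (sub_nonneg.mpr hD) hbud000 hbud001 hbud011 hbud100 hbud101
        linear_combination h
      · have h := c4_um_2b z f H k s p q a b (by linarith only [hzc10]) (by linarith only [hz1]) (by linarith only [hf0]) (by linarith only [hf1]) hH (sub_nonneg.mpr hHf) hp (sub_nonneg.mpr hpk) hq (sub_nonneg.mpr hqs) ha (by linarith only [hka]) hb (by linarith only [hsb]) hy (by linarith only [hu])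
        linear_combination h


theorem tgt5 {z f H k s p q a b : ℝ} (hz : 0 ≤ z) (hz1 : z ≤ 1 / 4) (hf0 : 11 / 50 ≤ f) (hf1 : f ≤ 6 / 25)
    (hH : 0 ≤ H) (hHf : H ≤ f) (hp : 0 ≤ p) (hpk : p ≤ k) (hq : 0 ≤ q) (hqs : q ≤ s)
    (ha : 0 ≤ a) (hka : k + a ≤ 1 / 2 + z - f) (hb : 0 ≤ b) (hsb : s + b ≤ 1 / 2 - z)
    (hy : 0 ≤ 1 / 2 + z - H - k - s) (hy1 : 1 / 2 + z - H - k - s ≤ 1 / 4 + z)
    (hG : H * (q + b) +
      p * max 0 (2 * z - (1 / 2 + z - H - k - s) + (f - H) + (a + b)) +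
      a * max 0 (2 * z - (1 / 2 + z - H - k - s) + (f - H)) +
      q * max 0 (2 * z - (1 / 2 + z - H - k - s) + (a + b)) +
      b * max 0 (2 * z - (1 / 2 + z - H - k - s)) ≤ z * (1 - 2 * f)) :
    0 ≤ tgt (4 / 5) z f H k s p q a b := by
  have hbu := bud_up hp hq ha hb hG
  obtain ⟨hbud000, hbud001, hbud010, hbud011, hbud100, hbud101, hbud110, hbud111⟩ := bud_um hp hq ha hb hG
  unfold tgt
  rcases le_total (1 / 2 + z - H - k - s) (2 * z) with hu | hu
  · have hbud := hbu
    rcases le_total z (1 / 10) with hzc10 | hzc10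
    · have h := c5_up_a z f H k s p q a b (by linarith only [hz]) (by linarith only [hzc10]) (by linarith only [hf0]) (by linarith only [hf1]) hH (sub_nonneg.mpr hHf) hp (sub_nonneg.mpr hpk) hq (sub_nonneg.mpr hqs) ha (by linarith only [hka]) hb (by linarith only [hsb]) hy (sub_nonneg.mpr hu) hbud
      linear_combination h
    · rcases le_total z (3 / 20) with hzc15 | hzc15
      · have h := c5_up_b z f H k s p q a b (by linarith only [hzc10]) (by linarith only [hzc15]) (by linarith only [hf0]) (by linarith only [hf1]) hH (sub_nonneg.mpr hHf) hp (sub_nonneg.mpr hpk) hq (sub_nonneg.mpr hqs) ha (by linarith only [hka]) hb (by linarith only [hsb]) hy (sub_nonneg.mpr hu) hbud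
        linear_combination h
      · have h := c5_up_c z f H k s p q a b (by linarith only [hzc15]) (by linarith only [hz1]) (by linarith only [hf0]) (by linarith only [hf1]) hH (sub_nonneg.mpr hHf) hp (sub_nonneg.mpr hpk) hq (sub_nonneg.mpr hqs) ha (by linarith only [hka]) hb (by linarith only [hsb]) hy (sub_nonneg.mpr hu) hbud
        linear_combination h
  · rcases le_total (k + s) (a + b) with hD | hD
    · have h := c5_um_1 z f H k s p q a b (by linarith only [hz]) (by linarith only [hz1]) (by linarith only [hf0]) (by linarith only [hf1]) hH (sub_nonneg.mpr hHf) hp (sub_nonneg.mpr hpk) hq (sub_nonneg.mpr hqs) ha (by linarith only [hka]) hb (by linarith only [hsb]) hy (by linarith only [hu]) (sub_nonneg.mpr hD) hbud000 hbud001 hbud100 hbud101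
      linear_combination h
    · rcases le_total z (1 / 20) with hzc20 | hzc20
      · have h := c5_um_2a z f H k s p q a b (by linarith only [hz]) (by linarith only [hzc20]) (by linarith only [hf0]) (by linarith only [hf1]) hH (sub_nonneg.mpr hHf) hp (sub_nonneg.mpr hpk) hq (sub_nonneg.mpr hqs) ha (by linarith only [hka]) hb (by linarith only [hsb]) hy (by linarith only [hu]) (sub_nonneg.mpr hD) hbud000 hbud001 hbud011 hbud100 hbud101
        linear_combination h
      · rcases le_total z (1 / 10) with hzc10 | hzc10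
        · have h := c5_um_2b z f H k s p q a b (by linarith only [hzc20]) (by linarith only [hzc10]) (by linarith only [hf0]) (by linarith only [hf1]) hH (sub_nonneg.mpr hHf) hp (sub_nonneg.mpr hpk) hq (sub_nonneg.mpr hqs) ha (by linarith only [hka]) hb (by linarith only [hsb]) hy (by linarith only [hu]) hbud000 hbud001 hbud100 hbud110
          linear_combination h
        · have h := c5_um_2c z f H k s p q a b (by linarith only [hzc10]) (by linarith only [hz1]) (by linarith only [hf0]) (by linarith only [hf1]) hH (sub_nonneg.mpr hHf) hp (sub_nonneg.mpr hpk) hq (sub_nonneg.mpr hqs) ha (by linarith only [hka]) hb (by linarith only [hsb]) hy (by linarith only [hu])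
          linear_combination h


theorem tgt2h {z f H k s p q a b : ℝ} (hz : 0 ≤ z) (hz1 : z ≤ 1 / 4) (hf0 : 1 / 10 ≤ f) (hf1 : f ≤ 3 / 20)
    (hH : H = 0) (hp : 0 ≤ p) (hpk : p ≤ k) (hq : 0 ≤ q) (hqs : q ≤ s)
    (ha : 0 ≤ a) (hka : k + a ≤ 1 / 2 + z - f) (hb : 0 ≤ b) (hsb : s + b ≤ 1 / 2 - z)
    (hy : 0 ≤ 1 / 2 + z - H - k - s) (hy1 : 1 / 2 + z - H - k - s ≤ 1 / 4 + z)
    (hG : H * (q + b) +
      p * max 0 (2 * z - (1 / 2 + z - H - k - s) + (f - H) + (a + b)) +
      a * max 0 (2 * z - (1 / 2 + z - H - k - s) + (f - H)) +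
      q * max 0 (2 * z - (1 / 2 + z - H - k - s) + (a + b)) +
      b * max 0 (2 * z - (1 / 2 + z - H - k - s)) ≤ z * (1 - 2 * f)) :
    0 ≤ tgt (3 / 20) z f H k s p q a b := by
  subst hH
  have hbu := bud_up hp hq ha hb hG
  obtain ⟨hbud000, hbud001, hbud010, hbud011, hbud100, hbud101, hbud110, hbud111⟩ := bud_um hp hq ha hb hG
  unfold tgt
  rcases le_total (1 / 2 + z - 0 - k - s) (2 * z) with hu | hu
  · have hbud := hbu
    have h := c2h_up z f k s p q a b (by linarith only [hz]) (by linarith only [hz1]) (by linarith only [hf0]) (by linarith only [hf1]) hp (sub_nonneg.mpr hpk) hq (sub_nonneg.mpr hqs) ha (by linarith only [hka]) hb (by linarith only [hsb]) hy (sub_nonneg.mpr hu) (sub_nonneg.mpr hy1) hbud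
    linear_combination h
  · have h := c2h_um z f k s p q a b (by linarith only [hz]) (by linarith only [hz1]) (by linarith only [hf0]) (by linarith only [hf1]) hp (sub_nonneg.mpr hpk) hq (sub_nonneg.mpr hqs) ha (by linarith only [hka]) hb (by linarith only [hsb]) hy (by linarith only [hu]) (sub_nonneg.mpr hy1)
    linear_combination h

theorem tgt3h {z f H k s p q a b : ℝ} (hz : 0 ≤ z) (hz1 : z ≤ 1 / 4) (hf0 : 3 / 20 ≤ f) (hf1 : f ≤ 1 / 5)
    (hH : H = 0) (hp : 0 ≤ p) (hpk : p ≤ k) (hq : 0 ≤ q) (hqs : q ≤ s)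
    (ha : 0 ≤ a) (hka : k + a ≤ 1 / 2 + z - f) (hb : 0 ≤ b) (hsb : s + b ≤ 1 / 2 - z)
    (hy : 0 ≤ 1 / 2 + z - H - k - s) (hy1 : 1 / 2 + z - H - k - s ≤ 1 / 4 + z)
    (hG : H * (q + b) +
      p * max 0 (2 * z - (1 / 2 + z - H - k - s) + (f - H) + (a + b)) +
      a * max 0 (2 * z - (1 / 2 + z - H - k - s) + (f - H)) +
      q * max 0 (2 * z - (1 / 2 + z - H - k - s) + (a + b)) +
      b * max 0 (2 * z - (1 / 2 + z - H - k - s)) ≤ z * (1 - 2 * f)) :
    0 ≤ tgt (1 / 2) z f H k s p q a b := by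
  subst hH
  have hbu := bud_up hp hq ha hb hG
  obtain ⟨hbud000, hbud001, hbud010, hbud011, hbud100, hbud101, hbud110, hbud111⟩ := bud_um hp hq ha hb hG
  unfold tgt
  rcases le_total (1 / 2 + z - 0 - k - s) (2 * z) with hu | hu
  · have hbud := hbu
    have h := c3h_up z f k s p q a b (by linarith only [hz]) (by linarith only [hz1]) (by linarith only [hf0]) (by linarith only [hf1]) hp (sub_nonneg.mpr hpk) hq (sub_nonneg.mpr hqs) ha (by linarith only [hka]) hb (by linarith only [hsb]) hy (sub_nonneg.mpr hu) (sub_nonneg.mpr hy1) hbud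
    linear_combination h
  · have h := c3h_um z f k s p q a b (by linarith only [hz]) (by linarith only [hz1]) (by linarith only [hf0]) (by linarith only [hf1]) hp (sub_nonneg.mpr hpk) hq (sub_nonneg.mpr hqs) ha (by linarith only [hka]) hb (by linarith only [hsb]) hy (by linarith only [hu]) (sub_nonneg.mpr hy1)
    linear_combination h

end Pool.Agent.E809HL
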