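import Mathlib
import Pool.Agent.Helper296.E809.Ranges

/-! The exact inequality B of `MP_d36a1d_co` (weight one), for `f ≤ 6/25`. The hypotheses are the
fields of `Dat 0 z f H k s pT pB rT rB`. -/

set_option autoImplicit false
set_option maxHeartbeats 4000000

namespace Pool.Agent.E809HL

/-- From the polynomial inequality to the Lagrangian form. -/
theorem lagr_of_tgt {μ z f H k s p q a b : ℝ} (hμ : 0 ≤ μ) (hz : z < 1 / 2) (hH : 0 ≤ H)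
    (hp : 0 ≤ p) (hpk : p ≤ k) (hq : 0 ≤ q) (hqs : q ≤ s) (ha : 0 ≤ a) (hb : 0 ≤ b)
    (hks : 0 < k + s) (hT : 0 ≤ tgt μ z f H k s p q a b) :
    2 * k * (1 - (k + s) / ((k + s) + (a + b))) +
      2 * H * (1 - ((k - p) + (s - q)) / (((k - p) + (s - q)) + (a + b))) ≤
      1 / 2 + z + 2 * μ * (1 / 2 + z - H - k - s) - (1 - μ) * s -
        (μ * ((1 / 2 + z - f) ^ 2 - (2 * k * (p + a) - p ^ 2) - 2 * z ^ 2) - z ^ 2) / (1 / 2 - z) := by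
  have hβ : 0 < 1 / 2 - z := by linarith
  have hN : 0 < (k + s) + (a + b) := by linarith
  have hk : 0 ≤ k := hp.trans hpk
  have hφ : 0 ≤ p + q := by linarith
  -- first fraction
  have e1 : 2 * k * (1 - (k + s) / ((k + s) + (a + b))) = 2 * k * (a + b) / ((k + s) + (a + b)) := by
    field_simp
    ring
  -- second fraction
  have e2 : 2 * H * (1 - ((k - p) + (s - q)) / (((k - p) + (s - q)) + (a + b))) ≤
      2 * H * ((a + b) + p + q) / ((k + s) + (a + b)) := by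
    have hw : 0 ≤ ((k - p) + (s - q)) + (a + b) := by linarith
    rw [mul_div_assoc]
    apply mul_le_mul_of_nonneg_left _ (by linarith)
    rcases hw.eq_or_lt with hw0 | hw0
    · rw [← hw0]
      have : (a + b) + p + q = (k + s) + (a + b) := by linarith
      rw [this, div_self hN.ne']
      simp
    · rw [le_div_iff₀ hN]
      have h3 : (1 - ((k - p) + (s - q)) / (((k - p) + (s - q)) + (a + b))) =
          (a + b) / (((k - p) + (s - q)) + (a + b)) := by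
        field_simp
        ring
      rw [h3, div_mul_eq_mul_div, div_le_iff₀ hw0]
      have h4 : 0 ≤ (p + q) * ((k - p) + (s - q)) := mul_nonneg hφ (by linarith)
      linarith
  -- the right-hand side
  have e3 : (2 * k * (a + b) + 2 * H * ((a + b) + p + q)) / ((k + s) + (a + b)) ≤
      (1 - μ) * (k + H) + (1 + μ) * (1 / 2 + z - H - k - s) +
        (μ * (k * (p + 2 * a)) + μ * (f * (1 - f) - z * (1 - 2 * f)) + z * z) / (1 / 2 - z) := by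
    have e4 : (1 - μ) * (k + H) + (1 + μ) * (1 / 2 + z - H - k - s) +
        (μ * (k * (p + 2 * a)) + μ * (f * (1 - f) - z * (1 - 2 * f)) + z * z) / (1 / 2 - z) =
        ((1 / 2 - z) * ((1 - μ) * (k + H) + (1 + μ) * (1 / 2 + z - H - k - s)) +
        (μ * (k * (p + 2 * a)) + μ * (f * (1 - f) - z * (1 - 2 * f)) + z * z)) / (1 / 2 - z) := by
      rw [eq_div_iff hβ.ne', add_mul, div_mul_cancel₀ _ hβ.ne']
      ring
    rw [e4, div_le_div_iff₀ hN hβ]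
    unfold tgt at hT
    linarith
  have e5 : 1 / 2 + z + 2 * μ * (1 / 2 + z - H - k - s) - (1 - μ) * s -
        (μ * ((1 / 2 + z - f) ^ 2 - (2 * k * (p + a) - p ^ 2) - 2 * z ^ 2) - z ^ 2) / (1 / 2 - z) -
      ((1 - μ) * (k + H) + (1 + μ) * (1 / 2 + z - H - k - s) +
        (μ * (k * (p + 2 * a)) + μ * (f * (1 - f) - z * (1 - 2 * f)) + z * z) / (1 / 2 - z)) =
      μ * (p * (k - p)) / (1 / 2 - z) := by
    have key : ∀ l A l2 B β : ℝ, β ≠ 0 → (l - A / β) - (l2 + B / β) = ((l - l2) * β - A - B) / β := by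
      intro l A l2 B β hβ
      rw [sub_div, sub_div, mul_div_cancel_right₀ _ hβ]
      ring
    rw [key _ _ _ _ _ hβ.ne']
    congr 1
    ring
  have e6 : 0 ≤ μ * (p * (k - p)) / (1 / 2 - z) :=
    div_nonneg (mul_nonneg hμ (mul_nonneg hp (by linarith))) hβ.le
  rw [add_div] at e3
  linarith

/-- Case `H = 0`, `μ = 0`. -/
theorem lagr_zero {z f k s p q a b : ℝ} (hz : 0 ≤ z) (hf : 0 ≤ f)
    (hp : 0 ≤ p) (hpk : p ≤ k) (hq : 0 ≤ q) (hqs : q ≤ s) (ha : 0 ≤ a)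
    (hka : k + a ≤ 1 / 2 + z - f) (hb : 0 ≤ b) (hsb : s + b ≤ 1 / 2 - z)
    (hy : 0 ≤ 1 / 2 + z - 0 - k - s) (hy1 : 1 / 2 + z - 0 - k - s ≤ 1 / 4 + z) :
    2 * k * (1 - (k + s) / ((k + s) + (a + b))) +
      2 * 0 * (1 - ((k - p) + (s - q)) / (((k - p) + (s - q)) + (a + b))) ≤
      1 / 2 + z + 2 * 0 * (1 / 2 + z - 0 - k - s) - (1 - 0) * s -
        (0 * ((1 / 2 + z - f) ^ 2 - (2 * k * (p + a) - p ^ 2) - 2 * z ^ 2) - z ^ 2) / (1 / 2 - z) := by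
  have hk : 0 ≤ k := hp.trans hpk
  have hs : 0 ≤ s := hq.trans hqs
  have hN : 0 < (k + s) + (a + b) := by linarith
  have e1 : 2 * k * (1 - (k + s) / ((k + s) + (a + b))) = 2 * k * (a + b) / ((k + s) + (a + b)) := by
    field_simp
    ring
  have e2 : 2 * k * (a + b) / ((k + s) + (a + b)) ≤ 1 / 2 + z - s := by
    rw [div_le_iff₀ hN]
    rcases le_total (a + b) (k + s) with h | h
    · nlinarith [mul_nonneg hk (sub_nonneg.mpr h), mul_nonneg hy hN.le]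
    · have h1 : (a + b) - (k + s) ≤ 2 * (1 / 2 + z - 0 - k - s) := by linarith
      have h2 : 2 * k ≤ (k + s) + (a + b) := by linarith
      nlinarith [mul_nonneg hk (sub_nonneg.mpr h1), mul_nonneg hy (sub_nonneg.mpr h2)]
  have e3 : 0 ≤ z ^ 2 / (1 / 2 - z) := div_nonneg (sq_nonneg z) (by linarith)
  have e4 : (0 * ((1 / 2 + z - f) ^ 2 - (2 * k * (p + a) - p ^ 2) - 2 * z ^ 2) - z ^ 2) / (1 / 2 - z) =
      - (z ^ 2 / (1 / 2 - z)) := by ring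
  rw [e1, e4]
  linarith

section
variable {z f H k s pT pB rT rB : ℝ}

/-- The multiplier `μ` (depends on `f` only). -/
noncomputable def muOf (f : ℝ) : ℝ :=
  if f ≤ 1 / 10 then 0 else if f ≤ 3 / 20 then 3 / 20 else if f ≤ 1 / 5 then 1 / 2 else
    if f ≤ 11 / 50 then 13 / 20 else 4 / 5

/-- Lagrangian inequality (the exact version, weight one), with multiplier `μ`. -/
def LagrB (μ z f H k s pT pB rT rB : ℝ) : Prop :=
  2 * k * (1 - (k + s) / ((k + s) + (rT + rB))) +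
      2 * H * (1 - ((k - pT) + (s - pB)) / (((k - pT) + (s - pB)) + (rT + rB))) ≤
      1 / 2 + z + 2 * μ * (1 / 2 + z - H - k - s) - (1 - μ) * s -
        (μ * ((1 / 2 + z - f) ^ 2 - (2 * k * (pT + rT) - pT ^ 2) - 2 * z ^ 2) - z ^ 2) / (1 / 2 - z)

theorem range1 (hz : 0 ≤ z) (hf : 0 ≤ f)
    (hzf : 0 < f → z ≤ 1 / 4) (hH : 0 ≤ H) (hHf : H ≤ f) (hpT : 0 ≤ pT) (hpTk : pT ≤ k)
    (hpB : 0 ≤ pB) (hpBs : pB ≤ s) (hrT : 0 ≤ rT) (hkrT : k + rT ≤ 1 / 2 + z - f)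
    (hrB : 0 ≤ rB) (hsrB : s + rB ≤ 1 / 2 - z) (hy : 0 ≤ 1 / 2 + z - H - k - s)
    (hy1 : 1 / 2 + z - H - k - s ≤ 1 / 4 + z)
    (hmin : 0 < H → pB + rB ≤ 1 / 4 - z)
    (hG : H * (pB + rB) +
      pT * max 0 (2 * z - (1 / 2 + z - H - k - s) + (f - H) + (rT + rB)) +
      rT * max 0 (2 * z - (1 / 2 + z - H - k - s) + (f - H)) +
      pB * max 0 (2 * z - (1 / 2 + z - H - k - s) + (rT + rB)) +
      rB * max 0 (2 * z - (1 / 2 + z - H - k - s)) ≤ z * (1 - 2 * f))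
    (hf1 : f ≤ 1 / 10) : LagrB 0 z f H k s pT pB rT rB := by
  rcases hH.eq_or_lt with hH0 | hH0
  · subst hH0
    exact lagr_zero hz hf hpT hpTk hpB hpBs hrT hkrT hrB hsrB hy hy1
  · have hz4 : z ≤ 1 / 4 := hzf (hH0.trans_le hHf)
    exact lagr_of_tgt le_rfl (by linarith) hH hpT hpTk hpB hpBs hrT hrB (by linarith)
      (tgt1 hz hz4 hf hf1 hH hHf hpT hpTk hpB hpBs hrT hkrT hrB hsrB hy hy1 (hmin hH0) hG)

theorem range2 (hz : 0 ≤ z)
    (hzf : 0 < f → z ≤ 1 / 4) (hH : 0 ≤ H) (hHf : H ≤ f) (hpT : 0 ≤ pT) (hpTk : pT ≤ k)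
    (hpB : 0 ≤ pB) (hpBs : pB ≤ s) (hrT : 0 ≤ rT) (hkrT : k + rT ≤ 1 / 2 + z - f)
    (hrB : 0 ≤ rB) (hsrB : s + rB ≤ 1 / 2 - z) (hy : 0 ≤ 1 / 2 + z - H - k - s)
    (hy1 : 1 / 2 + z - H - k - s ≤ 1 / 4 + z)
    (hmin : 0 < H → pB + rB ≤ 1 / 4 - z)
    (hG : H * (pB + rB) +
      pT * max 0 (2 * z - (1 / 2 + z - H - k - s) + (f - H) + (rT + rB)) +
      rT * max 0 (2 * z - (1 / 2 + z - H - k - s) + (f - H)) +
      pB * max 0 (2 * z - (1 / 2 + z - H - k - s) + (rT + rB)) +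
      rB * max 0 (2 * z - (1 / 2 + z - H - k - s)) ≤ z * (1 - 2 * f))
    (hf0 : 1 / 10 ≤ f) (hf1 : f ≤ 3 / 20) : LagrB (3 / 20) z f H k s pT pB rT rB := by
  have hz4 : z ≤ 1 / 4 := hzf (by linarith)
  rcases hH.eq_or_lt with hH0 | hH0
  · exact lagr_of_tgt (by norm_num) (by linarith) hH hpT hpTk hpB hpBs hrT hrB (by linarith)
      (tgt2h hz hz4 hf0 hf1 hH0.symm hpT hpTk hpB hpBs hrT hkrT hrB hsrB hy hy1 hG)
  · exact lagr_of_tgt (by norm_num) (by linarith) hH hpT hpTk hpB hpBs hrT hrB (by linarith)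
      (tgt2 hz hz4 hf0 hf1 hH hHf hpT hpTk hpB hpBs hrT hkrT hrB hsrB hy hy1 (hmin hH0) hG)

theorem range3 (hz : 0 ≤ z)
    (hzf : 0 < f → z ≤ 1 / 4) (hH : 0 ≤ H) (hHf : H ≤ f) (hpT : 0 ≤ pT) (hpTk : pT ≤ k)
    (hpB : 0 ≤ pB) (hpBs : pB ≤ s) (hrT : 0 ≤ rT) (hkrT : k + rT ≤ 1 / 2 + z - f)
    (hrB : 0 ≤ rB) (hsrB : s + rB ≤ 1 / 2 - z) (hy : 0 ≤ 1 / 2 + z - H - k - s)
    (hy1 : 1 / 2 + z - H - k - s ≤ 1 / 4 + z)
    (hmin : 0 < H → pB + rB ≤ 1 / 4 - z)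
    (hG : H * (pB + rB) +
      pT * max 0 (2 * z - (1 / 2 + z - H - k - s) + (f - H) + (rT + rB)) +
      rT * max 0 (2 * z - (1 / 2 + z - H - k - s) + (f - H)) +
      pB * max 0 (2 * z - (1 / 2 + z - H - k - s) + (rT + rB)) +
      rB * max 0 (2 * z - (1 / 2 + z - H - k - s)) ≤ z * (1 - 2 * f))
    (hf0 : 3 / 20 ≤ f) (hf1 : f ≤ 1 / 5) : LagrB (1 / 2) z f H k s pT pB rT rB := by
  have hz4 : z ≤ 1 / 4 := hzf (by linarith)
  rcases hH.eq_or_lt with hH0 | hH0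
  · exact lagr_of_tgt (by norm_num) (by linarith) hH hpT hpTk hpB hpBs hrT hrB (by linarith)
      (tgt3h hz hz4 hf0 hf1 hH0.symm hpT hpTk hpB hpBs hrT hkrT hrB hsrB hy hy1 hG)
  · exact lagr_of_tgt (by norm_num) (by linarith) hH hpT hpTk hpB hpBs hrT hrB (by linarith)
      (tgt3 hz hz4 hf0 hf1 hH hHf hpT hpTk hpB hpBs hrT hkrT hrB hsrB hy hy1 (hmin hH0) hG)

theorem range4 (hz : 0 ≤ z)
    (hzf : 0 < f → z ≤ 1 / 4) (hH : 0 ≤ H) (hHf : H ≤ f) (hpT : 0 ≤ pT) (hpTk : pT ≤ k)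
    (hpB : 0 ≤ pB) (hpBs : pB ≤ s) (hrT : 0 ≤ rT) (hkrT : k + rT ≤ 1 / 2 + z - f)
    (hrB : 0 ≤ rB) (hsrB : s + rB ≤ 1 / 2 - z) (hy : 0 ≤ 1 / 2 + z - H - k - s)
    (hy1 : 1 / 2 + z - H - k - s ≤ 1 / 4 + z)
    (hG : H * (pB + rB) +
      pT * max 0 (2 * z - (1 / 2 + z - H - k - s) + (f - H) + (rT + rB)) +
      rT * max 0 (2 * z - (1 / 2 + z - H - k - s) + (f - H)) +
      pB * max 0 (2 * z - (1 / 2 + z - H - k - s) + (rT + rB)) +
      rB * max 0 (2 * z - (1 / 2 + z - H - k - s)) ≤ z * (1 - 2 * f))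
    (hf0 : 1 / 5 ≤ f) (hf1 : f ≤ 11 / 50) : LagrB (13 / 20) z f H k s pT pB rT rB := by
  have hz4 : z ≤ 1 / 4 := hzf (by linarith)
  exact lagr_of_tgt (by norm_num) (by linarith) hH hpT hpTk hpB hpBs hrT hrB (by linarith)
      (tgt4 hz hz4 hf0 hf1 hH hHf hpT hpTk hpB hpBs hrT hkrT hrB hsrB hy hy1 hG)

theorem range5 (hz : 0 ≤ z)
    (hzf : 0 < f → z ≤ 1 / 4) (hH : 0 ≤ H) (hHf : H ≤ f) (hpT : 0 ≤ pT) (hpTk : pT ≤ k)
    (hpB : 0 ≤ pB) (hpBs : pB ≤ s) (hrT : 0 ≤ rT) (hkrT : k + rT ≤ 1 / 2 + z - f)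
    (hrB : 0 ≤ rB) (hsrB : s + rB ≤ 1 / 2 - z) (hy : 0 ≤ 1 / 2 + z - H - k - s)
    (hy1 : 1 / 2 + z - H - k - s ≤ 1 / 4 + z)
    (hG : H * (pB + rB) +
      pT * max 0 (2 * z - (1 / 2 + z - H - k - s) + (f - H) + (rT + rB)) +
      rT * max 0 (2 * z - (1 / 2 + z - H - k - s) + (f - H)) +
      pB * max 0 (2 * z - (1 / 2 + z - H - k - s) + (rT + rB)) +
      rB * max 0 (2 * z - (1 / 2 + z - H - k - s)) ≤ z * (1 - 2 * f))
    (hf0 : 11 / 50 ≤ f) (hf1 : f ≤ 6 / 25) : LagrB (4 / 5) z f H k s pT pB rT rB := by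
  have hz4 : z ≤ 1 / 4 := hzf (by linarith)
  exact lagr_of_tgt (by norm_num) (by linarith) hH hpT hpTk hpB hpBs hrT hrB (by linarith)
      (tgt5 hz hz4 hf0 hf1 hH hHf hpT hpTk hpB hpBs hrT hkrT hrB hsrB hy hy1 hG)

end

end Pool.Agent.E809HL
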